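import Pool.Agent.Lib.NetAlg.Defs

/-!
# The corrected code (paper, section 5) (size about 250)

Call `v` useful if it reaches a terminal; `hanc` describes the sources reaching a useful vertex.
(i) for `a, b ∈ A` which agree on all the sources reaching `tail e`: `m e a = m e b` (strong induction on the rank of `tail e`: `hm`; the
sources available at `tail e` reach it; the sources reaching `tail e'`, `head e' = tail e`, reach `tail e`).
(ii) for useful `v` and `x` choose `av v x ∈ A` which agrees with `F x` on the sources reaching `v` (`hFb`; if no source reaches `v` any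
element of `A`). `msg e x = (m e (av (tail e) x), fun i => if G.Reaches i (tail e) then D i x else none-function)` if `tail e` is useful,
`([], fun _ _ => none)` otherwise.
`D i x : Fin N → Option G.Sym`: if `(df (T i) x (F x) : ℝ) ≤ η N` then `n ↦ if x n, F x n agree on T i then none else some (σ n)`, where
`σ n j = x n j` for `j ∈ T i` and `= a₀ n j` otherwise (`a₀ ∈ A` fixed); if not, `none` for all `n`. `D i x` depends only on the coordinates
in `T i` of `x` (`hFa` for all `j ∈ T i`, `T j ⊆ T i`).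
(iii) locality: `SameData msg v x y`, `v` useful. The incoming edges have useful tails. `av v x`, `av v y` agree on `avail v` (for
`i ∈ avail v`: `i` reaches `v`, so it is in `T i'` and in `R`; `F x n i = F y n i` by `hFa`, since `T i ⊆ avail v` by `hTav`), and
`m e (av v x) = m e (av (tail e) x) = m e (av (tail e) y) = m e (av v y)` for `head e = v` by (i) (the sources reaching `tail e` reach `v`);
so `SameData m v (av v x) (av v y)`, and `hm`, `hd` apply. For `i` reaching `v`: `D i x = D i y` (if `i ∈ avail v`: `T i ⊆ avail v`;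
otherwise the path to `v` has a last edge `e` (`Relation.ReflTransGen.cases_tail`), `i` reaches `tail e`, and the second component of
`msg e` contains `D i`).
(iv) decoder at a terminal `v` (other `v`: the constant `a₀`): `d v x n j = a₀ n j` for `j ∉ dem v`; for `j ∈ dem v`: if no source reaches `v`:
`a₀ n j`; otherwise let `i ∈ R` with `T i` = the sources reaching `v`: if `D i x n = none` then `av v x n j` (by (iii) and `hd` a function
of the data) else, `D i x n = some σ`, `τ j` for a chosen `τ` with `0 < P τ` which agrees with `σ` on `T i` (if it exists, else `σ j`).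
(v) correctness: by `hdet` (values of `P`-positive samples agreeing on the sources reaching `v` agree at `j`): if `x n`, `F x n` agree on
`T i` then `x n`, `av v x n` do; otherwise `D i x n = some σ` with `σ = x n` on `T i`.
-/

namespace Pool.Agent.Lib.NetAlg

open Finset

private theorem mem_filter_gen {α : Type} (s : Finset α) (Q : α → Prop) {inst : DecidablePred Q}
    (a : α) : a ∈ @Finset.filter α Q inst s ↔ a ∈ s ∧ Q a := Finset.mem_filter

private theorem exD (G : Net) {N : ℕ} (R : Finset (Fin G.k)) (T : Fin G.k → Finset (Fin G.k))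
    (h2 : ∀ i ∈ R, ∀ j ∈ T i, j ∈ R ∧ T j ⊆ T i) (F : G.Blk N → G.Blk N)
    (hFa : ∀ i ∈ R, ∀ x x', (∀ n, ∀ j ∈ T i, x n j = x' n j) → ∀ n, F x n i = F x' n i)
    (a₀ : G.Blk N) (η : ℝ) (hη : 0 ≤ η) :
    ∃ D : Fin G.k → G.Blk N → Fin N → Option G.Sym,
      (∀ i ∈ R, ∀ x y, (∀ n, ∀ j ∈ T i, x n j = y n j) → D i x = D i y) ∧
      (∀ i x (S : Finset (Fin N)), (∀ n ∈ S, D i x n ≠ none) → (S.card : ℝ) ≤ η * N) ∧
      (∀ i x, (df (T i) x (F x) : ℝ) ≤ η * N → ∀ n,
        ((∀ j ∈ T i, x n j = F x n j) ∧ D i x n = none) ∨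
          ∃ σ, D i x n = some σ ∧ ∀ j ∈ T i, σ j = x n j) := by
  refine ⟨fun i x => if (df (T i) x (F x) : ℝ) ≤ η * N then
    (fun n => if ∀ j ∈ T i, x n j = F x n j then none else
      some (fun j => if j ∈ T i then x n j else a₀ n j)) else fun _ => none, ?_, ?_, ?_⟩
  · intro i hi x y hxy
    have hF : ∀ n, ∀ j ∈ T i, F x n j = F y n j := by
      intro n j hj
      exact hFa j (h2 i hi j hj).1 x y (fun n l hl => hxy n l ((h2 i hi j hj).2 hl)) n
    have hiff : ∀ n, (∀ j ∈ T i, x n j = F x n j) ↔ (∀ j ∈ T i, y n j = F y n j) := by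
      intro n
      constructor
      · intro h j hj
        rw [← hxy n j hj, ← hF n j hj]
        exact h j hj
      · intro h j hj
        rw [hxy n j hj, hF n j hj]
        exact h j hj
    have hdf : df (T i) x (F x) = df (T i) y (F y) := by
      unfold df
      congr 1
      ext n
      rw [mem_filter_gen, mem_filter_gen]
      exact and_congr_right (fun _ => not_congr (hiff n))
    have hs : ∀ n, (fun j => if j ∈ T i then x n j else a₀ n j) =
        (fun j => if j ∈ T i then y n j else a₀ n j) := by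
      intro n
      funext j
      by_cases hj : j ∈ T i
      · rw [if_pos hj, if_pos hj, hxy n j hj]
      · rw [if_neg hj, if_neg hj]
    show (if (df (T i) x (F x) : ℝ) ≤ η * N then
    (fun n => if ∀ j ∈ T i, x n j = F x n j then none else
      some (fun j => if j ∈ T i then x n j else a₀ n j)) else fun _ => none) =
      (if (df (T i) y (F y) : ℝ) ≤ η * N then
    (fun n => if ∀ j ∈ T i, y n j = F y n j then none else
      some (fun j => if j ∈ T i then y n j else a₀ n j)) else fun _ => none)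
    rw [hdf]
    by_cases hc : (df (T i) y (F y) : ℝ) ≤ η * N
    · rw [if_pos hc, if_pos hc]
      funext n
      by_cases hn : ∀ j ∈ T i, x n j = F x n j
      · rw [if_pos hn, if_pos ((hiff n).1 hn)]
      · rw [if_neg hn, if_neg (fun h => hn ((hiff n).2 h)), hs n]
    · rw [if_neg hc, if_neg hc]
  · intro i x S hS
    have h0 : (0 : ℝ) ≤ η * N := mul_nonneg hη (Nat.cast_nonneg _)
    by_cases hc : (df (T i) x (F x) : ℝ) ≤ η * N
    · refine le_trans ?_ hc
      have : S.card ≤ df (T i) x (F x) := by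
        unfold df
        apply Finset.card_le_card
        intro n hn
        rw [mem_filter_gen]
        refine ⟨Finset.mem_univ n, fun h => ?_⟩
        have h3 := hS n hn
        simp only [if_pos hc] at h3
        rw [if_pos h] at h3
        exact h3 rfl
      exact_mod_cast this
    · have : S = ∅ := by
        apply Finset.eq_empty_of_forall_notMem
        intro n hn
        have h3 := hS n hn
        simp only [if_neg hc] at h3
        exact h3 rfl
      rw [this]
      simpa using h0
  · intro i x hc n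
    simp only [if_pos hc]
    by_cases hn : ∀ j ∈ T i, x n j = F x n j
    · left
      exact ⟨hn, by rw [if_pos hn]⟩
    · right
      refine ⟨_, by rw [if_neg hn], ?_⟩
      intro j hj
      simp only [if_pos hj]

private theorem mA (G : Net) (hac : G.Acyclic) {N : ℕ} (A : Set (G.Blk N))
    (m : Fin G.nE → G.Blk N → List Bool)
    (hm : ∀ e, ∀ x ∈ A, ∀ y ∈ A, G.SameData m (G.tail e) x y → m e x = m e y) :
    ∀ e, ∀ a ∈ A, ∀ b ∈ A, (∀ i, G.Reaches i (G.tail e) → ∀ n, a n i = b n i) →
      m e a = m e b := by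
  obtain ⟨rank, hrank⟩ := hac
  have key : ∀ r : ℕ, ∀ e, rank (G.tail e) < r → ∀ a ∈ A, ∀ b ∈ A,
      (∀ i, G.Reaches i (G.tail e) → ∀ n, a n i = b n i) → m e a = m e b := by
    intro r
    induction r with
    | zero => intro e he; exact absurd he (Nat.not_lt_zero _)
    | succ r ih =>
      intro e he a ha b hb hab
      apply hm e a ha b hb
      refine ⟨fun i hi n => hab i ⟨G.tail e, Relation.ReflTransGen.refl, hi⟩ n, ?_⟩
      intro e' he'
      have h3 : rank (G.tail e') < rank (G.tail e) := by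
        have := hrank e'
        rwa [he'] at this
      apply ih e' (by omega) a ha b hb
      rintro i ⟨u, hu, hi⟩ n
      refine hab i ⟨u, ?_, hi⟩ n
      exact hu.tail ⟨e', rfl, he'⟩
  intro e
  exact key (rank (G.tail e) + 1) e (Nat.lt_succ_self _)

theorem build (G : Net) (hac : G.Acyclic) {N : ℕ} (P : G.Sym → ℝ)
    (R : Finset (Fin G.k)) (T : Fin G.k → Finset (Fin G.k)) (h1 : ∀ i ∈ R, i ∈ T i)
    (h2 : ∀ i ∈ R, ∀ j ∈ T i, j ∈ R ∧ T j ⊆ T i)
    (hTav : ∀ i u, i ∈ G.avail u → T i ⊆ G.avail u)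
    (hanc : ∀ v t, (G.dem t).Nonempty → G.Reach v t →
        (∀ i, ¬ G.Reaches i v) ∨ ∃ i ∈ R, ∀ j, j ∈ T i ↔ G.Reaches j v)
    (A : Set (G.Blk N)) (hA : A.Nonempty) (hAP : ∀ x ∈ A, ∀ n, 0 < P (x n))
    (m : Fin G.nE → G.Blk N → List Bool)
    (hm : ∀ e, ∀ x ∈ A, ∀ y ∈ A, G.SameData m (G.tail e) x y → m e x = m e y)
    (hd : ∀ v, ∀ i ∈ G.dem v, ∀ x ∈ A, ∀ y ∈ A, G.SameData m v x y → ∀ n, x n i = y n i)
    (hdet : ∀ t, ∀ j ∈ G.dem t, ∀ σ τ : G.Sym, 0 < P σ → 0 < P τ →
      (∀ i, G.Reaches i t → σ i = τ i) → σ j = τ j)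
    (F : G.Blk N → G.Blk N)
    (hFa : ∀ i ∈ R, ∀ x x', (∀ n, ∀ j ∈ T i, x n j = x' n j) → ∀ n, F x n i = F x' n i)
    (hFb : ∀ i ∈ R, ∀ x, ∃ a ∈ A, ∀ n, ∀ j ∈ T i, a n j = F x n j) (η : ℝ) (hη : 0 ≤ η) :
    ∃ (msg : Fin G.nE → G.Blk N → List Bool × (Fin G.k → Fin N → Option G.Sym))
      (d : Fin G.nV → G.Blk N → G.Blk N),
      (∀ e x, (msg e x).1 = [] ∨ ∃ a ∈ A, (msg e x).1 = m e a) ∧
      (∀ e x i, ((univ.filter (fun n => (msg e x).2 i n ≠ none)).card : ℝ) ≤ η * N) ∧
      (∀ e x y, G.SameData msg (G.tail e) x y → msg e x = msg e y) ∧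
      (∀ v x y, G.SameData msg v x y → d v x = d v y) ∧
      ∀ v x, (∀ n, 0 < P (x n)) → (∀ i ∈ R, (df (T i) x (F x) : ℝ) ≤ η * N) →
        ∀ i ∈ G.dem v, ∀ n, d v x n i = x n i := by
  obtain ⟨a₀, ha₀⟩ := hA
  obtain ⟨D, hD1, hD2, hD3⟩ := exD G R T h2 F hFa a₀ η hη
  have hmA := mA G hac A m hm
  have h0 : (0 : ℝ) ≤ η * N := mul_nonneg hη (Nat.cast_nonneg _)
  -- useful vertices
  obtain ⟨Us, hUs⟩ : ∃ Us : Fin G.nV → Prop, ∀ v, Us v ↔ ∃ t, (G.dem t).Nonempty ∧ G.Reach v t :=
    ⟨_, fun _ => Iff.rfl⟩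
  have hUe : ∀ e, Us (G.head e) → Us (G.tail e) := by
    intro e he
    rw [hUs] at he ⊢
    obtain ⟨t, ht, hr⟩ := he
    exact ⟨t, ht, Relation.ReflTransGen.head ⟨e, rfl, rfl⟩ hr⟩
  have hRe : ∀ e i, G.Reaches i (G.tail e) → G.Reaches i (G.head e) := by
    rintro e i ⟨u, hu, hi⟩
    exact ⟨u, hu.tail ⟨e, rfl, rfl⟩, hi⟩
  have hanc' : ∀ v, Us v → ∀ i, G.Reaches i v → ∃ i' ∈ R, ∀ j, j ∈ T i' ↔ G.Reaches j v := by
    intro v hv i hi
    rw [hUs] at hv
    obtain ⟨t, ht, hr⟩ := hv
    rcases hanc v t ht hr with h | h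
    · exact absurd hi (h i)
    · exact h
  have hRR : ∀ v, Us v → ∀ i, G.Reaches i v → i ∈ R := by
    intro v hv i hi
    obtain ⟨i', hi', hT⟩ := hanc' v hv i hi
    exact (h2 i' hi' i ((hT i).2 hi)).1
  have hav : ∀ v x, ∃ a ∈ A, Us v → ∀ i, G.Reaches i v → ∀ n, a n i = F x n i := by
    intro v x
    by_cases hv : Us v
    · by_cases hne : ∃ i, G.Reaches i v
      · obtain ⟨i, hi⟩ := hne
        obtain ⟨i', hi', hT⟩ := hanc' v hv i hi
        obtain ⟨a, ha, hax⟩ := hFb i' hi' x
        exact ⟨a, ha, fun _ j hj n => hax n j ((hT j).2 hj)⟩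
      · exact ⟨a₀, ha₀, fun _ j hj => absurd ⟨j, hj⟩ hne⟩
    · exact ⟨a₀, ha₀, fun h => absurd h hv⟩
  choose av hav1 hav2 using hav
  -- the messages
  classical
  obtain ⟨msg, hmsg1, hmsg2, hmsg3⟩ : ∃ msg : Fin G.nE → G.Blk N →
      List Bool × (Fin G.k → Fin N → Option G.Sym),
      (∀ e x, ¬ Us (G.tail e) → msg e x = ([], fun _ _ => none)) ∧
      (∀ e x, Us (G.tail e) → (msg e x).1 = m e (av (G.tail e) x)) ∧
      (∀ e x, Us (G.tail e) → ∀ i, (G.Reaches i (G.tail e) → (msg e x).2 i = D i x) ∧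
        (¬ G.Reaches i (G.tail e) → (msg e x).2 i = fun _ => none)) := by
    refine ⟨fun e x => if Us (G.tail e) then (m e (av (G.tail e) x), fun i =>
      if G.Reaches i (G.tail e) then D i x else fun _ => none) else ([], fun _ _ => none),
      ?_, ?_, ?_⟩
    · intro e x he
      exact if_neg he
    · intro e x he
      simp only [if_pos he]
    · intro e x he i
      constructor
      · intro hi
        simp only [if_pos he, if_pos hi]
      · intro hi
        simp only [if_pos he, if_neg hi]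
  -- locality of the representatives
  have hloc1 : ∀ v, Us v → ∀ x y, G.SameData msg v x y → G.SameData m v (av v x) (av v y) := by
    intro v hv x y hxy
    refine ⟨fun i hi n => ?_, fun e he => ?_⟩
    · have hr : G.Reaches i v := ⟨v, Relation.ReflTransGen.refl, hi⟩
      rw [hav2 v x hv i hr n, hav2 v y hv i hr n]
      exact hFa i (hRR v hv i hr) x y (fun n j hj => hxy.1 j (hTav i v hi hj) n) n
    · have hte : Us (G.tail e) := hUe e (by rw [he]; exact hv)
      have h3 : m e (av (G.tail e) x) = m e (av (G.tail e) y) := by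
        rw [← hmsg2 e x hte, ← hmsg2 e y hte, hxy.2 e he]
      have h4 : ∀ z, m e (av v z) = m e (av (G.tail e) z) := by
        intro z
        apply hmA e _ (hav1 v z) _ (hav1 (G.tail e) z)
        intro i hi n
        rw [hav2 _ z hte i hi n]
        exact hav2 v z hv i (by rw [← he]; exact hRe e i hi) n
      rw [h4, h4, h3]
  -- locality of the corrections
  have hloc2 : ∀ v, Us v → ∀ x y, G.SameData msg v x y → ∀ i, G.Reaches i v →
      D i x = D i y := by
    intro v hv x y hxy i hi
    have hiR := hRR v hv i hi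
    obtain ⟨u, hu, hiu⟩ := hi
    rcases Relation.ReflTransGen.cases_tail hu with h | ⟨c, hc, e, he1, he2⟩
    · rw [← h] at hiu
      exact hD1 i hiR x y (fun n j hj => hxy.1 j (hTav i v hiu hj) n)
    · have hte : Us (G.tail e) := hUe e (by rw [he2]; exact hv)
      have hi' : G.Reaches i (G.tail e) := ⟨u, by rw [he1]; exact hc, hiu⟩
      rw [← (hmsg3 e x hte i).1 hi', ← (hmsg3 e y hte i).1 hi', hxy.2 e he2]
  -- the decoders
  have hdec : ∀ v, ∃ dv : G.Blk N → G.Blk N, (∀ x y, G.SameData msg v x y → dv x = dv y) ∧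
      ∀ x, (∀ n, 0 < P (x n)) → (∀ i ∈ R, (df (T i) x (F x) : ℝ) ≤ η * N) →
        ∀ i ∈ G.dem v, ∀ n, dv x n i = x n i := by
    intro v
    by_cases hne : (G.dem v).Nonempty
    · have hv : Us v := (hUs v).2 ⟨v, hne, Relation.ReflTransGen.refl⟩
      by_cases hr : ∃ i, G.Reaches i v
      · obtain ⟨i₁, hi₁⟩ := hr
        obtain ⟨i, hiR, hT⟩ := hanc' v hv i₁ hi₁
        have hir : G.Reaches i v := (hT i).1 (h1 i hiR)
        obtain ⟨φ, hφ⟩ : ∃ φ : G.Sym → G.Sym, ∀ σ, (∃ τ : G.Sym, 0 < P τ ∧ ∀ l ∈ T i, τ l = σ l) →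
            0 < P (φ σ) ∧ ∀ l ∈ T i, φ σ l = σ l := by
          have : ∀ σ : G.Sym, ∃ ρ : G.Sym, (∃ τ : G.Sym, 0 < P τ ∧ ∀ l ∈ T i, τ l = σ l) →
            0 < P ρ ∧ ∀ l ∈ T i, ρ l = σ l := by
            intro σ
            by_cases h : ∃ τ : G.Sym, 0 < P τ ∧ ∀ l ∈ T i, τ l = σ l
            · obtain ⟨τ, h3, h4⟩ := h
              exact ⟨τ, fun _ => ⟨h3, h4⟩⟩
            · exact ⟨σ, fun h' => absurd h' h⟩
          choose φ hφ using this
          exact ⟨φ, hφ⟩
        refine ⟨fun x n j => if j ∈ G.dem v then (match D i x n with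
          | none => av v x n j
          | some σ => φ σ j) else a₀ n j, ?_, ?_⟩
        · intro x y hxy
          funext n j
          by_cases hj : j ∈ G.dem v
          · simp only [if_pos hj]
            rw [hloc2 v hv x y hxy i hir]
            rcases hDy : D i y n with _ | σ
            · exact hd v j hj _ (hav1 v x) _ (hav1 v y) (hloc1 v hv x y hxy) n
            · rfl
          · simp only [if_neg hj]
        · intro x hx hdf j hj n
          simp only [if_pos hj]
          rcases hD3 i x (hdf i hiR) n with ⟨h3, h4⟩ | ⟨σ, h3, h4⟩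
          · rw [h4]
            show av v x n j = x n j
            apply hdet v j hj _ _ (hAP _ (hav1 v x) n) (hx n)
            intro l hl
            rw [hav2 v x hv l hl n]
            exact (h3 l ((hT l).2 hl)).symm
          · rw [h3]
            show φ σ j = x n j
            obtain ⟨h5, h6⟩ := hφ σ ⟨x n, hx n, fun l hl => (h4 l hl).symm⟩
            apply hdet v j hj _ _ h5 (hx n)
            intro l hl
            have hl' := (hT l).2 hl
            rw [h6 l hl', h4 l hl']
      · refine ⟨fun _ => a₀, fun _ _ _ => rfl, ?_⟩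
        intro x hx _ j hj n
        apply hdet v j hj _ _ (hAP _ ha₀ n) (hx n)
        intro l hl
        exact absurd ⟨l, hl⟩ hr
    · refine ⟨fun _ => a₀, fun _ _ _ => rfl, ?_⟩
      intro x hx _ j hj n
      exact absurd ⟨j, hj⟩ hne
  choose d hdd1 hdd2 using hdec
  refine ⟨msg, d, ?_, ?_, ?_, hdd1, hdd2⟩
  · intro e x
    by_cases he : Us (G.tail e)
    · exact Or.inr ⟨_, hav1 (G.tail e) x, hmsg2 e x he⟩
    · left
      rw [hmsg1 e x he]
  · intro e x i
    by_cases he : Us (G.tail e)
    · by_cases hi : G.Reaches i (G.tail e)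
      · apply hD2 i x
        intro n hn
        have h3 := (Finset.mem_filter.1 hn).2
        rwa [(hmsg3 e x he i).1 hi] at h3
      · refine le_trans (le_of_eq ?_) h0
        rw [(hmsg3 e x he i).2 hi]
        simp
    · refine le_trans (le_of_eq ?_) h0
      rw [hmsg1 e x he]
      simp
  · intro e x y hxy
    by_cases he : Us (G.tail e)
    · apply Prod.ext
      · rw [hmsg2 e x he, hmsg2 e y he]
        exact hm e _ (hav1 _ x) _ (hav1 _ y) (hloc1 _ he x y hxy)
      · funext i
        by_cases hi : G.Reaches i (G.tail e)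
        · rw [(hmsg3 e x he i).1 hi, (hmsg3 e y he i).1 hi]
          exact hloc2 _ he x y hxy i hi
        · rw [(hmsg3 e x he i).2 hi, (hmsg3 e y he i).2 hi]
    · rw [hmsg1 e x he, hmsg1 e y he]

end Pool.Agent.Lib.NetAlg
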