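import Mathlib

/-!
# Counting sparse functions and binary strings (size about 130)

`sparse_count`: for `0 < s ≤ 1/2`, `q = Fintype.card Y`: `Σ_f ∏_n (if f n = none then 1 else s) = (1 + s q)^N ≤ exp(s q N)`
(`Finset.prod_univ_sum`, `Fintype.sum_option`), and each `f` with at most `η N` values different from `none` contributes
`s^(number) ≥ s^(η N)` (real power, `0 < s ≤ 1`). So the number of these `f` is `≤ exp(N (s q + η log (1/s)))`. Given `ρ` put
`s = min (1/2) (ρ log 2 / (2 (q + 1)))`, `η = ρ log 2 / (2 log (1/s))`: then `s q + η log(1/s) ≤ ρ log 2`.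

`strings_count`: the binary strings of length at most `r` are contained in the union over `l < ⌊r⌋ + 1` of the images of
`(Fin l → Bool)` under `List.ofFn`: at most `Σ_{l ≤ ⌊r⌋} 2^l ≤ 2^(⌊r⌋+1) ≤ 2^(r+1)` strings.
-/

namespace Pool.Agent.Lib.NetAlg

open Finset

private lemma cnt_weight (Y : Type) [Fintype Y] [DecidableEq Y] (s : ℝ) (N : ℕ) :
    ∑ f : Fin N → Option Y, ∏ n, (if f n = none then (1 : ℝ) else s) =
      (1 + s * (Fintype.card Y : ℝ)) ^ N := by
  have h := Finset.prod_univ_sum (fun _ : Fin N => (univ : Finset (Option Y)))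
    (fun _ o => if o = none then (1 : ℝ) else s)
  rw [Fintype.piFinset_univ] at h
  rw [← h]
  simp [Fintype.sum_option, mul_comm]

private lemma cnt_prod (Y : Type) [Fintype Y] [DecidableEq Y] (s : ℝ) (N : ℕ)
    (f : Fin N → Option Y) :
    ∏ n, (if f n = none then (1 : ℝ) else s) =
      s ^ (univ.filter (fun n => f n ≠ none)).card := by
  rw [Finset.prod_ite, Finset.prod_const_one, one_mul, Finset.prod_const]

theorem sparse_count (Y : Type) [Fintype Y] [DecidableEq Y] (ρ : ℝ) (hρ : 0 < ρ) :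
    ∃ η : ℝ, 0 < η ∧ ∀ N : ℕ,
      (((univ : Finset (Fin N → Option Y)).filter
        (fun f => ((univ.filter (fun n => f n ≠ none)).card : ℝ) ≤ η * N)).card : ℝ) ≤
          2 ^ (ρ * (N : ℝ)) := by
  have hl2 : 0 < Real.log 2 := Real.log_pos (by norm_num)
  obtain ⟨s, hs0, hs1, hsq⟩ : ∃ s : ℝ, 0 < s ∧ s ≤ 1 / 2 ∧
      s * (Fintype.card Y : ℝ) ≤ ρ * Real.log 2 / 2 := by
    refine ⟨min (1 / 2) (ρ * Real.log 2 / (2 * ((Fintype.card Y : ℝ) + 1))), ?_,
      min_le_left _ _, ?_⟩
    · apply lt_min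
      · norm_num
      · positivity
    · have hq : (0 : ℝ) ≤ (Fintype.card Y : ℝ) := by positivity
      calc min (1 / 2) (ρ * Real.log 2 / (2 * ((Fintype.card Y : ℝ) + 1))) * (Fintype.card Y : ℝ)
          ≤ (ρ * Real.log 2 / (2 * ((Fintype.card Y : ℝ) + 1))) * (Fintype.card Y : ℝ) :=
            mul_le_mul_of_nonneg_right (min_le_right _ _) hq
        _ ≤ (ρ * Real.log 2 / (2 * ((Fintype.card Y : ℝ) + 1))) * ((Fintype.card Y : ℝ) + 1) := by
            apply mul_le_mul_of_nonneg_left (by linarith)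
            positivity
        _ = ρ * Real.log 2 / 2 := by
            field_simp
  have hls : Real.log s < 0 := Real.log_neg hs0 (by linarith)
  refine ⟨ρ * Real.log 2 / (2 * (-Real.log s)), ?_, ?_⟩
  · apply div_pos (by positivity)
    linarith
  intro N
  set η := ρ * Real.log 2 / (2 * (-Real.log s)) with hη
  set F := (univ : Finset (Fin N → Option Y)).filter
        (fun f => ((univ.filter (fun n => f n ≠ none)).card : ℝ) ≤ η * N) with hF
  have h1 : (F.card : ℝ) * s ^ (η * (N : ℝ)) ≤ (1 + s * (Fintype.card Y : ℝ)) ^ N := by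
    rw [← cnt_weight Y s N]
    calc (F.card : ℝ) * s ^ (η * (N : ℝ)) = ∑ f ∈ F, s ^ (η * (N : ℝ)) := by
          rw [Finset.sum_const, nsmul_eq_mul]
      _ ≤ ∑ f ∈ F, ∏ n, (if f n = none then (1 : ℝ) else s) := by
          apply Finset.sum_le_sum
          intro f hf
          rw [cnt_prod]
          rw [hF, Finset.mem_filter] at hf
          rw [← Real.rpow_natCast]
          exact Real.rpow_le_rpow_of_exponent_ge hs0 (by linarith) hf.2
      _ ≤ ∑ f : Fin N → Option Y, ∏ n, (if f n = none then (1 : ℝ) else s) := by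
          apply Finset.sum_le_sum_of_subset_of_nonneg (Finset.subset_univ _)
          intro f _ _
          apply Finset.prod_nonneg
          intro n _
          split_ifs
          · norm_num
          · exact hs0.le
  have h2 : (1 + s * (Fintype.card Y : ℝ)) ^ N ≤ Real.exp ((ρ * Real.log 2 / 2) * N) := by
    have : (1 + s * (Fintype.card Y : ℝ)) ≤ Real.exp (ρ * Real.log 2 / 2) := by
      have := Real.add_one_le_exp (ρ * Real.log 2 / 2)
      linarith
    calc (1 + s * (Fintype.card Y : ℝ)) ^ N ≤ (Real.exp (ρ * Real.log 2 / 2)) ^ N := by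
          apply pow_le_pow_left₀ _ this
          positivity
      _ = Real.exp ((ρ * Real.log 2 / 2) * N) := by
          rw [← Real.exp_nat_mul, mul_comm]
  have h3 : s ^ (η * (N : ℝ)) = Real.exp (-((ρ * Real.log 2 / 2) * N)) := by
    rw [Real.rpow_def_of_pos hs0]
    congr 1
    rw [hη]
    have hne : Real.log s ≠ 0 := hls.ne
    field_simp
  rw [h3] at h1
  have h4 : (F.card : ℝ) ≤ Real.exp ((ρ * Real.log 2) * N) := by
    have h5 : (F.card : ℝ) = ((F.card : ℝ) * Real.exp (-((ρ * Real.log 2 / 2) * N))) *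
        Real.exp ((ρ * Real.log 2 / 2) * N) := by
      rw [mul_assoc, ← Real.exp_add]
      simp
    rw [h5]
    calc ((F.card : ℝ) * Real.exp (-((ρ * Real.log 2 / 2) * N))) *
        Real.exp ((ρ * Real.log 2 / 2) * N) ≤
          Real.exp ((ρ * Real.log 2 / 2) * N) * Real.exp ((ρ * Real.log 2 / 2) * N) :=
          mul_le_mul_of_nonneg_right (h1.trans h2) (Real.exp_pos _).le
      _ = Real.exp ((ρ * Real.log 2) * N) := by
          rw [← Real.exp_add]
          congr 1
          ring
  refine h4.trans (le_of_eq ?_)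
  rw [Real.rpow_def_of_pos (by norm_num : (0 : ℝ) < 2)]
  congr 1
  ring

theorem strings_count (r : ℝ) (hr : 0 ≤ r) :
    ∃ Z : Finset (List Bool), (Z.card : ℝ) ≤ 2 ^ (r + 1) ∧
      ∀ p : List Bool, (p.length : ℝ) ≤ r → p ∈ Z := by
  classical
  refine ⟨(range (⌊r⌋₊ + 1)).biUnion
    (fun l => (univ : Finset (Fin l → Bool)).image List.ofFn), ?_, ?_⟩
  · have h1 : ((range (⌊r⌋₊ + 1)).biUnion
        (fun l => (univ : Finset (Fin l → Bool)).image List.ofFn)).card ≤ 2 ^ (⌊r⌋₊ + 1) := by
      calc _ ≤ ∑ l ∈ range (⌊r⌋₊ + 1),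
            ((univ : Finset (Fin l → Bool)).image List.ofFn).card := Finset.card_biUnion_le
        _ ≤ ∑ l ∈ range (⌊r⌋₊ + 1), 2 ^ l := by
            apply Finset.sum_le_sum
            intro l _
            refine Finset.card_image_le.trans ?_
            simp
        _ ≤ 2 ^ (⌊r⌋₊ + 1) := by
            have := Nat.geomSum_eq (le_refl 2) (⌊r⌋₊ + 1)
            rw [this]
            simp
    calc ((((range (⌊r⌋₊ + 1)).biUnion
        (fun l => (univ : Finset (Fin l → Bool)).image List.ofFn)).card : ℕ) : ℝ)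
        ≤ ((2 ^ (⌊r⌋₊ + 1) : ℕ) : ℝ) := by exact_mod_cast h1
      _ = (2 : ℝ) ^ (((⌊r⌋₊ + 1 : ℕ)) : ℝ) := by
          rw [Real.rpow_natCast]
          push_cast
          rfl
      _ ≤ 2 ^ (r + 1) := by
          apply Real.rpow_le_rpow_of_exponent_le (by norm_num)
          push_cast
          have := Nat.floor_le hr
          linarith
  · intro p hp
    rw [Finset.mem_biUnion]
    refine ⟨p.length, ?_, ?_⟩
    · rw [Finset.mem_range, Nat.lt_succ_iff]
      exact Nat.le_floor hp
    · rw [Finset.mem_image]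
      exact ⟨p.get, Finset.mem_univ _, List.ofFn_get p⟩

end Pool.Agent.Lib.NetAlg
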