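import Pool.Agent.Lib.NetAlg.Pr

/-!
# Determinism (paper, section 4) (size about 120)

Induction on `N` (for all sets `A` with the property `hA`). `N = 0`: `pr ≤ 1 = μ^0` (`pr_le_one`).
Step: `A_σ = {z | Fin.cons σ z ∈ A}`; `pr P A = Σ_σ P σ * pr P (A_σ)` (`Fin.consEquiv`, `Fin.prod_univ_succ`). Each `A_σ` has the
property. `A_τ0` and `A_τ1` are disjoint, and `A_τ0 ∪ A_τ1` has the property: if `z ∈ A_τ0`, `z' ∈ A_τ1` agree on `S` then
`cons τ0 z`, `cons τ1 z'` are in `A` and agree on `S` (`hag`), so they agree at `j`, against `hne` at the sample 0. With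
`q = (1 - min (P τ0) (P τ1))^N` (`0 ≤ 1 - min`, since `P τ0 ≤ 1`): `pr A_τ0 + pr A_τ1 = pr (A_τ0 ∪ A_τ1) ≤ q`, so
`P τ0 * pr A_τ0 + P τ1 * pr A_τ1 ≤ max (P τ0) (P τ1) * q` and the other `σ` contribute at most `(1 - P τ0 - P τ1) q`.
-/

namespace Pool.Agent.Lib.NetAlg

open Finset

private theorem det_succ {Ω : Type} [Fintype Ω] (P : Ω → ℝ) {N : ℕ} (A : Set (Fin (N + 1) → Ω)) :
    pr P A = ∑ σ, P σ * pr P {z : Fin N → Ω | (Fin.cons σ z : Fin (N + 1) → Ω) ∈ A} := by
  classical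
  unfold pr
  rw [← (Fin.consEquiv (fun _ => Ω)).sum_comp, Fintype.sum_prod_type]
  refine Finset.sum_congr rfl (fun σ _ => ?_)
  rw [Finset.mul_sum]
  refine Finset.sum_congr rfl (fun z _ => ?_)
  have he : (Fin.consEquiv (fun _ : Fin (N + 1) => Ω)) (σ, z) = (Fin.cons σ z : Fin (N + 1) → Ω) := rfl
  rw [he]
  by_cases h : (Fin.cons σ z : Fin (N + 1) → Ω) ∈ A
  · rw [Set.indicator_of_mem h, Set.indicator_of_mem
      (show z ∈ {z : Fin N → Ω | (Fin.cons σ z : Fin (N + 1) → Ω) ∈ A} from h), Fin.prod_univ_succ]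
    rfl
  · rw [Set.indicator_of_notMem h, Set.indicator_of_notMem
      (show z ∉ {z : Fin N → Ω | (Fin.cons σ z : Fin (N + 1) → Ω) ∈ A} from h), mul_zero]

private theorem det_disj {Ω : Type} [Fintype Ω] (P : Ω → ℝ) {N : ℕ} (A B : Set (Fin N → Ω))
    (h : ∀ x, x ∈ A → x ∉ B) : pr P (A ∪ B) = pr P A + pr P B := by
  classical
  unfold pr
  rw [← Finset.sum_add_distrib]
  refine Finset.sum_congr rfl (fun x _ => ?_)
  by_cases hA : x ∈ A
  · have hB := h x hA
    simp [Set.indicator, hA, hB]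
  · by_cases hB : x ∈ B <;> simp [Set.indicator, hA, hB]

private theorem det_arith {p0 p1 a0 a1 q : ℝ} (h0 : 0 ≤ p0) (h1 : 0 ≤ p1) (ha0 : 0 ≤ a0)
    (ha1 : 0 ≤ a1) (hs : a0 + a1 ≤ q) :
    p0 * a0 + p1 * a1 ≤ (p0 + p1 - min p0 p1) * q := by
  rcases le_total p0 p1 with h | h
  · rw [min_eq_left h]
    nlinarith [mul_le_mul_of_nonneg_right h ha0, mul_le_mul_of_nonneg_left hs h1]
  · rw [min_eq_right h]
    nlinarith [mul_le_mul_of_nonneg_right h ha1, mul_le_mul_of_nonneg_left hs h0]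

theorem det_le {I : Type} [Fintype I] [DecidableEq I] {α : I → Type} [∀ i, Fintype (α i)]
    [∀ i, DecidableEq (α i)] (P : (∀ i, α i) → ℝ) (hP : ∀ σ, 0 ≤ P σ) (hP1 : ∑ σ, P σ = 1)
    (S : Finset I) (j : I) (τ0 τ1 : ∀ i, α i) (hag : ∀ l ∈ S, τ0 l = τ1 l) (hne : τ0 j ≠ τ1 j)
    (N : ℕ) (A : Set (Fin N → ∀ i, α i))
    (hA : ∀ a ∈ A, ∀ b ∈ A, (∀ n, ∀ l ∈ S, a n l = b n l) → ∀ n, a n j = b n j) :
    pr P A ≤ (1 - min (P τ0) (P τ1)) ^ N := by
  classical
  have hτ : τ0 ≠ τ1 := fun h => hne (by rw [h])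
  have hle1 : ∀ σ, P σ ≤ 1 := fun σ => by
    rw [← hP1]
    exact Finset.single_le_sum (fun i _ => hP i) (Finset.mem_univ σ)
  have hmin : 0 ≤ 1 - min (P τ0) (P τ1) := by
    have := min_le_left (P τ0) (P τ1)
    have := hle1 τ0
    linarith
  induction N with
  | zero =>
    rw [pow_zero]
    exact pr_le_one hP hP1 A
  | succ N ih =>
    set q : ℝ := (1 - min (P τ0) (P τ1)) ^ N with hq
    have hq0 : 0 ≤ q := pow_nonneg hmin N
    rw [det_succ, pow_succ]
    -- the sections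
    have hsec : ∀ σ, pr P {z : Fin N → ∀ i, α i | (Fin.cons σ z : Fin (N + 1) → ∀ i, α i) ∈ A} ≤ q := by
      intro σ
      refine ih _ ?_
      intro a ha b hb hab n
      have h := hA _ ha _ hb ?_ n.succ
      · simpa using h
      · intro m
        refine Fin.cases ?_ (fun m => ?_) m
        · intro l _
          rfl
        · intro l hl
          simpa using hab m l hl
    have hcross : ∀ a ∈ {z : Fin N → ∀ i, α i | (Fin.cons τ0 z : Fin (N + 1) → ∀ i, α i) ∈ A},
        ∀ b ∈ {z : Fin N → ∀ i, α i | (Fin.cons τ1 z : Fin (N + 1) → ∀ i, α i) ∈ A},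
        ¬ ∀ n, ∀ l ∈ S, a n l = b n l := by
      intro a ha b hb hab
      have h := hA _ ha _ hb ?_ 0
      · exact hne (by simpa using h)
      · intro m
        refine Fin.cases ?_ (fun m => ?_) m
        · intro l hl
          simpa using hag l hl
        · intro l hl
          simpa using hab m l hl
    have hun : pr P {z : Fin N → ∀ i, α i | (Fin.cons τ0 z : Fin (N + 1) → ∀ i, α i) ∈ A} +
        pr P {z : Fin N → ∀ i, α i | (Fin.cons τ1 z : Fin (N + 1) → ∀ i, α i) ∈ A} ≤ q := by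
      rw [← det_disj P _ _ (fun x hx hx' => hcross x hx x hx' (fun _ _ _ => rfl))]
      refine ih _ ?_
      intro a ha b hb hab n
      rcases ha with ha | ha <;> rcases hb with hb | hb
      · have h := hA _ ha _ hb ?_ n.succ
        · simpa using h
        · intro m
          refine Fin.cases ?_ (fun m => ?_) m
          · intro l _
            rfl
          · intro l hl
            simpa using hab m l hl
      · exact absurd hab (hcross a ha b hb)
      · exact absurd (fun n l hl => (hab n l hl).symm) (hcross b hb a ha)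
      · have h := hA _ ha _ hb ?_ n.succ
        · simpa using h
        · intro m
          refine Fin.cases ?_ (fun m => ?_) m
          · intro l _
            rfl
          · intro l hl
            simpa using hab m l hl
    -- summation
    have hmem1 : τ1 ∈ (univ : Finset (∀ i, α i)).erase τ0 := by
      simp [hτ.symm]
    rw [← Finset.add_sum_erase _ _ (Finset.mem_univ τ0), ← Finset.add_sum_erase _ _ hmem1]
    have hP1' : P τ0 + (P τ1 + ∑ σ ∈ (univ.erase τ0).erase τ1, P σ) = 1 := by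
      rw [Finset.add_sum_erase _ _ hmem1, Finset.add_sum_erase _ _ (Finset.mem_univ τ0), hP1]
    have hrest : ∑ σ ∈ (univ.erase τ0).erase τ1,
        P σ * pr P {z : Fin N → ∀ i, α i | (Fin.cons σ z : Fin (N + 1) → ∀ i, α i) ∈ A} ≤
        (∑ σ ∈ (univ.erase τ0).erase τ1, P σ) * q := by
      rw [Finset.sum_mul]
      exact Finset.sum_le_sum (fun σ _ => mul_le_mul_of_nonneg_left (hsec σ) (hP σ))
    have harith := det_arith (hP τ0) (hP τ1)
      (pr_nonneg hP {z : Fin N → ∀ i, α i | (Fin.cons τ0 z : Fin (N + 1) → ∀ i, α i) ∈ A})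
      (pr_nonneg hP {z : Fin N → ∀ i, α i | (Fin.cons τ1 z : Fin (N + 1) → ∀ i, α i) ∈ A}) hun
    have hR : ∑ σ ∈ (univ.erase τ0).erase τ1, P σ = 1 - P τ0 - P τ1 := by linarith
    rw [hR] at hrest
    nlinarith [harith, hrest]

end Pool.Agent.Lib.NetAlg
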