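import Pool.Agent.Lib.NetAlg.Defs

/-!
# Comparable sources form a forest (paper, section 5) (size about 150)

`B i = {j | G.Below j i}` (classical decidability, a `Finset`), `key i = G.k * (B i).card + i` (injective, as `i < k`: `Nat.div`/`Nat.mod` or
`omega` after `Nat.mul` monotonicity), `T i = (B i).filter (fun j => key j ≤ key i)`, `R = {i | ∃ t, (dem t).Nonempty ∧ G.Reaches i t}`.
`Below` is reflexive and transitive; `j ∈ B i → B j ⊆ B i`. If `i` is available at `u` then `B i ⊆ avail u`. If `i` reaches `t` and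
`j ∈ B i` then `j` reaches `t` (same vertex `u`), so `j ∈ R`.
(h2) clear (`l ∈ B j`, `key l ≤ key j ≤ key i`).
(h3) if `T i ≠ {i}` let `j` be the element of `T i` different from `i` with the largest key (`Finset.exists_max_image` on `(T i).erase i`);
`key j < key i`, so `i ∉ T j`, and `T i = insert i (T j)`: if `l ∈ T i`, `l ≠ i` then `key l ≤ key j`; `l, j` reach the terminal `t` of `i`,
so `l ∈ B j` (then `l ∈ T j`) or `j ∈ B l`; in the last case, if `l ∉ B j` then `B j ⊂ B l` strictly (`l ∈ B l`), so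
`(B j).card < (B l).card` and `key j < key l` (`k * card + j < k * (card + 1) ≤ k * card' `), contradiction.
Last part: `v` reaches the terminal `t`. The sources reaching `v` reach `t` (`Relation.ReflTransGen.trans`). If there is one, let `i` be the
one with the largest key; `i ∈ R`. `j ∈ T i`: `j` reaches `v`. Conversely if `j` reaches `v`: `key j ≤ key i` and, as above by
comparability, `j ∈ B i` (otherwise `i ∈ B j`, `B i ⊂ B j`, `key i < key j`).
-/

namespace Pool.Agent.Lib.NetAlg

open Finset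

theorem forest (G : Net) (hG : G.ComparableSources) :
    ∃ (R : Finset (Fin G.k)) (T : Fin G.k → Finset (Fin G.k)) (key : Fin G.k → ℕ),
      Function.Injective key ∧ (∀ i ∈ R, i ∈ T i) ∧
      (∀ i ∈ R, ∀ j ∈ T i, j ∈ R ∧ T j ⊆ T i ∧ key j ≤ key i) ∧
      (∀ i ∈ R, T i = {i} ∨ ∃ j ∈ R, i ∉ T j ∧ T i = insert i (T j)) ∧
      (∀ i u, i ∈ G.avail u → T i ⊆ G.avail u) ∧
      ∀ v t, (G.dem t).Nonempty → G.Reach v t →
        (∀ i, ¬ G.Reaches i v) ∨ ∃ i ∈ R, ∀ j, j ∈ T i ↔ G.Reaches j v := by
  classical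
  obtain ⟨B, hB⟩ : ∃ B : Fin G.k → Finset (Fin G.k), ∀ i j, j ∈ B i ↔ G.Below j i :=
    ⟨fun i => univ.filter (fun j => G.Below j i), fun i j => by simp⟩
  obtain ⟨key, hkey⟩ : ∃ key : Fin G.k → ℕ, ∀ i, key i = G.k * (B i).card + (i : ℕ) :=
    ⟨fun i => G.k * (B i).card + (i : ℕ), fun i => rfl⟩
  obtain ⟨T, hT⟩ : ∃ T : Fin G.k → Finset (Fin G.k), ∀ i j, j ∈ T i ↔ G.Below j i ∧ key j ≤ key i :=
    ⟨fun i => (B i).filter (fun j => key j ≤ key i), fun i j => by
      rw [Finset.mem_filter, hB]⟩
  obtain ⟨R, hR⟩ : ∃ R : Finset (Fin G.k), ∀ i, i ∈ R ↔ ∃ t, (G.dem t).Nonempty ∧ G.Reaches i t :=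
    ⟨univ.filter (fun i => ∃ t, (G.dem t).Nonempty ∧ G.Reaches i t), fun i => by simp⟩
  have below_trans : ∀ a b c, G.Below a b → G.Below b c → G.Below a c :=
    fun a b c h1 h2 u hu => h1 u (h2 u hu)
  have reaches_below : ∀ i j v, G.Below j i → G.Reaches i v → G.Reaches j v := by
    rintro i j v h ⟨u, hu, hi⟩
    exact ⟨u, hu, h u hi⟩
  have reaches_trans : ∀ i v t, G.Reaches i v → G.Reach v t → G.Reaches i t := by
    rintro i v t ⟨u, hu, hi⟩ h
    exact ⟨u, Relation.ReflTransGen.trans hu h, hi⟩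
  have hinj : Function.Injective key := by
    intro i j h
    rw [hkey, hkey] at h
    have h1 : (G.k * (B i).card + (i : ℕ)) % G.k = (G.k * (B j).card + (j : ℕ)) % G.k := by rw [h]
    rw [Nat.mul_add_mod, Nat.mul_add_mod, Nat.mod_eq_of_lt i.isLt, Nat.mod_eq_of_lt j.isLt] at h1
    exact Fin.ext h1
  have hlt : ∀ a b, (B a).card < (B b).card → key a < key b := by
    intro a b h
    rw [hkey, hkey]
    have h1 : G.k * ((B a).card + 1) ≤ G.k * (B b).card := Nat.mul_le_mul_left _ h
    have h2 := a.isLt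
    rw [mul_add, mul_one] at h1
    omega
  have cmp : ∀ t, (G.dem t).Nonempty → ∀ l j, G.Reaches l t → G.Reaches j t → key l ≤ key j →
      G.Below l j := by
    intro t ht l j hl hj hk
    rcases hG t ht l j hl hj with h | h
    · exact h
    · by_contra hn
      have hsub : B j ⊂ B l := by
        rw [Finset.ssubset_iff_of_subset (fun a ha => (hB l a).2
          (below_trans _ _ _ ((hB j a).1 ha) h))]
        exact ⟨l, (hB l l).2 (fun _ hu => hu), fun h' => hn ((hB j l).1 h')⟩
      have := hlt j l (Finset.card_lt_card hsub)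
      omega
  have h2 : ∀ i ∈ R, ∀ j ∈ T i, j ∈ R ∧ T j ⊆ T i ∧ key j ≤ key i := by
    intro i hi j hj
    obtain ⟨t, ht, hit⟩ := (hR i).1 hi
    obtain ⟨hj1, hj2⟩ := (hT i j).1 hj
    refine ⟨(hR j).2 ⟨t, ht, reaches_below i j t hj1 hit⟩, ?_, hj2⟩
    intro l hl
    obtain ⟨hl1, hl2⟩ := (hT j l).1 hl
    exact (hT i l).2 ⟨below_trans _ _ _ hl1 hj1, hl2.trans hj2⟩
  have h1 : ∀ i ∈ R, i ∈ T i := fun i _ => (hT i i).2 ⟨fun _ hu => hu, le_rfl⟩
  refine ⟨R, T, key, hinj, h1, h2, ?_, ?_, ?_⟩
  · intro i hi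
    by_cases hne : ((T i).erase i).Nonempty
    · right
      obtain ⟨j, hj, hmax⟩ := Finset.exists_max_image ((T i).erase i) key hne
      rw [Finset.mem_erase] at hj
      obtain ⟨hji, hjT⟩ := hj
      obtain ⟨hjR, hjsub, hjk⟩ := h2 i hi j hjT
      obtain ⟨t, ht, hit⟩ := (hR i).1 hi
      refine ⟨j, hjR, ?_, ?_⟩
      · intro h
        have := ((hT j i).1 h).2
        exact hji (hinj (le_antisymm hjk this))
      · ext l
        rw [Finset.mem_insert]
        constructor
        · intro hl
          by_cases hli : l = i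
          · exact Or.inl hli
          · right
            have hk := hmax l (Finset.mem_erase.2 ⟨hli, hl⟩)
            exact (hT j l).2 ⟨cmp t ht l j (reaches_below i l t ((hT i l).1 hl).1 hit)
              (reaches_below i j t ((hT i j).1 hjT).1 hit) hk, hk⟩
        · rintro (h | h)
          · rw [h]; exact h1 i hi
          · exact hjsub h
    · left
      rw [Finset.not_nonempty_iff_eq_empty] at hne
      ext l
      rw [Finset.mem_singleton]
      constructor
      · intro hl
        by_contra hli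
        have : l ∈ (T i).erase i := Finset.mem_erase.2 ⟨hli, hl⟩
        rw [hne] at this
        exact absurd this (Finset.notMem_empty l)
      · intro h
        rw [h]; exact h1 i hi
  · intro i u hiu l hl
    exact ((hT i l).1 hl).1 u hiu
  · intro v t ht hvt
    by_cases hne : (univ.filter (fun i => G.Reaches i v)).Nonempty
    · right
      obtain ⟨i, hi, hmax⟩ := Finset.exists_max_image _ key hne
      rw [Finset.mem_filter] at hi
      have hit := reaches_trans i v t hi.2 hvt
      refine ⟨i, (hR i).2 ⟨t, ht, hit⟩, fun j => ?_⟩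
      constructor
      · intro hj
        exact reaches_below i j v ((hT i j).1 hj).1 hi.2
      · intro hj
        have hk := hmax j (Finset.mem_filter.2 ⟨Finset.mem_univ _, hj⟩)
        exact (hT i j).2 ⟨cmp t ht j i (reaches_trans j v t hj hvt) hit hk, hk⟩
    · left
      intro i hi
      exact hne ⟨i, Finset.mem_filter.2 ⟨Finset.mem_univ _, hi⟩⟩

end Pool.Agent.Lib.NetAlg
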