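import Mathlib

/-!
# Real estimates (size about 120)

`num_rate`: `2^(N c + δ N + 1) + 1 ≤ 2^(N c + δ N + 2)` (`N c + δ N ≥ 0`), `(2^(ε/(2(q+1)) N))^q ≤ 2^(ε N / 2)` and
`N c + δ N + 2 + ε N / 2 ≤ N (c + ε)` as soon as `δ N + 2 ≤ ε N / 2` (`δ N / N → 0`).
`num_prob`: `p ≤ a 2^((δ N + 1) M)` gives `a ≥ exp(-κ N / 2) 2^(-(δ N + 1) M) ≥ exp(-κ N)` as soon as `(δ N + 1) M log 2 ≤ κ N / 2`.
`num_exp`: with `Λ = η / (2^k (k+1))`: `-(Λ/2^k η) + k Λ²/2 = η²/4^k (-1/(k+1) + k/(2 (k+1)²)) ≤ - η² / (2 * 4^k (k+1)) = -2κ`,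
`κ = η² / (4^(k+1) (k+1))`. `num_small`: `exp(-κ N) → 0`.
-/

namespace Pool.Agent.Lib.NetAlg

open Filter Topology

private theorem num_ev (δ : ℕ → ℝ) (hδ : Tendsto (fun N : ℕ => δ N / N) atTop (𝓝 0)) (θ : ℝ) (hθ : 0 < θ) (B : ℝ) :
    ∃ N₀ : ℕ, ∀ N ≥ N₀, (1 : ℝ) ≤ N ∧ B ≤ N ∧ δ N ≤ θ * N := by
  have h1 : ∀ᶠ N : ℕ in atTop, δ N / N < θ := hδ.eventually_lt_const hθ
  obtain ⟨N1, hN1⟩ := eventually_atTop.1 h1
  refine ⟨max N1 (max 1 ⌈B⌉₊), fun N hN => ?_⟩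
  have a1 : N1 ≤ N := (le_max_left _ _).trans hN
  have a2 : 1 ≤ N := ((le_max_left _ _).trans (le_max_right _ _)).trans hN
  have a3 : ⌈B⌉₊ ≤ N := ((le_max_right _ _).trans (le_max_right _ _)).trans hN
  have b2 : (1 : ℝ) ≤ N := by exact_mod_cast a2
  refine ⟨b2, (Nat.le_ceil B).trans (by exact_mod_cast a3), ?_⟩
  have h2 := hN1 N a1
  rw [div_lt_iff₀ (by linarith)] at h2
  exact h2.le

theorem num_rate (q : ℕ) (ε : ℝ) (hε : 0 < ε) (δ : ℕ → ℝ) (hδ0 : ∀ N, 0 ≤ δ N)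
    (hδ : Tendsto (fun N : ℕ => δ N / N) atTop (𝓝 0)) :
    ∃ N₀ : ℕ, ∀ N ≥ N₀, ∀ c : ℝ, 0 ≤ c →
      ((2 : ℝ) ^ ((N : ℝ) * c + δ N + 1) + 1) * ((2 : ℝ) ^ (ε / (2 * ((q : ℝ) + 1)) * (N : ℝ))) ^ q ≤
        (2 : ℝ) ^ ((N : ℝ) * (c + ε)) := by
  obtain ⟨N₀, h⟩ := num_ev δ hδ (ε / 4) (by linarith) (8 / ε)
  refine ⟨N₀, fun N hN c hc => ?_⟩
  obtain ⟨h1, h2, h3⟩ := h N hN
  have hδN := hδ0 N
  have hN0 : (0 : ℝ) ≤ N := by linarith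
  have h4 : 8 ≤ N * ε := by
    rw [div_le_iff₀ hε] at h2
    exact h2
  have hNc : 0 ≤ (N : ℝ) * c := mul_nonneg hN0 hc
  have h5 : (2 : ℝ) ^ ((N : ℝ) * c + δ N + 1) + 1 ≤ (2 : ℝ) ^ ((N : ℝ) * c + δ N + 2) := by
    have h6 : (2 : ℝ) ^ ((N : ℝ) * c + δ N + 2) = 2 * (2 : ℝ) ^ ((N : ℝ) * c + δ N + 1) := by
      rw [show (N : ℝ) * c + δ N + 2 = ((N : ℝ) * c + δ N + 1) + 1 by ring, Real.rpow_add (by norm_num), Real.rpow_one]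
      ring
    have h7 : (1 : ℝ) ≤ (2 : ℝ) ^ ((N : ℝ) * c + δ N + 1) := Real.one_le_rpow (by norm_num) (by linarith)
    linarith
  have h8 : ((2 : ℝ) ^ (ε / (2 * ((q : ℝ) + 1)) * (N : ℝ))) ^ q ≤ (2 : ℝ) ^ (ε / 2 * N) := by
    rw [← Real.rpow_natCast, ← Real.rpow_mul (by norm_num)]
    refine Real.rpow_le_rpow_of_exponent_le (by norm_num) ?_
    have hq : (0 : ℝ) ≤ q := Nat.cast_nonneg q
    have h9 : ε / (2 * ((q : ℝ) + 1)) * (N : ℝ) * q = ε / 2 * N * (q / (q + 1)) := by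
      field_simp
    rw [h9]
    have h10 : (q : ℝ) / (q + 1) ≤ 1 := by
      rw [div_le_one (by linarith)]
      linarith
    exact mul_le_of_le_one_right (by positivity) h10
  calc ((2 : ℝ) ^ ((N : ℝ) * c + δ N + 1) + 1) * ((2 : ℝ) ^ (ε / (2 * ((q : ℝ) + 1)) * (N : ℝ))) ^ q
      ≤ (2 : ℝ) ^ ((N : ℝ) * c + δ N + 2) * (2 : ℝ) ^ (ε / 2 * N) :=
        mul_le_mul h5 h8 (by positivity) (by positivity)
    _ = (2 : ℝ) ^ (((N : ℝ) * c + δ N + 2) + ε / 2 * N) := (Real.rpow_add (by norm_num) _ _).symm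
    _ ≤ (2 : ℝ) ^ ((N : ℝ) * (c + ε)) := by
        refine Real.rpow_le_rpow_of_exponent_le (by norm_num) ?_
        nlinarith

theorem num_prob (M κ : ℝ) (hM : 0 ≤ M) (hκ : 0 < κ) (δ : ℕ → ℝ)
    (hδ : Tendsto (fun N : ℕ => δ N / N) atTop (𝓝 0)) :
    ∃ N₀ : ℕ, ∀ N ≥ N₀, ∀ p a : ℝ, Real.exp (-(κ / 2) * N) ≤ p →
      p ≤ a * (2 : ℝ) ^ ((δ N + 1) * M) → Real.exp (-κ * N) ≤ a := by
  obtain ⟨T, hT⟩ : ∃ T, T = M * Real.log 2 := ⟨_, rfl⟩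
  have hT0 : 0 ≤ T := by
    rw [hT]
    exact mul_nonneg hM (Real.log_nonneg (by norm_num))
  obtain ⟨N₀, h⟩ := num_ev δ hδ (κ / (4 * (T + 1))) (by positivity) (4 * T / κ)
  refine ⟨N₀, fun N hN p a hp ha => ?_⟩
  obtain ⟨h1, h2, h3⟩ := h N hN
  have hN0 : (0 : ℝ) ≤ N := by linarith
  have h4 : 4 * T ≤ N * κ := by
    rw [div_le_iff₀ hκ] at h2
    exact h2
  have h5 : δ N * T ≤ κ / 4 * N := by
    have h6 : δ N * T ≤ κ / (4 * (T + 1)) * N * T := mul_le_mul_of_nonneg_right h3 hT0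
    have h7 : κ / (4 * (T + 1)) * N * T = κ / 4 * N * (T / (T + 1)) := by
      field_simp
    have h8 : T / (T + 1) ≤ 1 := by
      rw [div_le_one (by linarith)]
      linarith
    have h9 : κ / 4 * N * (T / (T + 1)) ≤ κ / 4 * N := mul_le_of_le_one_right (by positivity) h8
    linarith
  have h10 : (2 : ℝ) ^ ((δ N + 1) * M) = Real.exp ((δ N + 1) * T) := by
    rw [Real.rpow_def_of_pos (by norm_num), hT]
    congr 1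
    ring
  have h11 : (2 : ℝ) ^ ((δ N + 1) * M) ≤ Real.exp (κ / 2 * N) := by
    rw [h10]
    refine Real.exp_le_exp.2 ?_
    nlinarith
  have h12 : Real.exp (-(κ / 2) * N) ≤ a * Real.exp (κ / 2 * N) := by
    rcases le_or_gt 0 a with h0 | h0
    · exact (hp.trans ha).trans (mul_le_mul_of_nonneg_left h11 h0)
    · exfalso
      have h13 : (0 : ℝ) < Real.exp (-(κ / 2) * N) := Real.exp_pos _
      have h14 : a * (2 : ℝ) ^ ((δ N + 1) * M) ≤ 0 :=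
        mul_nonpos_of_nonpos_of_nonneg h0.le (by positivity)
      linarith
  have h15 : Real.exp (-κ * N) * Real.exp (κ / 2 * N) = Real.exp (-(κ / 2) * N) := by
    rw [← Real.exp_add]
    congr 1
    ring
  rw [← h15] at h12
  exact le_of_mul_le_mul_right h12 (Real.exp_pos _)

theorem num_exp (k : ℕ) (η : ℝ) (hη : 0 < η) :
    -(η / (2 ^ k * ((k : ℝ) + 1)) / 2 ^ k * η) + (k : ℝ) * (η / (2 ^ k * ((k : ℝ) + 1))) ^ 2 / 2 ≤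
      -(2 * (η ^ 2 / (4 ^ (k + 1) * ((k : ℝ) + 1)))) := by
  obtain ⟨A, hA⟩ : ∃ A : ℝ, A = 2 ^ k := ⟨_, rfl⟩
  have hA0 : 0 < A := by rw [hA]; positivity
  have h4 : (4 : ℝ) ^ (k + 1) = 4 * A ^ 2 := by
    rw [hA, pow_succ, ← pow_mul, mul_comm k 2, pow_mul]
    norm_num
    ring
  rw [← hA, h4]
  have hk : (0 : ℝ) ≤ k := Nat.cast_nonneg k
  obtain ⟨K, hK⟩ : ∃ K : ℝ, K = (k : ℝ) + 1 := ⟨_, rfl⟩
  have hK0 : 0 < K := by rw [hK]; linarith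
  rw [← hK]
  have h1 : -(η / (A * K) / A * η) + (k : ℝ) * (η / (A * K)) ^ 2 / 2 - -(2 * (η ^ 2 / (4 * A ^ 2 * K)))
      = -(η ^ 2 * (K - k)) / (2 * A ^ 2 * K ^ 2) := by
    field_simp
    ring
  have h2 : -(η ^ 2 * (K - k)) / (2 * A ^ 2 * K ^ 2) ≤ 0 := by
    refine div_nonpos_of_nonpos_of_nonneg ?_ (by positivity)
    have : 0 ≤ η ^ 2 * (K - k) := mul_nonneg (by positivity) (by rw [hK]; linarith)
    linarith
  linarith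

theorem num_small (κ ε : ℝ) (hκ : 0 < κ) (hε : 0 < ε) :
    ∃ N₀ : ℕ, ∀ N : ℕ, N ≥ N₀ → Real.exp (-κ * N) ≤ ε := by
  refine ⟨⌈-Real.log ε / κ⌉₊, fun N hN => ?_⟩
  have h1 : -Real.log ε / κ ≤ N := (Nat.le_ceil _).trans (by exact_mod_cast hN)
  rw [div_le_iff₀ hκ] at h1
  rw [← Real.le_log_iff_exp_le hε]
  linarith

end Pool.Agent.Lib.NetAlg
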