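import Pool.Agent.Lib.NetAlg.Pr
import Pool.Agent.Lib.NetAlg.Cnt

/-!
# Fixing the advice (paper, section 3) (size about 150)

Let `Solv = {x | AlgSolvable ..} ∩ {x | ∀ n, 0 < P (x n)}` (`pr_inter_supp`: same probability). For `x ∈ Solv` choose the messages
`m e x` and programs `p e x` (second condition) and `p' v i x` (third condition, `i ∈ dem v`; the empty program otherwise), all of length
`≤ δ`; for `x ∉ Solv` put everything empty. The tuple of the programs is an element of
`(Fin nE → Z) × (Fin nV × Fin k → Z)`, `Z` the finset of `strings_count δ`, so there are at most `(2^(δ+1))^(nE + nV k)` tuples;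
`pr P Solv ≤ Σ_tuples pr P {x ∈ Solv | tuple of x = t}` (`pr_biUnion_le`), so some tuple has
`pr P Solv ≤ pr P {..} * (number of tuples)`: this is `A` (`Finset.exists_le_of_sum_le` or by contradiction; the set of tuples
is nonempty since the empty string has length `0 ≤ δ`).
(3) `m e x ∈` image of the strings of length `≤ a e + δ` under `p ↦ U p []` (`Option.getD _ []`), `strings_count (a e + δ)`.
(4) if `SameData` holds then `G.data enc x (m · x) v = G.data enc y (m · y) v` (`List.map_congr_left`, members of the filtered lists), so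
`U (p e) data` is `some (m e x)` and `some (m e y)`. (5) the same, and `henc`.
-/

namespace Pool.Agent.Lib.NetAlg

open Finset

private theorem data_eq (G : Net) {N : ℕ} (enc : ∀ i : Fin G.k, (Fin N → Fin (G.sz i)) → List Bool)
    (m : Fin G.nE → G.Blk N → List Bool) (v : Fin G.nV) (x y : G.Blk N)
    (h : G.SameData m v x y) :
    G.data enc x (fun e => m e x) v = G.data enc y (fun e => m e y) v := by
  unfold Net.data
  congr 1
  · apply List.map_congr_left
    intro i hi
    have hi' : i ∈ G.avail v := by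
      have := (List.mem_filter.1 hi).2
      simpa using this
    congr 1
    funext n
    exact h.1 i hi' n
  · apply List.map_congr_left
    intro e he
    have he' : G.head e = v := by
      have := (List.mem_filter.1 he).2
      simpa using this
    exact h.2 e he'

theorem pig (G : Net) (P : G.Sym → ℝ) (hP : ∀ σ, 0 ≤ P σ) (N : ℕ)
    (U : List Bool → List (List Bool) → Option (List Bool))
    (enc : ∀ i : Fin G.k, (Fin N → Fin (G.sz i)) → List Bool)
    (henc : ∀ i, Function.Injective (enc i)) (a : Fin G.nE → ℝ) (ha : ∀ e, 0 ≤ a e) (δ : ℝ)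
    (hδ : 0 ≤ δ) :
    ∃ (A : Set (G.Blk N)) (m : Fin G.nE → G.Blk N → List Bool),
      (∀ x ∈ A, ∀ n, 0 < P (x n)) ∧
      pr P {x : G.Blk N | G.AlgSolvable U enc a δ x} ≤
        pr P A * 2 ^ ((δ + 1) * ((G.nE + G.nV * G.k : ℕ) : ℝ)) ∧
      (∀ e, ∃ Z : Finset (List Bool), (Z.card : ℝ) ≤ 2 ^ (a e + δ + 1) ∧ ∀ x ∈ A, m e x ∈ Z) ∧
      (∀ e, ∀ x ∈ A, ∀ y ∈ A, G.SameData m (G.tail e) x y → m e x = m e y) ∧
      ∀ v, ∀ i ∈ G.dem v, ∀ x ∈ A, ∀ y ∈ A, G.SameData m v x y → ∀ n, x n i = y n i := by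
  classical
  obtain ⟨Z, hZc, hZ⟩ := strings_count δ hδ
  have hnil : ([] : List Bool) ∈ Z := hZ [] (by simpa using hδ)
  have hx : ∀ x : G.Blk N, ∃ (m : Fin G.nE → List Bool)
      (p : (Fin G.nE ⊕ (Fin G.nV × Fin G.k)) → List Bool), (∀ s, p s ∈ Z) ∧
      (G.AlgSolvable U enc a δ x → (∀ e, CLe U (m e) [] (a e + δ)) ∧
        (∀ e, U (p (Sum.inl e)) (G.data enc x m (G.tail e)) = some (m e)) ∧
        ∀ v, ∀ i ∈ G.dem v, U (p (Sum.inr (v, i))) (G.data enc x m v) =
          some (enc i (fun n => x n i))) := by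
    intro x
    by_cases hs : G.AlgSolvable U enc a δ x
    · obtain ⟨m, h1, h2, h3⟩ := hs
      choose p hp1 hp2 using h2
      choose q hq1 hq2 using h3
      refine ⟨m, fun s => Sum.elim p (fun vi => if h : vi.2 ∈ G.dem vi.1 then q vi.1 vi.2 h else [])
        s, ?_, fun _ => ⟨h1, fun e => by simpa using hp2 e, ?_⟩⟩
      · rintro (e | ⟨v, i⟩)
        · exact hZ _ (hp1 e)
        · simp only [Sum.elim_inr]
          split_ifs with h
          · exact hZ _ (hq1 v i h)
          · exact hnil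
      · intro v i hi
        simp only [Sum.elim_inr]
        rw [dif_pos hi]
        exact hq2 v i hi
    · exact ⟨fun _ => [], fun _ => [], fun _ => hnil, fun h => absurd h hs⟩
  choose m p hpZ hs using hx
  set Solv : Set (G.Blk N) := {x : G.Blk N | G.AlgSolvable U enc a δ x} ∩
    {x | ∀ n, 0 < P (x n)} with hSolv
  have hprS : pr P Solv = pr P {x : G.Blk N | G.AlgSolvable U enc a δ x} := pr_inter_supp hP _
  set T : Finset ((Fin G.nE ⊕ (Fin G.nV × Fin G.k)) → List Bool) :=
    Fintype.piFinset (fun _ => Z) with hT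
  have hTne : T.Nonempty := ⟨fun _ => [], by simp [hT, hnil]⟩
  have hTc : (T.card : ℝ) = (Z.card : ℝ) ^ (G.nE + G.nV * G.k) := by
    rw [hT, Fintype.card_piFinset]
    simp
  have hcov : pr P Solv ≤ ∑ t ∈ T, pr P {x | x ∈ Solv ∧ p x = t} := by
    refine le_trans (pr_mono hP ?_) (pr_biUnion_le hP T (fun t => {x | x ∈ Solv ∧ p x = t}))
    intro x hx
    refine ⟨p x, ?_, hx, rfl⟩
    rw [hT, Fintype.mem_piFinset]
    exact hpZ x
  have hTpos : (0 : ℝ) < T.card := by exact_mod_cast hTne.card_pos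
  obtain ⟨t, htT, ht⟩ := Finset.exists_le_of_sum_le (s := T) (f := fun _ => pr P Solv / T.card)
    (g := fun t => pr P {x | x ∈ Solv ∧ p x = t}) hTne (by
      rw [Finset.sum_const, nsmul_eq_mul, mul_div_cancel₀ _ hTpos.ne']
      exact hcov)
  have hA0 : 0 ≤ pr P {x | x ∈ Solv ∧ p x = t} := pr_nonneg hP _
  refine ⟨{x | x ∈ Solv ∧ p x = t}, fun e x => m x e, fun x hx => hx.1.2, ?_, ?_, ?_, ?_⟩
  · rw [← hprS]
    rw [div_le_iff₀ hTpos] at ht
    refine le_trans ht (mul_le_mul_of_nonneg_left ?_ hA0)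
    rw [hTc, Real.rpow_mul (by norm_num), Real.rpow_natCast]
    exact pow_le_pow_left₀ (by positivity) hZc _
  · intro e
    obtain ⟨Z', hZ'c, hZ'⟩ := strings_count (a e + δ) (add_nonneg (ha e) hδ)
    refine ⟨Z'.image (fun p => (U p []).getD []), le_trans ?_ hZ'c, ?_⟩
    · exact_mod_cast Finset.card_image_le
    · intro x hx
      obtain ⟨q, hq1, hq2⟩ := (hs x hx.1.1).1 e
      rw [Finset.mem_image]
      refine ⟨q, hZ' q hq1, ?_⟩
      rw [hq2]
      rfl
  · intro e x hx y hy hxy
    have h1 := (hs x hx.1.1).2.1 e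
    have h2 := (hs y hy.1.1).2.1 e
    rw [hx.2] at h1
    rw [hy.2] at h2
    have h3 := data_eq G enc (fun e x => m x e) (G.tail e) x y hxy
    rw [h3] at h1
    have h4 := h1.symm.trans h2
    exact Option.some.inj h4
  · intro v i hi x hx y hy hxy n
    have h1 := (hs x hx.1.1).2.2 v i hi
    have h2 := (hs y hy.1.1).2.2 v i hi
    rw [hx.2] at h1
    rw [hy.2] at h2
    have h3 := data_eq G enc (fun e x => m x e) v x y hxy
    rw [h3] at h1
    have h4 := Option.some.inj (h1.symm.trans h2)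
    exact congrFun (henc i h4) n

end Pool.Agent.Lib.NetAlg
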