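import Pool.Agent.Lib.NetAlg.Sel
import Pool.Agent.Lib.NetAlg.Det
import Pool.Agent.Lib.NetAlg.Cnt
import Pool.Agent.Lib.NetAlg.Pig
import Pool.Agent.Lib.NetAlg.Forest
import Pool.Agent.Lib.NetAlg.Build
import Pool.Agent.Lib.NetAlg.Num

/-!
# Theorem 1 (assembly)
-/

namespace Pool.Agent.Lib.NetAlg

open Finset Filter Topology

/-- the smallest positive probability -/
theorem exists_pmin {Ω : Type} [Fintype Ω] (P : Ω → ℝ) (hP : ∀ σ, 0 ≤ P σ)
    (hP1 : ∑ σ, P σ = 1) : ∃ p : ℝ, 0 < p ∧ ∀ σ, 0 < P σ → p ≤ P σ := by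
  classical
  have hne : ((univ : Finset Ω).filter (fun σ => 0 < P σ)).Nonempty := by
    by_contra h
    rw [Finset.not_nonempty_iff_eq_empty] at h
    have h1 : ∑ σ, P σ = 0 := by
      refine Finset.sum_eq_zero (fun σ _ => ?_)
      by_contra h2
      have h3 : σ ∈ (univ : Finset Ω).filter (fun σ => 0 < P σ) := by
        rw [Finset.mem_filter]
        exact ⟨Finset.mem_univ σ, lt_of_le_of_ne (hP σ) (Ne.symm h2)⟩
      rw [h] at h3
      exact absurd h3 (Finset.notMem_empty σ)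
    rw [h1] at hP1
    exact absurd hP1 (by norm_num)
  obtain ⟨σ, hσ, hmin⟩ := Finset.exists_min_image _ P hne
  rw [Finset.mem_filter] at hσ
  refine ⟨P σ, hσ.2, fun τ hτ => hmin τ ?_⟩
  rw [Finset.mem_filter]
  exact ⟨Finset.mem_univ τ, hτ⟩

/-- determinism for large blocks -/
theorem determ (G : Net) (P : G.Sym → ℝ) (hP : ∀ σ, 0 ≤ P σ) (hP1 : ∑ σ, P σ = 1) {p : ℝ}
    (hpm : ∀ σ, 0 < P σ → p ≤ P σ) {N : ℕ} (hN : 1 ≤ N) (A : Set (G.Blk N)) {κ : ℝ}
    (hκ : κ < p) (hA : Real.exp (-κ * N) ≤ pr P A) (S : Finset (Fin G.k)) (j : Fin G.k)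
    (hAj : ∀ a ∈ A, ∀ b ∈ A, (∀ n, ∀ l ∈ S, a n l = b n l) → ∀ n, a n j = b n j)
    (σ τ : G.Sym) (hσ : 0 < P σ) (hτ : 0 < P τ) (hag : ∀ l ∈ S, σ l = τ l) : σ j = τ j := by
  by_contra hne
  have h1 := det_le P hP hP1 S j σ τ hag hne N A hAj
  have h2 : p ≤ min (P σ) (P τ) := le_min (hpm σ hσ) (hpm τ hτ)
  have h3 : P σ ≤ 1 := by
    rw [← hP1]
    exact Finset.single_le_sum (fun ρ _ => hP ρ) (Finset.mem_univ σ)
  have h4 : (0 : ℝ) ≤ 1 - min (P σ) (P τ) := by
    have := min_le_left (P σ) (P τ)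
    linarith
  have h5 : 1 - min (P σ) (P τ) ≤ Real.exp (-p) := by
    have := Real.add_one_le_exp (-p)
    linarith
  have h6 : (1 - min (P σ) (P τ)) ^ N ≤ Real.exp (-p) ^ N := pow_le_pow_left₀ h4 h5 N
  rw [← Real.exp_nat_mul] at h6
  have h7 : Real.exp (-κ * N) ≤ Real.exp ((N : ℝ) * -p) := hA.trans (h1.trans h6)
  rw [Real.exp_le_exp] at h7
  have h8 : (1 : ℝ) ≤ N := by exact_mod_cast hN
  nlinarith

/-- on `A` the messages into `v` and the sources available at `v` depend only on the sources reaching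
`v` -/
theorem same_of_reach (G : Net) (hac : G.Acyclic) {N : ℕ} (A : Set (G.Blk N))
    (m : Fin G.nE → G.Blk N → List Bool)
    (hm : ∀ e, ∀ x ∈ A, ∀ y ∈ A, G.SameData m (G.tail e) x y → m e x = m e y)
    (v : Fin G.nV) (x y : G.Blk N) (hx : x ∈ A) (hy : y ∈ A)
    (h : ∀ i, G.Reaches i v → ∀ n, x n i = y n i) : G.SameData m v x y := by
  obtain ⟨rank, hrank⟩ := hac
  induction hr : rank v using Nat.strong_induction_on generalizing v with
  | _ r ih =>
    refine ⟨fun i hi n => h i ⟨v, Relation.ReflTransGen.refl, hi⟩ n, fun e he => ?_⟩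
    refine hm e x hx y hy ?_
    refine ih (rank (G.tail e)) (by rw [← hr, ← he]; exact hrank e) (G.tail e) ?_ rfl
    rintro i ⟨u, hu, hiu⟩ n
    exact h i ⟨u, hu.tail ⟨e, rfl, he⟩, hiu⟩ n

theorem comparable (G : Net) (hac : G.Acyclic) (hcs : G.ComparableSources) (P : G.Sym → ℝ)
    (hP : ∀ σ, 0 ≤ P σ) (hP1 : ∑ σ, P σ = 1) (c : Fin G.nE → ℝ) (hc : ∀ e, 0 ≤ c e)
    (U : List Bool → List (List Bool) → Option (List Bool))
    (enc : ∀ (N : ℕ) (i : Fin G.k), (Fin N → Fin (G.sz i)) → List Bool)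
    (henc : ∀ N i, Function.Injective (enc N i)) (δ : ℕ → ℝ) (hδ0 : ∀ N, 0 ≤ δ N)
    (hδ : Tendsto (fun N : ℕ => δ N / N) atTop (𝓝 0))
    (hpr : ∀ ρ : ℝ, 0 < ρ → ∃ N₀ : ℕ, ∀ N ≥ N₀, Real.exp (-ρ * N) ≤
      pr P {x : G.Blk N | G.AlgSolvable U (enc N) (fun e => (N : ℝ) * c e) (δ N) x}) :
    G.Achievable P c := by
  classical
  intro ε hε
  obtain ⟨η, hη, hcnt⟩ := sparse_count G.Sym (ε / (2 * ((G.k : ℝ) + 1))) (by positivity)
  obtain ⟨p, hp, hpm⟩ := exists_pmin P hP hP1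
  have hκ1 : 0 < η ^ 2 / (4 ^ (G.k + 1) * ((G.k : ℝ) + 1)) := by positivity
  obtain ⟨κ, hκ⟩ : ∃ κ, κ = min (η ^ 2 / (4 ^ (G.k + 1) * ((G.k : ℝ) + 1))) (p / 2) := ⟨_, rfl⟩
  have hκ0 : 0 < κ := by
    rw [hκ]
    exact lt_min hκ1 (by linarith)
  have hκl : κ ≤ η ^ 2 / (4 ^ (G.k + 1) * ((G.k : ℝ) + 1)) := by
    rw [hκ]
    exact min_le_left _ _
  have hκp : κ < p := by
    have : κ ≤ p / 2 := by
      rw [hκ]
      exact min_le_right _ _
    linarith
  obtain ⟨N1, hN1⟩ := num_rate G.k ε hε δ hδ0 hδ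
  obtain ⟨N2, hN2⟩ := num_prob ((G.nE + G.nV * G.k : ℕ) : ℝ) κ (Nat.cast_nonneg _) hκ0 δ hδ
  obtain ⟨N3, hN3⟩ := hpr (κ / 2) (by linarith)
  obtain ⟨N4, hN4⟩ := num_small κ (ε / ((G.k : ℝ) + 1)) hκ0 (by positivity)
  refine ⟨max (max N1 N2) (max N3 (max N4 1)), fun N hN => ?_⟩
  have hNa : N1 ≤ N := le_trans (le_trans (le_max_left _ _) (le_max_left _ _)) hN
  have hNb : N2 ≤ N := le_trans (le_trans (le_max_right _ _) (le_max_left _ _)) hN
  have hNc : N3 ≤ N := le_trans (le_trans (le_max_left _ _) (le_max_right _ _)) hN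
  have hNd : N4 ≤ N := le_trans (le_trans (le_trans (le_max_left _ _) (le_max_right _ _))
    (le_max_right _ _)) hN
  have hNe : 1 ≤ N := le_trans (le_trans (le_trans (le_max_right _ _) (le_max_right _ _))
    (le_max_right _ _)) hN
  obtain ⟨A, m, hAP, hAp, hZ, hm, hd⟩ := pig G P hP N U (enc N) (henc N) (fun e => (N : ℝ) * c e)
    (fun e => mul_nonneg (Nat.cast_nonneg _) (hc e)) (δ N) (hδ0 N)
  have hpA : Real.exp (-κ * N) ≤ pr P A := hN2 N hNb _ _ (hN3 N hNc) hAp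
  have hpA0 : 0 < pr P A := lt_of_lt_of_le (Real.exp_pos _) hpA
  have hAne : A.Nonempty := by
    by_contra h
    rw [Set.not_nonempty_iff_eq_empty] at h
    rw [h] at hpA0
    unfold pr at hpA0
    simp at hpA0
  obtain ⟨R, T, key, hkey, h1, h2, h3, hTav, hanc⟩ := forest G hcs
  obtain ⟨F, hF⟩ := sel P hP hP1 A hpA0 R T key hkey h1 h2 h3
    (η / (2 ^ G.k * ((G.k : ℝ) + 1))) (by positivity)
  have hdet : ∀ t, ∀ j ∈ G.dem t, ∀ σ τ : G.Sym, 0 < P σ → 0 < P τ →
      (∀ i, G.Reaches i t → σ i = τ i) → σ j = τ j := by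
    intro t j hj σ τ hσ hτ hag
    refine determ G P hP hP1 hpm hNe A hκp hpA
      ((univ : Finset (Fin G.k)).filter (fun i => G.Reaches i t)) j ?_ σ τ hσ hτ ?_
    · intro a ha b hb hab n
      refine hd t j hj a ha b hb (same_of_reach G hac A m hm t a b ha hb ?_) n
      intro i hi n
      refine hab n i ?_
      rw [Finset.mem_filter]
      exact ⟨Finset.mem_univ i, hi⟩
    · intro l hl
      exact hag l (Finset.mem_filter.1 hl).2
  obtain ⟨msg, d, hb1, hb2, hb3, hb4, hb5⟩ := build G hac P R T h1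
    (fun i hi j hj => ⟨(h2 i hi j hj).1, (h2 i hi j hj).2.1⟩) hTav hanc A hAne hAP m hm hd hdet F
    (fun i hi => (hF i hi).1) (fun i hi => (hF i hi).2.1) η hη.le
  obtain ⟨ι, hι⟩ := Countable.exists_injective_nat
    (List Bool × (Fin G.k → Fin N → Option G.Sym))
  have hsame : ∀ v x y, G.SameData (fun e x => ι (msg e x)) v x y → G.SameData msg v x y :=
    fun v x y h => ⟨h.1, fun e he => hι (h.2 e he)⟩
  refine ⟨fun e x => ι (msg e x), d, ?_, ?_, ?_, ?_⟩
  · intro e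
    obtain ⟨Z, hZc, hZA⟩ := hZ e
    have hsub : (univ.image (fun x => ι (msg e x))) ⊆
        ((insert [] Z) ×ˢ (Fintype.piFinset (fun _ : Fin G.k =>
          (univ : Finset (Fin N → Option G.Sym)).filter
            (fun f => ((univ.filter (fun n => f n ≠ none)).card : ℝ) ≤ η * N)))).image ι := by
      intro z hz
      rw [Finset.mem_image] at hz
      obtain ⟨x, -, rfl⟩ := hz
      refine Finset.mem_image_of_mem ι ?_
      rw [Finset.mem_product]
      refine ⟨?_, ?_⟩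
      · rcases hb1 e x with h | ⟨a, ha, h⟩
        · rw [h]
          exact Finset.mem_insert_self _ _
        · rw [h]
          exact Finset.mem_insert_of_mem (hZA a ha)
      · rw [Fintype.mem_piFinset]
        intro i
        rw [Finset.mem_filter]
        exact ⟨Finset.mem_univ _, hb2 e x i⟩
    have hcard := (Finset.card_le_card hsub).trans Finset.card_image_le
    rw [Finset.card_product, Fintype.card_piFinset, Finset.prod_const, Finset.card_univ,
      Fintype.card_fin] at hcard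
    have hc1 : (((insert [] Z : Finset (List Bool)).card : ℕ) : ℝ) ≤
        (2 : ℝ) ^ ((N : ℝ) * c e + δ N + 1) + 1 := by
      have h5 : (((insert [] Z : Finset (List Bool)).card : ℕ) : ℝ) ≤ (Z.card : ℝ) + 1 := by
        exact_mod_cast Finset.card_insert_le _ _
      linarith
    have hc2 := hcnt N
    refine le_trans (b := (((insert [] Z : Finset (List Bool)).card : ℕ) : ℝ) *
      ((((univ : Finset (Fin N → Option G.Sym)).filter
            (fun f => ((univ.filter (fun n => f n ≠ none)).card : ℝ) ≤ η * N)).card : ℕ) : ℝ) ^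
              G.k) ?_ (le_trans ?_ (hN1 N hNa (c e) (hc e)))
    · exact_mod_cast hcard
    · exact mul_le_mul hc1 (pow_le_pow_left₀ (Nat.cast_nonneg _) hc2 _) (by positivity)
        (by positivity)
  · intro e x y h
    show ι (msg e x) = ι (msg e y)
    rw [hb3 e x y (hsame _ x y h)]
  · intro v x y h
    exact hb4 v x y (hsame _ x y h)
  · intro v
    rw [← pr_inter_supp hP]
    have hsub : ({x : G.Blk N | ¬ ∀ i ∈ G.dem v, ∀ n, d v x n i = x n i} ∩
        {x | ∀ n, 0 < P (x n)}) ⊆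
        {x | ∃ i ∈ R, x ∈ {x : G.Blk N | η * N < (df (T i) x (F x) : ℝ)}} := by
      rintro x ⟨hx1, hx2⟩
      by_contra h
      refine hx1 (hb5 v x hx2 (fun i hi => ?_))
      by_contra h6
      exact h ⟨i, hi, not_le.1 h6⟩
    refine le_trans (pr_mono hP hsub) (le_trans (pr_biUnion_le hP R _) ?_)
    have hterm : ∀ i ∈ R, pr P {x : G.Blk N | η * N < (df (T i) x (F x) : ℝ)} ≤
        ε / ((G.k : ℝ) + 1) := by
      intro i hi
      refine le_trans ((hF i hi).2.2 η hη) ?_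
      rw [Fintype.card_fin, div_le_iff₀ hpA0]
      have h7 := num_exp G.k η hη
      have hN0 : (0 : ℝ) ≤ N := Nat.cast_nonneg _
      have h8 : Real.exp ((N : ℝ) * (-(η / (2 ^ G.k * ((G.k : ℝ) + 1)) / 2 ^ G.k * η) +
          (G.k : ℝ) * (η / (2 ^ G.k * ((G.k : ℝ) + 1))) ^ 2 / 2)) ≤
          Real.exp (-κ * N) * Real.exp (-κ * N) := by
        rw [← Real.exp_add, Real.exp_le_exp]
        have h9 : -(η / (2 ^ G.k * ((G.k : ℝ) + 1)) / 2 ^ G.k * η) +
          (G.k : ℝ) * (η / (2 ^ G.k * ((G.k : ℝ) + 1))) ^ 2 / 2 ≤ -(2 * κ) := by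
          linarith
        nlinarith [mul_le_mul_of_nonneg_left h9 hN0]
      exact h8.trans (mul_le_mul (hN4 N hNd) hpA (Real.exp_pos _).le (by positivity))
    refine le_trans (Finset.sum_le_sum hterm) ?_
    rw [Finset.sum_const, nsmul_eq_mul]
    have hR : (R.card : ℝ) ≤ (G.k : ℝ) + 1 := by
      have h10 : R.card ≤ G.k := by
        have := Finset.card_le_univ R
        rw [Fintype.card_fin] at this
        exact this
      have h11 : (R.card : ℝ) ≤ (G.k : ℝ) := by exact_mod_cast h10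
      linarith
    calc (R.card : ℝ) * (ε / ((G.k : ℝ) + 1)) ≤ ((G.k : ℝ) + 1) * (ε / ((G.k : ℝ) + 1)) :=
          mul_le_mul_of_nonneg_right hR (by positivity)
      _ = ε := by field_simp

end Pool.Agent.Lib.NetAlg
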