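import Mathlib

/-!
# Network problems, Shannon and algorithmic solvability: definitions

(helper5, problem MP_f59b0a_lc, paper /team-store/MP_f59b0a_lc_paper.md)

* `pr P A`: probability of the set `A` of blocks of `N` independent samples of the law `P`.
* `Net`: a network problem (directed graph, sources, demands).  `Sym`, `Blk`: values, blocks.
* `SameData`: two blocks give the same data at a vertex.
* `Achievable`: Shannon setting.  `FacAchievable`: the same with a facilitator of vanishing rate.
* `CLe U y z r`: the complexity of `y` given `z` is at most `r`.  `AlgSolvable`: algorithmic setting.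
* `Acyclic`, `Reach`, `Comparable`, `ComparableSources`.
-/

namespace Pool.Agent.Lib.NetAlg

open Finset

/-- the probability of a set of blocks of `N` independent samples of the law `P` -/
noncomputable def pr {Ω : Type} [Fintype Ω] (P : Ω → ℝ) {N : ℕ} (A : Set (Fin N → Ω)) : ℝ :=
  ∑ x, A.indicator (fun x => ∏ n, P (x n)) x

/-- number of samples at which two blocks differ on the coordinates of `S` -/
def df {I : Type} {α : I → Type} [∀ i, DecidableEq (α i)] {N : ℕ} (S : Finset I)
    (x y : Fin N → ∀ i, α i) : ℕ :=
  (univ.filter (fun n => ¬ ∀ j ∈ S, x n j = y n j)).card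

/-- A network problem: a directed graph with `nV` vertices and `nE` edges, and `k` sources; `avail v`
is the set of the sources available at `v`, `dem v` the set of the sources demanded at `v` (`v` is a
terminal if `dem v` is not empty); the source `i` has `sz i` values. -/
structure Net where
  nV : ℕ
  nE : ℕ
  k : ℕ
  tail : Fin nE → Fin nV
  head : Fin nE → Fin nV
  avail : Fin nV → Finset (Fin k)
  dem : Fin nV → Finset (Fin k)
  sz : Fin k → ℕ

/-- the values of `(X_1, ..., X_k)` -/
abbrev Net.Sym (G : Net) : Type := ∀ i : Fin G.k, Fin (G.sz i)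

/-- the blocks of `N` samples -/
abbrev Net.Blk (G : Net) (N : ℕ) : Type := Fin N → G.Sym

/-- the directed graph is acyclic -/
def Net.Acyclic (G : Net) : Prop := ∃ rank : Fin G.nV → ℕ, ∀ e, rank (G.tail e) < rank (G.head e)

/-- there is a directed path (possibly of length 0) from `u` to `v` -/
def Net.Reach (G : Net) (u v : Fin G.nV) : Prop :=
  Relation.ReflTransGen (fun a b => ∃ e, G.tail e = a ∧ G.head e = b) u v

/-- `i` reaches `v`: `i` is available at a vertex from which there is a path to `v` -/
def Net.Reaches (G : Net) (i : Fin G.k) (v : Fin G.nV) : Prop :=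
  ∃ u, G.Reach u v ∧ i ∈ G.avail u

/-- `j` is available at every vertex at which `i` is available -/
def Net.Below (G : Net) (j i : Fin G.k) : Prop := ∀ u, i ∈ G.avail u → j ∈ G.avail u

/-- any two sources reaching a common terminal are comparable: one of them is available at every
vertex at which the other one is available -/
def Net.ComparableSources (G : Net) : Prop :=
  ∀ t, (G.dem t).Nonempty → ∀ i j, G.Reaches i t → G.Reaches j t → G.Below i j ∨ G.Below j i

/-- the blocks `x` and `y` give the same data at the vertex `v`: the same available source blocks and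
the same incoming messages -/
def Net.SameData (G : Net) {N : ℕ} {μ : Type} (m : Fin G.nE → G.Blk N → μ) (v : Fin G.nV)
    (x y : G.Blk N) : Prop :=
  (∀ i ∈ G.avail v, ∀ n, x n i = y n i) ∧ ∀ e, G.head e = v → m e x = m e y

/-- Shannon setting: for every `ε > 0` and all large `N` there are messages `m e` with at most
`2 ^ (N (c e + ε))` values, each a function of the data at the tail of `e`, and decoders `d v`,
functions of the data at `v`, such that every vertex recovers the demanded blocks with error
probability at most `ε` -/
def Net.Achievable (G : Net) (P : G.Sym → ℝ) (c : Fin G.nE → ℝ) : Prop :=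
  ∀ ε : ℝ, 0 < ε → ∃ N₀ : ℕ, ∀ N ≥ N₀, ∃ (m : Fin G.nE → G.Blk N → ℕ)
    (d : Fin G.nV → G.Blk N → G.Blk N),
    (∀ e, ((univ.image (m e)).card : ℝ) ≤ 2 ^ ((N : ℝ) * (c e + ε))) ∧
    (∀ e x y, G.SameData m (G.tail e) x y → m e x = m e y) ∧
    (∀ v x y, G.SameData m v x y → d v x = d v y) ∧
    ∀ v, pr P {x : G.Blk N | ¬ ∀ i ∈ G.dem v, ∀ n, d v x n i = x n i} ≤ ε

/-- Shannon setting with a facilitator: in addition there is a message `f x` of all the sources with at
most `2 ^ (N ε)` values which is seen by all vertices -/
def Net.FacAchievable (G : Net) (P : G.Sym → ℝ) (c : Fin G.nE → ℝ) : Prop :=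
  ∀ ε : ℝ, 0 < ε → ∃ N₀ : ℕ, ∀ N ≥ N₀, ∃ (f : G.Blk N → ℕ) (m : Fin G.nE → G.Blk N → ℕ)
    (d : Fin G.nV → G.Blk N → G.Blk N),
    ((univ.image f).card : ℝ) ≤ 2 ^ ((N : ℝ) * ε) ∧
    (∀ e, ((univ.image (m e)).card : ℝ) ≤ 2 ^ ((N : ℝ) * (c e + ε))) ∧
    (∀ e x y, f x = f y → G.SameData m (G.tail e) x y → m e x = m e y) ∧
    (∀ v x y, f x = f y → G.SameData m v x y → d v x = d v y) ∧
    ∀ v, pr P {x : G.Blk N | ¬ ∀ i ∈ G.dem v, ∀ n, d v x n i = x n i} ≤ ε

/-- the complexity of `y` given `z` with respect to the decompressor `U` (program, data) is at most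
`r` -/
def CLe (U : List Bool → List (List Bool) → Option (List Bool)) (y : List Bool)
    (z : List (List Bool)) (r : ℝ) : Prop :=
  ∃ p : List Bool, (p.length : ℝ) ≤ r ∧ U p z = some y

/-- the data entering the vertex `v`: the strings of the available sources and the incoming
messages -/
def Net.data (G : Net) {N : ℕ} (enc : ∀ i : Fin G.k, (Fin N → Fin (G.sz i)) → List Bool)
    (x : G.Blk N) (m : Fin G.nE → List Bool) (v : Fin G.nV) : List (List Bool) :=
  ((List.finRange G.k).filter (fun i => i ∈ G.avail v)).map (fun i => enc i (fun n => x n i)) ++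
    ((List.finRange G.nE).filter (fun e => G.head e = v)).map m

/-- Algorithmic setting: for the strings of the block `x` there are messages on the edges with
`C(m e) ≤ a e + δ`, of complexity at most `δ` given the data entering the tail of the edge, such that
each demanded string has complexity at most `δ` given the data entering the terminal -/
def Net.AlgSolvable (G : Net) {N : ℕ} (U : List Bool → List (List Bool) → Option (List Bool))
    (enc : ∀ i : Fin G.k, (Fin N → Fin (G.sz i)) → List Bool) (a : Fin G.nE → ℝ) (δ : ℝ)
    (x : G.Blk N) : Prop :=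
  ∃ m : Fin G.nE → List Bool,
    (∀ e, CLe U (m e) [] (a e + δ)) ∧
    (∀ e, CLe U (m e) (G.data enc x m (G.tail e)) δ) ∧
    ∀ v, ∀ i ∈ G.dem v, CLe U (enc i (fun n => x n i)) (G.data enc x m v) δ

end Pool.Agent.Lib.NetAlg
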