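import Pool.Agent.Lib.NetAlg.Sel
import Pool.Agent.Lib.NetAlg.Cnt
import Pool.Agent.Lib.NetAlg.Pig
import Pool.Agent.Lib.NetAlg.Num

/-!
# Theorem 2 (facilitator, all acyclic networks)
-/

namespace Pool.Agent.Lib.NetAlg

open Finset Filter Topology

private theorem df_zero {I : Type} {α : I → Type} [∀ i, DecidableEq (α i)] {N : ℕ}
    (S : Finset I) (x y : Fin N → ∀ i, α i) (h : ∀ n, ∀ j ∈ S, x n j = y n j) :
    df S x y = 0 := by
  unfold df
  rw [Finset.card_eq_zero, Finset.filter_eq_empty_iff]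
  intro n _ h1
  exact h1 (h n)

private theorem le_df {I : Type} {α : I → Type} [∀ i, DecidableEq (α i)] {N : ℕ}
    (S : Finset I) (x y : Fin N → ∀ i, α i) (s : Finset (Fin N))
    (h : ∀ n ∈ s, ¬ ∀ j ∈ S, x n j = y n j) : s.card ≤ df S x y := by
  unfold df
  refine Finset.card_le_card (fun n hn => ?_)
  rw [Finset.mem_filter]
  exact ⟨Finset.mem_univ n, h n hn⟩

/-- a map of all blocks into `A`, close to the identity -/
private theorem move (G : Net) (P : G.Sym → ℝ) (hP : ∀ σ, 0 ≤ P σ) (hP1 : ∑ σ, P σ = 1) {N : ℕ}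
    (A : Set (G.Blk N)) (hA : 0 < pr P A) (hne : A.Nonempty) (Λ : ℝ) (hΛ : 0 < Λ) :
    ∃ F : G.Blk N → G.Blk N, (∀ x, F x ∈ A) ∧ ∀ η : ℝ, 0 < η →
      pr P {x : G.Blk N | η * N < (df univ x (F x) : ℝ)} ≤
        Real.exp (N * (-(Λ / 2 ^ G.k * η) + G.k * Λ ^ 2 / 2)) / pr P A := by
  classical
  rcases Nat.eq_zero_or_pos G.k with hk | hk
  · obtain ⟨a, ha⟩ := hne
    refine ⟨fun _ => a, fun _ => ha, fun η hη => ?_⟩
    have h1 : {x : G.Blk N | η * N < (df univ x a : ℝ)} = ∅ := by
      ext x
      simp only [Set.mem_ofPred_eq, Set.mem_empty_iff_false, iff_false, not_lt]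
      have h2 : df univ x a = 0 := df_zero univ x a (fun n j _ => absurd j.isLt (by omega))
      rw [h2, Nat.cast_zero]
      positivity
    rw [h1]
    have h3 : pr P (∅ : Set (G.Blk N)) = 0 := by
      unfold pr
      simp
    rw [h3]
    positivity
  · obtain ⟨F, hF⟩ := sel P hP hP1 A hA univ (fun i => univ.filter (fun j => j ≤ i))
      (fun i => (i : ℕ)) Fin.val_injective
      (fun i _ => Finset.mem_filter.2 ⟨Finset.mem_univ i, le_refl i⟩)
      (fun i _ j hj => by
        rw [Finset.mem_filter] at hj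
        refine ⟨Finset.mem_univ j, fun l hl => ?_, hj.2⟩
        rw [Finset.mem_filter] at hl ⊢
        exact ⟨hl.1, hl.2.trans hj.2⟩)
      (fun i _ => by
        rcases Nat.eq_zero_or_pos (i : ℕ) with hi | hi
        · left
          ext j
          rw [Finset.mem_filter, Finset.mem_singleton, Fin.le_def, Fin.ext_iff]
          constructor
          · intro h
            omega
          · intro h
            exact ⟨Finset.mem_univ j, h.le⟩
        · right
          refine ⟨⟨(i : ℕ) - 1, by omega⟩, Finset.mem_univ _, ?_, ?_⟩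
          · rw [Finset.mem_filter, Fin.le_def]
            intro h
            have := h.2
            simp only at this
            omega
          · ext j
            rw [Finset.mem_filter, Finset.mem_insert, Finset.mem_filter, Fin.le_def, Fin.le_def,
              Fin.ext_iff]
            simp only [Finset.mem_univ, true_and]
            omega) Λ hΛ
    have htop : (univ.filter (fun j : Fin G.k => j ≤ ⟨G.k - 1, by omega⟩)) = univ := by
      ext j
      rw [Finset.mem_filter, Fin.le_def]
      simp only [Finset.mem_univ, true_and, iff_true]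
      omega
    have h1 := hF ⟨G.k - 1, by omega⟩ (Finset.mem_univ _)
    rw [htop, Fintype.card_fin] at h1
    refine ⟨F, fun x => ?_, h1.2.2⟩
    obtain ⟨a, ha, h2⟩ := h1.2.1 x
    have h3 : a = F x := funext (fun n => funext (fun j => h2 n j (Finset.mem_univ j)))
    rw [← h3]
    exact ha

theorem facilitator (G : Net) (P : G.Sym → ℝ)
    (hP : ∀ σ, 0 ≤ P σ) (hP1 : ∑ σ, P σ = 1) (c : Fin G.nE → ℝ) (hc : ∀ e, 0 ≤ c e)
    (U : List Bool → List (List Bool) → Option (List Bool))
    (enc : ∀ (N : ℕ) (i : Fin G.k), (Fin N → Fin (G.sz i)) → List Bool)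
    (henc : ∀ N i, Function.Injective (enc N i)) (δ : ℕ → ℝ) (hδ0 : ∀ N, 0 ≤ δ N)
    (hδ : Tendsto (fun N : ℕ => δ N / N) atTop (𝓝 0))
    (hpr : ∀ ρ : ℝ, 0 < ρ → ∃ N₀ : ℕ, ∀ N ≥ N₀, Real.exp (-ρ * N) ≤
      pr P {x : G.Blk N | G.AlgSolvable U (enc N) (fun e => (N : ℝ) * c e) (δ N) x}) :
    G.FacAchievable P c := by
  classical
  intro ε hε
  obtain ⟨η, hη, hcnt⟩ := sparse_count (G.Sym × G.Sym) (ε / (2 * (((1 : ℕ) : ℝ) + 1)))
    (by positivity)
  have hκ0 : 0 < η ^ 2 / (4 ^ (G.k + 1) * ((G.k : ℝ) + 1)) := by positivity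
  obtain ⟨κ, hκ⟩ : ∃ κ, κ = η ^ 2 / (4 ^ (G.k + 1) * ((G.k : ℝ) + 1)) := ⟨_, rfl⟩
  rw [← hκ] at hκ0
  obtain ⟨N0, hN0⟩ := num_rate 0 ε hε δ hδ0 hδ
  obtain ⟨N1, hN1⟩ := num_rate 1 ε hε δ hδ0 hδ
  obtain ⟨N2, hN2⟩ := num_prob ((G.nE + G.nV * G.k : ℕ) : ℝ) κ (Nat.cast_nonneg _) hκ0 δ hδ
  obtain ⟨N3, hN3⟩ := hpr (κ / 2) (by linarith)
  obtain ⟨N4, hN4⟩ := num_small κ ε hκ0 hε
  refine ⟨max (max N1 N2) (max N3 (max N4 N0)), fun N hN => ?_⟩
  have hNa : N1 ≤ N := le_trans (le_trans (le_max_left _ _) (le_max_left _ _)) hN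
  have hNb : N2 ≤ N := le_trans (le_trans (le_max_right _ _) (le_max_left _ _)) hN
  have hNc : N3 ≤ N := le_trans (le_trans (le_max_left _ _) (le_max_right _ _)) hN
  have hNd : N4 ≤ N := le_trans (le_trans (le_trans (le_max_left _ _) (le_max_right _ _))
    (le_max_right _ _)) hN
  have hNe : N0 ≤ N := le_trans (le_trans (le_trans (le_max_right _ _) (le_max_right _ _))
    (le_max_right _ _)) hN
  obtain ⟨A, m, hAP, hAp, hZ, hm, hd⟩ := pig G P hP N U (enc N) (henc N) (fun e => (N : ℝ) * c e)
    (fun e => mul_nonneg (Nat.cast_nonneg _) (hc e)) (δ N) (hδ0 N)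
  have hpA : Real.exp (-κ * N) ≤ pr P A := hN2 N hNb _ _ (hN3 N hNc) hAp
  have hpA0 : 0 < pr P A := lt_of_lt_of_le (Real.exp_pos _) hpA
  have hAne : A.Nonempty := by
    by_contra h
    rw [Set.not_nonempty_iff_eq_empty] at h
    rw [h] at hpA0
    unfold pr at hpA0
    simp at hpA0
  obtain ⟨F, hFA, hFη⟩ := move G P hP hP1 A hpA0 hAne
    (η / (2 ^ G.k * ((G.k : ℝ) + 1))) (by positivity)
  obtain ⟨a₀, -⟩ := hAne
  obtain ⟨D, hD⟩ : ∃ D : G.Blk N → Fin N → Option (G.Sym × G.Sym),
      D = fun x n => if x n = F x n then none else some (x n, F x n) := ⟨_, rfl⟩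
  have hDn : ∀ x n, D x n = none ↔ x n = F x n := by
    intro x n
    rw [hD]
    by_cases h : x n = F x n
    · simp [h]
    · simp [h]
  have hDs : ∀ x n, x n ≠ F x n → D x n = some (x n, F x n) := by
    intro x n h
    rw [hD]
    simp [h]
  have hgood : ∀ x, (df univ x (F x) : ℝ) ≤ η * N →
      ((univ.filter (fun n => D x n ≠ none)).card : ℝ) ≤ η * N := by
    intro x hx
    refine le_trans ?_ hx
    have h1 : (univ.filter (fun n => D x n ≠ none)).card ≤ df univ x (F x) := by
      refine le_df univ x (F x) _ (fun n hn h2 => ?_)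
      rw [Finset.mem_filter] at hn
      exact hn.2 ((hDn x n).2 (funext (fun j => h2 j (Finset.mem_univ j))))
    exact_mod_cast h1
  obtain ⟨ι, hι⟩ := Countable.exists_injective_nat
    (Option (Fin N → Option (G.Sym × G.Sym)))
  obtain ⟨ι', hι'⟩ := Countable.exists_injective_nat (List Bool)
  -- blocks with the same facilitator message
  have key : ∀ x y, (df univ x (F x) : ℝ) ≤ η * N → (df univ y (F y) : ℝ) ≤ η * N → D x = D y →
      ∀ v, (∀ i ∈ G.avail v, ∀ n, x n i = y n i) → ∀ i ∈ G.avail v, ∀ n, F x n i = F y n i := by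
    intro x y _ _ hxy v hv i hi n
    have h1 := congrFun hxy n
    by_cases h2 : x n = F x n
    · have h3 := (hDn x n).2 h2
      rw [h3] at h1
      have h4 := (hDn y n).1 h1.symm
      rw [← h2, ← h4]
      exact hv i hi n
    · rw [hDs x n h2] at h1
      have h5 : y n ≠ F y n := by
        intro h6
        rw [(hDn y n).2 h6] at h1
        exact absurd h1 (by simp)
      rw [hDs y n h5] at h1
      have h7 : F x n = F y n := congrArg Prod.snd (Option.some.inj h1)
      rw [h7]
  obtain ⟨fac, hfac⟩ : ∃ fac : G.Blk N → Option (Fin N → Option (G.Sym × G.Sym)),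
      fac = fun x => if (df univ x (F x) : ℝ) ≤ η * N then some (D x) else none := ⟨_, rfl⟩
  obtain ⟨m', hm'⟩ : ∃ m' : Fin G.nE → G.Blk N → List Bool,
      m' = fun e x => if (df univ x (F x) : ℝ) ≤ η * N then m e (F x) else [] := ⟨_, rfl⟩
  have hcase : ∀ x y, fac x = fac y →
      ((df univ x (F x) : ℝ) ≤ η * N ∧ (df univ y (F y) : ℝ) ≤ η * N ∧ D x = D y) ∨
      (¬ (df univ x (F x) : ℝ) ≤ η * N ∧ ¬ (df univ y (F y) : ℝ) ≤ η * N) := by
    intro x y h
    rw [hfac] at h
    by_cases h1 : (df univ x (F x) : ℝ) ≤ η * N <;> by_cases h2 : (df univ y (F y) : ℝ) ≤ η * N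
    · simp only [h1, h2, if_true] at h
      exact Or.inl ⟨h1, h2, Option.some.inj h⟩
    · simp only [h1, h2, if_true, if_false] at h
      exact absurd h (by simp)
    · simp only [h1, h2, if_true, if_false] at h
      exact absurd h (by simp)
    · exact Or.inr ⟨h1, h2⟩
  have hsame : ∀ x y v, (df univ x (F x) : ℝ) ≤ η * N → (df univ y (F y) : ℝ) ≤ η * N →
      D x = D y → G.SameData (fun e x => ι' (m' e x)) v x y → G.SameData m v (F x) (F y) := by
    intro x y v hx hy hxy h
    refine ⟨key x y hx hy hxy v h.1, fun e he => ?_⟩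
    have h1 := hι' (h.2 e he)
    rw [hm'] at h1
    simp only [hx, hy, if_true] at h1
    exact h1
  refine ⟨fun x => ι (fac x), fun e x => ι' (m' e x),
    fun v x n j => if (df univ x (F x) : ℝ) ≤ η * N ∧ j ∈ G.dem v then
      (if D x n = none then F x n j else x n j) else a₀ n j, ?_, ?_, ?_, ?_, ?_⟩
  · have hsub : (univ.image (fun x => ι (fac x))) ⊆
        (insert none (((univ : Finset (Fin N → Option (G.Sym × G.Sym))).filter
            (fun f => ((univ.filter (fun n => f n ≠ none)).card : ℝ) ≤ η * N)).image some)).image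
              ι := by
      intro z hz
      rw [Finset.mem_image] at hz
      obtain ⟨x, -, rfl⟩ := hz
      refine Finset.mem_image_of_mem ι ?_
      rw [hfac]
      by_cases h1 : (df univ x (F x) : ℝ) ≤ η * N
      · simp only [h1, if_true]
        refine Finset.mem_insert_of_mem (Finset.mem_image_of_mem some ?_)
        rw [Finset.mem_filter]
        exact ⟨Finset.mem_univ _, hgood x h1⟩
      · simp only [h1, if_false]
        exact Finset.mem_insert_self _ _
    have hcard : ((univ.image (fun x => ι (fac x))).card : ℝ) ≤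
        ((((univ : Finset (Fin N → Option (G.Sym × G.Sym))).filter
            (fun f => ((univ.filter (fun n => f n ≠ none)).card : ℝ) ≤ η * N)).card : ℕ) : ℝ) +
              1 := by
      have h1 := (Finset.card_le_card hsub).trans (Finset.card_image_le.trans
        ((Finset.card_insert_le _ _).trans (Nat.add_le_add_right Finset.card_image_le 1)))
      exact_mod_cast h1
    have h2 := hN1 N hNa 0 (le_refl 0)
    rw [pow_one, mul_zero, zero_add, zero_add] at h2
    have h3 := hcnt N
    have h4 : (1 : ℝ) ≤ 2 ^ (ε / (2 * (((1 : ℕ) : ℝ) + 1)) * (N : ℝ)) :=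
      Real.one_le_rpow (by norm_num) (by positivity)
    have h5 : (1 : ℝ) ≤ 2 ^ (δ N + 1) :=
      Real.one_le_rpow (by norm_num) (by linarith [hδ0 N])
    nlinarith
  · intro e
    obtain ⟨Z, hZc, hZA⟩ := hZ e
    have hsub : (univ.image (fun x => ι' (m' e x))) ⊆ (insert [] Z).image ι' := by
      intro z hz
      rw [Finset.mem_image] at hz
      obtain ⟨x, -, rfl⟩ := hz
      refine Finset.mem_image_of_mem ι' ?_
      rw [hm']
      by_cases h1 : (df univ x (F x) : ℝ) ≤ η * N
      · simp only [h1, if_true]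
        exact Finset.mem_insert_of_mem (hZA _ (hFA x))
      · simp only [h1, if_false]
        exact Finset.mem_insert_self _ _
    have hcard : ((univ.image (fun x => ι' (m' e x))).card : ℝ) ≤ (Z.card : ℝ) + 1 := by
      have h1 := (Finset.card_le_card hsub).trans (Finset.card_image_le.trans
        (Finset.card_insert_le _ _))
      exact_mod_cast h1
    have h2 := hN0 N hNe (c e) (hc e)
    rw [pow_zero, mul_one] at h2
    linarith
  · intro e x y hxy h
    show ι' (m' e x) = ι' (m' e y)
    have h0 := hcase x y (hι hxy)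
    rcases h0 with ⟨h1, h2, h3⟩ | ⟨h1, h2⟩
    · have h4 := hm e (F x) (hFA x) (F y) (hFA y) (hsame x y _ h1 h2 h3 h)
      rw [hm']
      simp only [h1, h2, if_true]
      rw [h4]
    · rw [hm']
      simp only [h1, h2, if_false]
  · intro v x y hxy h
    have h0 := hcase x y (hι hxy)
    funext n j
    rcases h0 with ⟨h1, h2, h3⟩ | ⟨h1, h2⟩
    · by_cases hj : j ∈ G.dem v
      · simp only [h1, h2, hj, and_self, if_true]
        have h4 := hd v j hj (F x) (hFA x) (F y) (hFA y) (hsame x y _ h1 h2 h3 h) n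
        rw [← congrFun h3 n]
        by_cases h5 : D x n = none
        · simp only [h5, if_true]
          exact h4
        · simp only [h5, if_false]
          have h6 : x n ≠ F x n := fun h7 => h5 ((hDn x n).2 h7)
          have h8 := congrFun h3 n
          rw [hDs x n h6] at h8
          have h9 : y n ≠ F y n := by
            intro h10
            rw [(hDn y n).2 h10] at h8
            exact absurd h8 (by simp)
          rw [hDs y n h9] at h8
          have h11 : x n = y n := congrArg Prod.fst (Option.some.inj h8)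
          rw [h11]
      · simp only [hj, and_false, if_false]
    · simp only [h1, h2, false_and, if_false]
  · intro v
    have hsub : {x : G.Blk N | ¬ ∀ i ∈ G.dem v, ∀ n,
        (if (df univ x (F x) : ℝ) ≤ η * N ∧ i ∈ G.dem v then
          (if D x n = none then F x n i else x n i) else a₀ n i) = x n i} ⊆
        {x : G.Blk N | η * N < (df univ x (F x) : ℝ)} := by
      intro x hx
      by_contra h
      rw [Set.mem_ofPred_eq, not_lt] at h
      refine hx (fun i hi n => ?_)
      simp only [h, hi, and_self, if_true]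
      by_cases h5 : D x n = none
      · simp only [h5, if_true]
        rw [← (hDn x n).1 h5]
      · simp only [h5, if_false]
    refine le_trans (pr_mono hP hsub) (le_trans (hFη η hη) ?_)
    rw [div_le_iff₀ hpA0]
    have h7 := num_exp G.k η hη
    have hN0' : (0 : ℝ) ≤ N := Nat.cast_nonneg _
    have h8 : Real.exp ((N : ℝ) * (-(η / (2 ^ G.k * ((G.k : ℝ) + 1)) / 2 ^ G.k * η) +
        (G.k : ℝ) * (η / (2 ^ G.k * ((G.k : ℝ) + 1))) ^ 2 / 2)) ≤
        Real.exp (-κ * N) * Real.exp (-κ * N) := by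
      rw [← Real.exp_add, Real.exp_le_exp]
      have h9 : -(η / (2 ^ G.k * ((G.k : ℝ) + 1)) / 2 ^ G.k * η) +
        (G.k : ℝ) * (η / (2 ^ G.k * ((G.k : ℝ) + 1))) ^ 2 / 2 ≤ -(2 * κ) := by
        rw [hκ]
        exact h7
      nlinarith [mul_le_mul_of_nonneg_left h9 hN0']
    exact h8.trans (mul_le_mul (hN4 N hNd) hpA (Real.exp_pos _).le hε.le)

end Pool.Agent.Lib.NetAlg
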