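import Pool.Agent.Lib.NetAlg.Sel
import Pool.Agent.Lib.NetAlg.Cnt
import Pool.Agent.Lib.NetAlg.Pig
import Pool.Agent.Lib.NetAlg.Num
import Pool.Agent.Lib.NetH.Final

/-!
# Theorem 2 (facilitator, all networks), exponential form
-/

set_option autoImplicit false

namespace Pool.Agent.Lib.NetAlg

open Finset Filter Topology Pool.Agent.Lib.NetH

private theorem df_zero {I : Type} {α : I → Type} [∀ i, DecidableEq (α i)] {N : ℕ}
    (S : Finset I) (x y : Fin N → ∀ i, α i) (h : ∀ n, ∀ j ∈ S, x n j = y n j) :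
    df S x y = 0 := by
  unfold df
  rw [Finset.card_eq_zero, Finset.filter_eq_empty_iff]
  intro n _ h1
  exact h1 (h n)

private theorem le_df {I : Type} {α : I → Type} [∀ i, DecidableEq (α i)] {N : ℕ}
    (S : Finset I) (x y : Fin N → ∀ i, α i) (s : Finset (Fin N))
    (h : ∀ n ∈ s, ¬ ∀ j ∈ S, x n j = y n j) : s.card ≤ df S x y := by
  unfold df
  refine Finset.card_le_card (fun n hn => ?_)
  rw [Finset.mem_filter]
  exact ⟨Finset.mem_univ n, h n hn⟩

/-- a map of all blocks into `A`, close to the identity -/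
private theorem move (G : Net) (P : G.Sym → ℝ) (hP : ∀ σ, 0 ≤ P σ) (hP1 : ∑ σ, P σ = 1) {N : ℕ}
    (A : Set (G.Blk N)) (hA : 0 < pr P A) (hne : A.Nonempty) (Λ : ℝ) (hΛ : 0 < Λ) :
    ∃ F : G.Blk N → G.Blk N, (∀ x, F x ∈ A) ∧ ∀ η : ℝ, 0 < η →
      pr P {x : G.Blk N | η * N < (df univ x (F x) : ℝ)} ≤
        Real.exp (N * (-(Λ / 2 ^ G.k * η) + G.k * Λ ^ 2 / 2)) / pr P A := by
  classical
  rcases Nat.eq_zero_or_pos G.k with hk | hk
  · obtain ⟨a, ha⟩ := hne
    refine ⟨fun _ => a, fun _ => ha, fun η hη => ?_⟩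
    have h1 : {x : G.Blk N | η * N < (df univ x a : ℝ)} = ∅ := by
      ext x
      simp only [Set.mem_ofPred_eq, Set.mem_empty_iff_false, iff_false, not_lt]
      have h2 : df univ x a = 0 := df_zero univ x a (fun n j _ => absurd j.isLt (by omega))
      rw [h2, Nat.cast_zero]
      positivity
    rw [h1]
    have h3 : pr P (∅ : Set (G.Blk N)) = 0 := by
      unfold pr
      simp
    rw [h3]
    positivity
  · obtain ⟨F, hF⟩ := sel P hP hP1 A hA univ (fun i => univ.filter (fun j => j ≤ i))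
      (fun i => (i : ℕ)) Fin.val_injective
      (fun i _ => Finset.mem_filter.2 ⟨Finset.mem_univ i, le_refl i⟩)
      (fun i _ j hj => by
        rw [Finset.mem_filter] at hj
        refine ⟨Finset.mem_univ j, fun l hl => ?_, hj.2⟩
        rw [Finset.mem_filter] at hl ⊢
        exact ⟨hl.1, hl.2.trans hj.2⟩)
      (fun i _ => by
        rcases Nat.eq_zero_or_pos (i : ℕ) with hi | hi
        · left
          ext j
          rw [Finset.mem_filter, Finset.mem_singleton, Fin.le_def, Fin.ext_iff]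
          constructor
          · intro h
            omega
          · intro h
            exact ⟨Finset.mem_univ j, h.le⟩
        · right
          refine ⟨⟨(i : ℕ) - 1, by omega⟩, Finset.mem_univ _, ?_, ?_⟩
          · rw [Finset.mem_filter, Fin.le_def]
            intro h
            have := h.2
            simp only at this
            omega
          · ext j
            rw [Finset.mem_filter, Finset.mem_insert, Finset.mem_filter, Fin.le_def, Fin.le_def,
              Fin.ext_iff]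
            simp only [Finset.mem_univ, true_and]
            omega) Λ hΛ
    have htop : (univ.filter (fun j : Fin G.k => j ≤ ⟨G.k - 1, by omega⟩)) = univ := by
      ext j
      rw [Finset.mem_filter, Fin.le_def]
      simp only [Finset.mem_univ, true_and, iff_true]
      omega
    have h1 := hF ⟨G.k - 1, by omega⟩ (Finset.mem_univ _)
    rw [htop, Fintype.card_fin] at h1
    refine ⟨F, fun x => ?_, h1.2.2⟩
    obtain ⟨a, ha, h2⟩ := h1.2.1 x
    have h3 : a = F x := funext (fun n => funext (fun j => h2 n j (Finset.mem_univ j)))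
    rw [← h3]
    exact ha


/-- from a code on a set of blocks of probability `exp (- o(N))` to a code with a facilitator -/
theorem facLift (G : Net) (P : G.Sym → ℝ) (hP : ∀ σ, 0 ≤ P σ) (hP1 : ∑ σ, P σ = 1) {ε : ℝ}
    (hε : 0 < ε) :
    ∃ κ > 0, ∀ᶠ N : ℕ in atTop, ∀ (M : Type) (A : Set (G.Blk N)) (m : Fin G.nE → G.Blk N → M),
      Real.exp (-(κ * N)) ≤ pr P A →
      (∀ e, ∀ x ∈ A, ∀ y ∈ A, G.SameData m (G.tail e) x y → m e x = m e y) →
      (∀ v, ∀ i ∈ G.dem v, ∀ x ∈ A, ∀ y ∈ A, G.SameData m v x y → ∀ n, x n i = y n i) →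
      ∃ (f : G.Blk N → ℕ) (msg : Fin G.nE → G.Blk N → ℕ) (d : Fin G.nV → G.Blk N → G.Blk N),
        ((univ.image f).card : ℝ) ≤ 2 ^ ((N : ℝ) * ε) ∧
        (∀ e, ((univ.image (msg e)).card : ℝ) ≤ ((m e '' A).ncard : ℝ) + 1) ∧
        (∀ e x y, f x = f y → G.SameData msg (G.tail e) x y → msg e x = msg e y) ∧
        (∀ v x y, f x = f y → G.SameData msg v x y → d v x = d v y) ∧
        ∀ v, pr P {x : G.Blk N | ¬ ∀ i ∈ G.dem v, ∀ n, d v x n i = x n i} ≤ ε := by
  classical
  obtain ⟨η, hη, hcnt⟩ := sparse_count (G.Sym × G.Sym) (ε / 2) (by positivity)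
  obtain ⟨κ, hκ⟩ : ∃ κ, κ = η ^ 2 / (4 ^ (G.k + 1) * ((G.k : ℝ) + 1)) := ⟨_, rfl⟩
  have hκ0 : 0 < κ := by
    rw [hκ]
    positivity
  refine ⟨κ, hκ0, ?_⟩
  obtain ⟨N4, hN4⟩ := num_small κ ε hκ0 hε
  filter_upwards [eventually_ge_atTop N4, eventually_ge_atTop ⌈2 / ε⌉₊] with N hNd hNe
  intro M A m hpA' hm hd
  have hpA : Real.exp (-κ * N) ≤ pr P A := by
    rw [neg_mul]
    exact hpA'
  have hN2 : 1 ≤ (N : ℝ) * (ε / 2) := by
    have h1 : 2 / ε ≤ (N : ℝ) := (Nat.le_ceil _).trans (by exact_mod_cast hNe)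
    rw [div_le_iff₀ hε] at h1
    linarith
  have hpA0 : 0 < pr P A := lt_of_lt_of_le (Real.exp_pos _) hpA
  have hAne : A.Nonempty := by
    by_contra h
    rw [Set.not_nonempty_iff_eq_empty] at h
    rw [h] at hpA0
    unfold pr at hpA0
    simp at hpA0
  obtain ⟨F, hFA, hFη⟩ := move G P hP hP1 A hpA0 hAne
    (η / (2 ^ G.k * ((G.k : ℝ) + 1))) (by positivity)
  obtain ⟨a₀, -⟩ := hAne
  obtain ⟨D, hD⟩ : ∃ D : G.Blk N → Fin N → Option (G.Sym × G.Sym),
      D = fun x n => if x n = F x n then none else some (x n, F x n) := ⟨_, rfl⟩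
  have hDn : ∀ x n, D x n = none ↔ x n = F x n := by
    intro x n
    rw [hD]
    by_cases h : x n = F x n
    · simp [h]
    · simp [h]
  have hDs : ∀ x n, x n ≠ F x n → D x n = some (x n, F x n) := by
    intro x n h
    rw [hD]
    simp [h]
  have hgood : ∀ x, (df univ x (F x) : ℝ) ≤ η * N →
      ((univ.filter (fun n => D x n ≠ none)).card : ℝ) ≤ η * N := by
    intro x hx
    refine le_trans ?_ hx
    have h1 : (univ.filter (fun n => D x n ≠ none)).card ≤ df univ x (F x) := by
      refine le_df univ x (F x) _ (fun n hn h2 => ?_)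
      rw [Finset.mem_filter] at hn
      exact hn.2 ((hDn x n).2 (funext (fun j => h2 j (Finset.mem_univ j))))
    exact_mod_cast h1
  obtain ⟨ι, hι⟩ := Countable.exists_injective_nat
    (Option (Fin N → Option (G.Sym × G.Sym)))
  have hfinT : Finite {y : M // ∃ e x, m e x = y} := by
    have h1 : {y : M | ∃ e x, m e x = y} = ⋃ e, Set.range (m e) := by
      ext y
      simp
    have h2 : ({y : M | ∃ e x, m e x = y}).Finite := by
      rw [h1]
      exact Set.finite_iUnion (fun e => Set.finite_range (m e))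
    exact h2.to_subtype
  obtain ⟨ι', hι'⟩ := Countable.exists_injective_nat (Option {y : M // ∃ e x, m e x = y})
  -- blocks with the same facilitator message
  have key : ∀ x y, (df univ x (F x) : ℝ) ≤ η * N → (df univ y (F y) : ℝ) ≤ η * N → D x = D y →
      ∀ v, (∀ i ∈ G.avail v, ∀ n, x n i = y n i) → ∀ i ∈ G.avail v, ∀ n, F x n i = F y n i := by
    intro x y _ _ hxy v hv i hi n
    have h1 := congrFun hxy n
    by_cases h2 : x n = F x n
    · have h3 := (hDn x n).2 h2
      rw [h3] at h1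
      have h4 := (hDn y n).1 h1.symm
      rw [← h2, ← h4]
      exact hv i hi n
    · rw [hDs x n h2] at h1
      have h5 : y n ≠ F y n := by
        intro h6
        rw [(hDn y n).2 h6] at h1
        exact absurd h1 (by simp)
      rw [hDs y n h5] at h1
      have h7 : F x n = F y n := congrArg Prod.snd (Option.some.inj h1)
      rw [h7]
  obtain ⟨fac, hfac⟩ : ∃ fac : G.Blk N → Option (Fin N → Option (G.Sym × G.Sym)),
      fac = fun x => if (df univ x (F x) : ℝ) ≤ η * N then some (D x) else none := ⟨_, rfl⟩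
  obtain ⟨m', hm'⟩ : ∃ m' : Fin G.nE → G.Blk N → Option {y : M // ∃ e x, m e x = y},
      m' = fun e x => if (df univ x (F x) : ℝ) ≤ η * N then some ⟨m e (F x), e, F x, rfl⟩
        else none := ⟨_, rfl⟩
  have hcase : ∀ x y, fac x = fac y →
      ((df univ x (F x) : ℝ) ≤ η * N ∧ (df univ y (F y) : ℝ) ≤ η * N ∧ D x = D y) ∨
      (¬ (df univ x (F x) : ℝ) ≤ η * N ∧ ¬ (df univ y (F y) : ℝ) ≤ η * N) := by
    intro x y h
    rw [hfac] at h
    by_cases h1 : (df univ x (F x) : ℝ) ≤ η * N <;> by_cases h2 : (df univ y (F y) : ℝ) ≤ η * N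
    · simp only [h1, h2, if_true] at h
      exact Or.inl ⟨h1, h2, Option.some.inj h⟩
    · simp only [h1, h2, if_true, if_false] at h
      exact absurd h (by simp)
    · simp only [h1, h2, if_true, if_false] at h
      exact absurd h (by simp)
    · exact Or.inr ⟨h1, h2⟩
  have hsame : ∀ x y v, (df univ x (F x) : ℝ) ≤ η * N → (df univ y (F y) : ℝ) ≤ η * N →
      D x = D y → G.SameData (fun e x => ι' (m' e x)) v x y → G.SameData m v (F x) (F y) := by
    intro x y v hx hy hxy h
    refine ⟨key x y hx hy hxy v h.1, fun e he => ?_⟩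
    have h1 := hι' (h.2 e he)
    rw [hm'] at h1
    simp only [hx, hy, if_true] at h1
    exact congrArg Subtype.val (Option.some.inj h1)
  refine ⟨fun x => ι (fac x), fun e x => ι' (m' e x),
    fun v x n j => if (df univ x (F x) : ℝ) ≤ η * N ∧ j ∈ G.dem v then
      (if D x n = none then F x n j else x n j) else a₀ n j, ?_, ?_, ?_, ?_, ?_⟩
  · have hsub : (univ.image (fun x => ι (fac x))) ⊆
        (insert none (((univ : Finset (Fin N → Option (G.Sym × G.Sym))).filter
            (fun f => ((univ.filter (fun n => f n ≠ none)).card : ℝ) ≤ η * N)).image some)).image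
              ι := by
      intro z hz
      rw [Finset.mem_image] at hz
      obtain ⟨x, -, rfl⟩ := hz
      refine Finset.mem_image_of_mem ι ?_
      rw [hfac]
      by_cases h1 : (df univ x (F x) : ℝ) ≤ η * N
      · simp only [h1, if_true]
        refine Finset.mem_insert_of_mem (Finset.mem_image_of_mem some ?_)
        rw [Finset.mem_filter]
        exact ⟨Finset.mem_univ _, hgood x h1⟩
      · simp only [h1, if_false]
        exact Finset.mem_insert_self _ _
    have hcard : ((univ.image (fun x => ι (fac x))).card : ℝ) ≤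
        ((((univ : Finset (Fin N → Option (G.Sym × G.Sym))).filter
            (fun f => ((univ.filter (fun n => f n ≠ none)).card : ℝ) ≤ η * N)).card : ℕ) : ℝ) +
              1 := by
      have h1 := (Finset.card_le_card hsub).trans (Finset.card_image_le.trans
        ((Finset.card_insert_le _ _).trans (Nat.add_le_add_right Finset.card_image_le 1)))
      exact_mod_cast h1
    have h3 := hcnt N
    have h4 : (1 : ℝ) ≤ 2 ^ (ε / 2 * (N : ℝ)) :=
      Real.one_le_rpow (by norm_num) (by positivity)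
    have h5 : (2 : ℝ) ^ ((N : ℝ) * ε) = 2 ^ (ε / 2 * (N : ℝ)) * 2 ^ ((N : ℝ) * (ε / 2)) := by
      rw [← Real.rpow_add (by norm_num)]
      congr 1
      ring
    have h6 : (2 : ℝ) ≤ 2 ^ ((N : ℝ) * (ε / 2)) := by
      have h7 : (2 : ℝ) ^ (1 : ℝ) ≤ 2 ^ ((N : ℝ) * (ε / 2)) :=
        Real.rpow_le_rpow_of_exponent_le (by norm_num) hN2
      rwa [Real.rpow_one] at h7
    rw [h5]
    nlinarith
  · intro e
    have hsub : (univ.image (fun x => ι' (m' e x))) ⊆ insert (ι' none)
        ((Set.toFinite (m e '' A)).toFinset.image (fun y =>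
          ι' (if h : ∃ e x, m e x = y then some ⟨y, h⟩ else none))) := by
      intro z hz
      rw [Finset.mem_image] at hz
      obtain ⟨x, -, rfl⟩ := hz
      rw [hm']
      by_cases h1 : (df univ x (F x) : ℝ) ≤ η * N
      · simp only [h1, if_true]
        refine Finset.mem_insert_of_mem ?_
        rw [Finset.mem_image]
        refine ⟨m e (F x), ?_, ?_⟩
        · rw [Set.Finite.mem_toFinset]
          exact ⟨F x, hFA x, rfl⟩
        · have h2 : ∃ e' x', m e' x' = m e (F x) := ⟨e, F x, rfl⟩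
          rw [dif_pos h2]
      · simp only [h1, if_false]
        exact Finset.mem_insert_self _ _
    have h1 := (Finset.card_le_card hsub).trans ((Finset.card_insert_le _ _).trans
      (Nat.add_le_add_right Finset.card_image_le 1))
    rw [← Set.ncard_eq_toFinset_card (m e '' A)] at h1
    exact_mod_cast h1
  · intro e x y hxy h
    show ι' (m' e x) = ι' (m' e y)
    have h0 := hcase x y (hι hxy)
    rcases h0 with ⟨h1, h2, h3⟩ | ⟨h1, h2⟩
    · have h4 := hm e (F x) (hFA x) (F y) (hFA y) (hsame x y _ h1 h2 h3 h)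
      rw [hm']
      simp only [h1, h2, if_true]
      congr 3
    · rw [hm']
      simp only [h1, h2, if_false]
  · intro v x y hxy h
    have h0 := hcase x y (hι hxy)
    funext n j
    rcases h0 with ⟨h1, h2, h3⟩ | ⟨h1, h2⟩
    · by_cases hj : j ∈ G.dem v
      · simp only [h1, h2, hj, and_self, if_true]
        have h4 := hd v j hj (F x) (hFA x) (F y) (hFA y) (hsame x y _ h1 h2 h3 h) n
        rw [← congrFun h3 n]
        by_cases h5 : D x n = none
        · simp only [h5, if_true]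
          exact h4
        · simp only [h5, if_false]
          have h6 : x n ≠ F x n := fun h7 => h5 ((hDn x n).2 h7)
          have h8 := congrFun h3 n
          rw [hDs x n h6] at h8
          have h9 : y n ≠ F y n := by
            intro h10
            rw [(hDn y n).2 h10] at h8
            exact absurd h8 (by simp)
          rw [hDs y n h9] at h8
          have h11 : x n = y n := congrArg Prod.fst (Option.some.inj h8)
          rw [h11]
      · simp only [hj, and_false, if_false]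
    · simp only [h1, h2, false_and, if_false]
  · intro v
    have hsub : {x : G.Blk N | ¬ ∀ i ∈ G.dem v, ∀ n,
        (if (df univ x (F x) : ℝ) ≤ η * N ∧ i ∈ G.dem v then
          (if D x n = none then F x n i else x n i) else a₀ n i) = x n i} ⊆
        {x : G.Blk N | η * N < (df univ x (F x) : ℝ)} := by
      intro x hx
      by_contra h
      rw [Set.mem_ofPred_eq, not_lt] at h
      refine hx (fun i hi n => ?_)
      simp only [h, hi, and_self, if_true]
      by_cases h5 : D x n = none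
      · simp only [h5, if_true]
        rw [← (hDn x n).1 h5]
      · simp only [h5, if_false]
    refine le_trans (pr_mono hP hsub) (le_trans (hFη η hη) ?_)
    rw [div_le_iff₀ hpA0]
    have h7 := num_exp G.k η hη
    have hN0' : (0 : ℝ) ≤ N := Nat.cast_nonneg _
    have h8 : Real.exp ((N : ℝ) * (-(η / (2 ^ G.k * ((G.k : ℝ) + 1)) / 2 ^ G.k * η) +
        (G.k : ℝ) * (η / (2 ^ G.k * ((G.k : ℝ) + 1))) ^ 2 / 2)) ≤
        Real.exp (-κ * N) * Real.exp (-κ * N) := by
      rw [← Real.exp_add, Real.exp_le_exp]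
      have h9 : -(η / (2 ^ G.k * ((G.k : ℝ) + 1)) / 2 ^ G.k * η) +
        (G.k : ℝ) * (η / (2 ^ G.k * ((G.k : ℝ) + 1))) ^ 2 / 2 ≤ -(2 * κ) := by
        rw [hκ]
        exact h7
      nlinarith [mul_le_mul_of_nonneg_left h9 hN0']
    exact h8.trans (mul_le_mul (hN4 N hNd) hpA (Real.exp_pos _).le hε.le)


private theorem two_rpow (x : ℝ) : (2 : ℝ) ^ x = Real.exp (Real.log 2 * x) :=
  Real.rpow_def_of_pos (by norm_num) x

private theorem two_mono {x y : ℝ} (h : x ≤ y) : (2 : ℝ) ^ x ≤ 2 ^ y :=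
  Real.rpow_le_rpow_of_exponent_le (by norm_num) h


theorem facilitator_exp (G : Net) (P : G.Sym → ℝ) (hP : ∀ σ, 0 ≤ P σ) (hP1 : ∑ σ, P σ = 1)
    (c : Fin G.nE → ℝ) (hc : ∀ e, 0 ≤ c e) (hna : ¬ G.FacAchievable P c) :
    ∃ η : ℝ, 0 < η ∧ ∃ N₀ : ℕ, ∀ N ≥ N₀,
      ∀ (U : List Bool → List (List Bool) → Option (List Bool))
        (enc : ∀ i : Fin G.k, (Fin N → Fin (G.sz i)) → List Bool),
        (∀ i, Function.Injective (enc i)) →
        pr P {x : G.Blk N | G.AlgSolvable U enc (fun e => (N : ℝ) * c e) (η * N) x} <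
          2 ^ (-(η * N)) := by
  classical
  by_contra hcon
  push Not at hcon
  refine hna (fun ε hε => ?_)
  have hL0 : 0 < Real.log 2 := Real.log_pos (by norm_num)
  have hL1 : Real.log 2 ≤ 1 := by
    have h1 := Real.log_le_sub_one_of_pos (x := 2) (by norm_num)
    linarith
  obtain ⟨η0, hη0, hlift⟩ := facLift G P hP hP1 hε
  obtain ⟨K, hK⟩ : ∃ K : ℝ, K = ((G.nE + G.nV * G.k : ℕ) : ℝ) := ⟨_, rfl⟩
  have hK0 : 0 ≤ K := by
    rw [hK]
    exact Nat.cast_nonneg _
  obtain ⟨η, hη, hη1, hη2⟩ : ∃ η : ℝ, 0 < η ∧ 2 * (η * (1 + 2 * K)) ≤ η0 ∧ η ≤ ε / 4 := by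
    refine ⟨min (η0 / (2 * (1 + 2 * K))) (ε / 4), lt_min (by positivity) (by positivity), ?_,
      min_le_right _ _⟩
    have h1 := min_le_left (η0 / (2 * (1 + 2 * K))) (ε / 4)
    rw [le_div_iff₀ (by positivity)] at h1
    linarith
  obtain ⟨n1, hn1⟩ := exists_nat_ge (1 / η)
  obtain ⟨n, hn, U, enc, henc, hpr⟩ := hcon η hη (max n1 1)
  have hnn1 : n1 ≤ n := le_trans (le_max_left _ _) hn
  have hn0 : 1 ≤ n := le_trans (le_max_right _ _) hn
  have hηn : 1 ≤ η * n := by
    rw [div_le_iff₀ hη] at hn1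
    have h1 : (n1 : ℝ) ≤ n := by exact_mod_cast hnn1
    nlinarith
  have hnR : (0 : ℝ) ≤ n := Nat.cast_nonneg n
  -- the code on a set of blocks of length `n`
  have hsemi : Semi G P n (2 ^ (-(η * n * (1 + 2 * K))) : ℝ)
      (fun e => 2 ^ ((n : ℝ) * (c e + 2 * η))) := by
    obtain ⟨A, m, -, hAp, hZ, hm, hd⟩ := pig G P hP n U enc henc (fun e => (n : ℝ) * c e)
      (fun e => mul_nonneg hnR (hc e)) (η * n) (by positivity)
    refine ⟨List Bool, A, m, ?_, fun e => ?_, hm, hd⟩
    · have h1 := hpr.trans hAp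
      rw [← hK, ← div_le_iff₀ (by positivity), div_eq_mul_inv, ← Real.rpow_neg (by norm_num),
        ← Real.rpow_add (by norm_num)] at h1
      refine le_trans (two_mono ?_) h1
      nlinarith
    · obtain ⟨Z, hZ1, hZ2⟩ := hZ e
      have hsub : m e '' A ⊆ (Z : Set (List Bool)) := by
        rintro _ ⟨x, hx, rfl⟩
        exact hZ2 x hx
      have h1 := Set.ncard_le_ncard hsub (Finset.finite_toSet _)
      rw [Set.ncard_coe_finset] at h1
      refine le_trans (Nat.cast_le.2 h1) (hZ1.trans (two_mono ?_))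
      nlinarith
  obtain ⟨a0, ha0⟩ : ∃ a0, 0 < P a0 := by
    by_contra h
    push Not at h
    have h1 := Finset.sum_nonpos (fun σ (_ : σ ∈ (univ : Finset G.Sym)) => h σ)
    rw [hP1] at h1
    linarith
  have ha1 : P a0 ≤ 1 := by
    rw [← hP1]
    exact Finset.single_le_sum (fun ρ _ => hP ρ) (Finset.mem_univ a0)
  have ev := ev_exp (c := η * (1 + 2 * K)) (δ := P a0 ^ n) (by positivity) (pow_pos ha0 n) 1
  have hev : ∀ᶠ N : ℕ in atTop, ∃ (f : G.Blk N → ℕ) (m : Fin G.nE → G.Blk N → ℕ)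
    (d : Fin G.nV → G.Blk N → G.Blk N),
    ((univ.image f).card : ℝ) ≤ 2 ^ ((N : ℝ) * ε) ∧
    (∀ e, ((univ.image (m e)).card : ℝ) ≤ 2 ^ ((N : ℝ) * (c e + ε))) ∧
    (∀ e x y, f x = f y → G.SameData m (G.tail e) x y → m e x = m e y) ∧
    (∀ v x y, f x = f y → G.SameData m v x y → d v x = d v y) ∧
    ∀ v, pr P {x : G.Blk N | ¬ ∀ i ∈ G.dem v, ∀ n, d v x n i = x n i} ≤ ε := by
    filter_upwards [hlift, ev, eventually_ge_atTop ⌈2 / ε⌉₊] with N h1 h2 hN2
    have hNR : (0 : ℝ) ≤ N := Nat.cast_nonneg N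
    have hdm : N / n * n + N % n = N := Nat.div_add_mod' N n
    have hrn : ((N / n : ℕ) : ℝ) * n ≤ N := by
      have h3 : N / n * n ≤ N := Nat.div_mul_le_self N n
      exact_mod_cast h3
    have hs := semi_add hP (pow_nonneg ha0.le (N % n))
      (semi_pow hP (by positivity) hP1 hsemi (N / n)) (semi_const G P (N % n) a0)
    rw [hdm] at hs
    obtain ⟨M, A, m, hA1, hA2, hA3, hA4⟩ := hs
    have hpA : Real.exp (-(η0 * N)) ≤ pr P A := by
      refine le_trans ?_ hA1
      have h3 : Real.exp (-(η * (1 + 2 * K) * N)) ≤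
          ((2 : ℝ) ^ (-(η * n * (1 + 2 * K)))) ^ (N / n) := by
        rw [← Real.rpow_mul_natCast (by norm_num), two_rpow, Real.exp_le_exp]
        have h4 : η * n * (1 + 2 * K) * ((N / n : ℕ) : ℝ) ≤ η * (1 + 2 * K) * N := by
          have h5 : η * n * (1 + 2 * K) * ((N / n : ℕ) : ℝ) =
              η * (1 + 2 * K) * (((N / n : ℕ) : ℝ) * n) := by ring
          rw [h5]
          exact mul_le_mul_of_nonneg_left hrn (by positivity)
        have h5 : 0 ≤ η * n * (1 + 2 * K) * ((N / n : ℕ) : ℝ) := by positivity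
        nlinarith
      have h4 : P a0 ^ n ≤ P a0 ^ (N % n) :=
        pow_le_pow_of_le_one ha0.le ha1 (Nat.mod_lt N hn0).le
      rw [one_mul] at h2
      calc Real.exp (-(η0 * N)) ≤
          Real.exp (-(η * (1 + 2 * K) * N)) * Real.exp (-(η * (1 + 2 * K) * N)) := by
            rw [← Real.exp_add, Real.exp_le_exp]
            nlinarith
        _ ≤ _ := mul_le_mul h3 (h2.trans h4) (Real.exp_pos _).le (by positivity)
    obtain ⟨f, msg, d, hc0, hc1, hc2, hc3, hc4⟩ := h1 M A m hpA hA3 hA4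
    refine ⟨f, msg, d, hc0, fun e => ?_, hc2, hc3, hc4⟩
    refine (hc1 e).trans ?_
    have h3 : ((m e '' A).ncard : ℝ) ≤ 2 ^ ((N : ℝ) * (c e + 2 * η)) := by
      refine (hA2 e).trans ?_
      beta_reduce
      rw [mul_one, ← Real.rpow_mul_natCast (by norm_num)]
      refine two_mono ?_
      have h5 : (n : ℝ) * (c e + 2 * η) * ((N / n : ℕ) : ℝ) =
          (((N / n : ℕ) : ℝ) * n) * (c e + 2 * η) := by ring
      rw [h5]
      exact mul_le_mul_of_nonneg_right hrn (add_nonneg (hc e) (by positivity))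
    have hN3 : 1 ≤ (N : ℝ) * (ε / 2) := by
      have h4 : 2 / ε ≤ (N : ℝ) := (Nat.le_ceil _).trans (by exact_mod_cast hN2)
      rw [div_le_iff₀ hε] at h4
      linarith
    have h5 : (2 : ℝ) ^ ((N : ℝ) * (c e + ε)) =
        2 ^ ((N : ℝ) * (c e + ε / 2)) * 2 ^ ((N : ℝ) * (ε / 2)) := by
      rw [← Real.rpow_add (by norm_num)]
      congr 1
      ring
    have h6 : (2 : ℝ) ≤ 2 ^ ((N : ℝ) * (ε / 2)) := by
      have h7 : (2 : ℝ) ^ (1 : ℝ) ≤ 2 ^ ((N : ℝ) * (ε / 2)) := two_mono hN3
      rwa [Real.rpow_one] at h7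
    have h8 : (1 : ℝ) ≤ 2 ^ ((N : ℝ) * (c e + ε / 2)) :=
      Real.one_le_rpow (by norm_num) (mul_nonneg hNR (add_nonneg (hc e) (by positivity)))
    have h9 : (2 : ℝ) ^ ((N : ℝ) * (c e + 2 * η)) ≤ 2 ^ ((N : ℝ) * (c e + ε / 2)) := by
      refine two_mono (mul_le_mul_of_nonneg_left ?_ hNR)
      linarith
    rw [h5]
    nlinarith
  obtain ⟨N0, hN0⟩ := eventually_atTop.1 hev
  exact ⟨N0, hN0⟩

end Pool.Agent.Lib.NetAlg
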