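import Pool.Agent.Lib.NetAlg.Pr

/-!
# Marginals (paper, section 2) (size about 250)

`mS P S σ = P(τ = σ on S)`, `qS P A S z = P^N(x ∈ A, x = z on S)`, `upd z i y` = `z` with the coordinate `i` replaced by `y`.

`qS_univ`: `∏_n Σ_τ f n τ = Σ_x ∏_n f n (x n)` (`Finset.prod_univ_sum`, `Fintype.piFinset_univ`) with
`f n τ = if (τ = z n on S) then P τ else 0` (`Finset.prod_ite_zero` or `by_cases`).
`sum_qS`, `sum_mS`: for `i ∉ S` the sets `{x = upd z i y on insert i S}` (`y` varies) partition `{x = z on S}`: exchange the sums; for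
fixed `x` with `x = z on S` exactly one `y` (namely `fun n => x n i`) contributes.
`tower`: for `f` depending only on the coordinates of `insert i S`. Put `p = qS P univ`. Both sides are equal to
`Σ_x ∏P(x) * (p S x)⁻¹ * Σ_{x' = x on S} ∏P(x') f x'`: exchanging the sums, the factor of `∏P(x') f x'` is
`Σ_{x = x' on S} ∏P(x) / p S x' = 1` if `p S x' > 0` (and `∏P(x') = 0` otherwise, as `∏ P(x') ≤ p S x'`), which gives the left side;
splitting `Σ_{x' = x on S}` according to `y = fun n => x' n i` gives `Σ_y p (insert i S) (upd x i y) f (upd x i y)` (as `x' = upd x i y` on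
`insert i S`), and `p (insert i S) (upd x i y) / p S x = ∏_n mS (insert i S) (update (x n) i (y n)) / mS S (x n)` by `qS_univ`.
(If `p S x = 0` both are 0: `Finset.prod_div_distrib` holds with Lean's division.)
-/

namespace Pool.Agent.Lib.NetAlg

open Finset

variable {I : Type} [Fintype I] [DecidableEq I] {α : I → Type} [∀ i, Fintype (α i)]
  [∀ i, DecidableEq (α i)] {N : ℕ}

/-- the probability that a sample agrees with `σ` on `S` -/
def mS (P : (∀ i, α i) → ℝ) (S : Finset I) (σ : ∀ i, α i) : ℝ :=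
  ∑ τ, if (∀ j ∈ S, τ j = σ j) then P τ else 0

/-- the probability that a block is in `A` and agrees with `z` on `S` -/
noncomputable def qS (P : (∀ i, α i) → ℝ) (A : Set (Fin N → ∀ i, α i)) (S : Finset I)
    (z : Fin N → ∀ i, α i) : ℝ :=
  pr P (A ∩ {x | ∀ n, ∀ j ∈ S, x n j = z n j})

/-- replace the coordinate `i` of the block `z` by `y` -/
def upd (z : Fin N → ∀ i, α i) (i : I) (y : Fin N → α i) : Fin N → ∀ i, α i :=
  fun n => Function.update (z n) i (y n)

variable {P : (∀ i, α i) → ℝ}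

theorem qS_nonneg (hP : ∀ σ, 0 ≤ P σ) (A : Set (Fin N → ∀ i, α i)) (S : Finset I)
    (z : Fin N → ∀ i, α i) : 0 ≤ qS P A S z := by
  exact pr_nonneg hP _

theorem qS_le (hP : ∀ σ, 0 ≤ P σ) (A : Set (Fin N → ∀ i, α i)) (S : Finset I)
    (z : Fin N → ∀ i, α i) : qS P A S z ≤ qS P Set.univ S z := by
  refine pr_mono hP ?_
  exact Set.inter_subset_inter_left _ (Set.subset_univ A)

theorem qS_congr (A : Set (Fin N → ∀ i, α i)) (S : Finset I) (z z' : Fin N → ∀ i, α i)
    (h : ∀ n, ∀ j ∈ S, z n j = z' n j) : qS P A S z = qS P A S z' := by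
  unfold qS
  have h1 : {x : Fin N → ∀ i, α i | ∀ n, ∀ j ∈ S, x n j = z n j} =
      {x : Fin N → ∀ i, α i | ∀ n, ∀ j ∈ S, x n j = z' n j} := by
    ext x
    rw [Set.mem_ofPred_eq, Set.mem_ofPred_eq]
    constructor
    · intro hx n j hj
      rw [hx n j hj, h n j hj]
    · intro hx n j hj
      rw [hx n j hj, h n j hj]
  rw [h1]

theorem mS_congr (S : Finset I) (σ σ' : ∀ i, α i) (h : ∀ j ∈ S, σ j = σ' j) :
    mS P S σ = mS P S σ' := by
  unfold mS
  refine Finset.sum_congr rfl (fun τ _ => ?_)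
  by_cases h1 : ∀ j ∈ S, τ j = σ j
  · rw [if_pos h1, if_pos (fun j hj => (h1 j hj).trans (h j hj))]
  · rw [if_neg h1, if_neg (fun h2 => h1 (fun j hj => (h2 j hj).trans (h j hj).symm))]

theorem mS_nonneg (hP : ∀ σ, 0 ≤ P σ) (S : Finset I) (σ : ∀ i, α i) : 0 ≤ mS P S σ := by
  unfold mS
  refine Finset.sum_nonneg (fun τ _ => ?_)
  split_ifs
  · exact hP τ
  · exact le_rfl

theorem qS_empty (A : Set (Fin N → ∀ i, α i)) (z : Fin N → ∀ i, α i) : qS P A ∅ z = pr P A := by
  unfold qS
  have h1 : A ∩ {x : Fin N → ∀ i, α i | ∀ n, ∀ j ∈ (∅ : Finset I), x n j = z n j} = A := by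
    refine Set.inter_eq_left.mpr (fun x _ n j hj => ?_)
    exact absurd hj (Finset.notMem_empty j)
  rw [h1]

private theorem qS_univ_eq (S : Finset I) (z : Fin N → ∀ i, α i) :
    qS P Set.univ S z = ∑ x : Fin N → ∀ i, α i,
      if (∀ n, ∀ j ∈ S, x n j = z n j) then ∏ n, P (x n) else 0 := by
  unfold qS pr
  refine Finset.sum_congr rfl (fun x _ => ?_)
  by_cases h : ∀ n, ∀ j ∈ S, x n j = z n j
  · rw [if_pos h, Set.indicator_of_mem
      (show x ∈ Set.univ ∩ {x : Fin N → ∀ i, α i | ∀ n, ∀ j ∈ S, x n j = z n j} from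
        ⟨trivial, h⟩)]
  · rw [if_neg h, Set.indicator_of_notMem (fun hh => h hh.2)]

theorem qS_univ (S : Finset I) (z : Fin N → ∀ i, α i) :
    qS P Set.univ S z = ∏ n, mS P S (z n) := by
  rw [qS_univ_eq]
  unfold mS
  have h := Finset.prod_univ_sum (fun _ : Fin N => (univ : Finset (∀ i, α i)))
    (fun n τ => if (∀ j ∈ S, τ j = z n j) then P τ else 0)
  rw [Fintype.piFinset_univ] at h
  rw [h]
  refine Finset.sum_congr rfl (fun x _ => ?_)
  rw [Finset.prod_ite_zero]
  by_cases h1 : ∀ n, ∀ j ∈ S, x n j = z n j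
  · rw [if_pos h1, if_pos (fun n _ => h1 n)]
  · rw [if_neg h1, if_neg (fun h2 => h1 (fun n => h2 n (Finset.mem_univ n)))]

private theorem upd_agree (S : Finset I) (i : I) (hi : i ∉ S) (z x : Fin N → ∀ i, α i)
    (y : Fin N → α i) :
    (∀ n, ∀ j ∈ insert i S, x n j = upd z i y n j) ↔
      ((∀ n, ∀ j ∈ S, x n j = z n j) ∧ y = fun n => x n i) := by
  constructor
  · intro h
    refine ⟨fun n j hj => ?_, ?_⟩
    · have h1 := h n j (Finset.mem_insert_of_mem hj)
      have h2 : j ≠ i := fun h3 => hi (h3 ▸ hj)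
      rw [h1]
      unfold upd
      rw [Function.update_of_ne h2]
    · funext n
      have h1 := h n i (Finset.mem_insert_self i S)
      rw [h1]
      unfold upd
      rw [Function.update_self]
  · rintro ⟨h1, h2⟩ n j hj
    rw [h2]
    unfold upd
    by_cases h3 : j = i
    · subst h3
      rw [Function.update_self]
    · rw [Function.update_of_ne h3]
      rcases Finset.mem_insert.mp hj with h4 | h4
      · exact absurd h4 h3
      · exact h1 n j h4

theorem sum_qS (A : Set (Fin N → ∀ i, α i)) (S : Finset I) (i : I) (hi : i ∉ S)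
    (z : Fin N → ∀ i, α i) :
    ∑ y : Fin N → α i, qS P A (insert i S) (upd z i y) = qS P A S z := by
  unfold qS pr
  rw [Finset.sum_comm]
  refine Finset.sum_congr rfl (fun x _ => ?_)
  rw [Finset.sum_eq_single (fun n => x n i)]
  · by_cases h1 : x ∈ A ∩ {x : Fin N → ∀ i, α i | ∀ n, ∀ j ∈ S, x n j = z n j}
    · rw [Set.indicator_of_mem h1, Set.indicator_of_mem
        (show x ∈ A ∩ {x' : Fin N → ∀ i, α i | ∀ n, ∀ j ∈ insert i S,
          x' n j = upd z i (fun n => x n i) n j} from
          ⟨h1.1, (upd_agree S i hi z x _).mpr ⟨h1.2, rfl⟩⟩)]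
    · rw [Set.indicator_of_notMem h1, Set.indicator_of_notMem
        (fun h2 => h1 ⟨h2.1, ((upd_agree S i hi z x _).mp h2.2).1⟩)]
  · intro y _ hy
    exact Set.indicator_of_notMem (fun h2 => hy ((upd_agree S i hi z x y).mp h2.2).2) _
  · intro h
    exact absurd (Finset.mem_univ _) h

theorem sum_mS (S : Finset I) (i : I) (hi : i ∉ S) (σ : ∀ i, α i) :
    ∑ b : α i, mS P (insert i S) (Function.update σ i b) = mS P S σ := by
  unfold mS
  rw [Finset.sum_comm]
  refine Finset.sum_congr rfl (fun τ _ => ?_)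
  have key : ∀ b : α i, (∀ j ∈ insert i S, τ j = Function.update σ i b j) ↔
      ((∀ j ∈ S, τ j = σ j) ∧ b = τ i) := by
    intro b
    constructor
    · intro h
      refine ⟨fun j hj => ?_, ?_⟩
      · have h1 := h j (Finset.mem_insert_of_mem hj)
        have h2 : j ≠ i := fun h3 => hi (h3 ▸ hj)
        rw [h1, Function.update_of_ne h2]
      · have h1 := h i (Finset.mem_insert_self i S)
        rw [h1, Function.update_self]
    · rintro ⟨h1, h2⟩ j hj
      by_cases h3 : j = i
      · subst h3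
        rw [Function.update_self, h2]
      · rw [Function.update_of_ne h3]
        rcases Finset.mem_insert.mp hj with h4 | h4
        · exact absurd h4 h3
        · exact h1 j h4
  rw [Finset.sum_eq_single (τ i)]
  · by_cases h1 : ∀ j ∈ S, τ j = σ j
    · rw [if_pos h1, if_pos ((key _).mpr ⟨h1, rfl⟩)]
    · rw [if_neg h1, if_neg (fun h2 => h1 ((key _).mp h2).1)]
  · intro b _ hb
    exact if_neg (fun h2 => hb ((key b).mp h2).2)
  · intro h
    exact absurd (Finset.mem_univ _) h

theorem tower (hP : ∀ σ, 0 ≤ P σ) (S : Finset I) (i : I) (hi : i ∉ S)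
    (f : (Fin N → ∀ i, α i) → ℝ)
    (hf : ∀ x x', (∀ n, ∀ j ∈ insert i S, x n j = x' n j) → f x = f x') :
    ∑ x : Fin N → ∀ i, α i, (∏ n, P (x n)) * f x =
      ∑ x : Fin N → ∀ i, α i, (∏ n, P (x n)) * ∑ y : Fin N → α i,
        (∏ n, mS P (insert i S) (Function.update (x n) i (y n)) / mS P S (x n)) *
          f (upd x i y) := by
  classical
  -- the right side through qS
  have hR : ∀ x : Fin N → ∀ i, α i,
      (∑ y : Fin N → α i, (∏ n, mS P (insert i S) (Function.update (x n) i (y n)) /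
        mS P S (x n)) * f (upd x i y)) =
      (∑ x' : Fin N → ∀ i, α i, if (∀ n, ∀ j ∈ S, x' n j = x n j) then
        (∏ n, P (x' n)) * f x' else 0) / qS P Set.univ S x := by
    intro x
    have h1 : ∀ y : Fin N → α i, (∏ n, mS P (insert i S) (Function.update (x n) i (y n)) /
        mS P S (x n)) * f (upd x i y) =
        (qS P Set.univ (insert i S) (upd x i y) * f (upd x i y)) / qS P Set.univ S x := by
      intro y
      rw [Finset.prod_div_distrib, qS_univ, qS_univ]
      unfold upd
      ring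
    rw [Finset.sum_congr rfl (fun y _ => h1 y), ← Finset.sum_div]
    congr 1
    have h2 : ∀ y : Fin N → α i, qS P Set.univ (insert i S) (upd x i y) * f (upd x i y) =
        ∑ x' : Fin N → ∀ i, α i, if (∀ n, ∀ j ∈ insert i S, x' n j = upd x i y n j) then
          (∏ n, P (x' n)) * f x' else 0 := by
      intro y
      rw [qS_univ_eq, Finset.sum_mul]
      refine Finset.sum_congr rfl (fun x' _ => ?_)
      by_cases h3 : ∀ n, ∀ j ∈ insert i S, x' n j = upd x i y n j
      · rw [if_pos h3, if_pos h3, hf x' (upd x i y) h3]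
      · rw [if_neg h3, if_neg h3, zero_mul]
    rw [Finset.sum_congr rfl (fun y _ => h2 y), Finset.sum_comm]
    refine Finset.sum_congr rfl (fun x' _ => ?_)
    rw [Finset.sum_eq_single (fun n => x' n i)]
    · by_cases h3 : ∀ n, ∀ j ∈ S, x' n j = x n j
      · rw [if_pos h3, if_pos ((upd_agree S i hi x x' _).mpr ⟨h3, rfl⟩)]
      · rw [if_neg h3, if_neg (fun h4 => h3 ((upd_agree S i hi x x' _).mp h4).1)]
    · intro y _ hy
      exact if_neg (fun h4 => hy ((upd_agree S i hi x x' y).mp h4).2)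
    · intro h
      exact absurd (Finset.mem_univ _) h
  have hR2 : ∀ x : Fin N → ∀ i, α i,
      (∏ n, P (x n)) * (∑ y : Fin N → α i,
        (∏ n, mS P (insert i S) (Function.update (x n) i (y n)) / mS P S (x n)) *
          f (upd x i y)) =
      ∑ x' : Fin N → ∀ i, α i, ((∏ n, P (x' n)) * f x' / qS P Set.univ S x') *
        (if (∀ n, ∀ j ∈ S, x n j = x' n j) then ∏ n, P (x n) else 0) := by
    intro x
    rw [hR x, Finset.sum_div, Finset.mul_sum]
    refine Finset.sum_congr rfl (fun x' _ => ?_)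
    by_cases h3 : ∀ n, ∀ j ∈ S, x' n j = x n j
    · rw [if_pos h3, if_pos (fun n j hj => (h3 n j hj).symm), qS_congr Set.univ S x x'
        (fun n j hj => (h3 n j hj).symm)]
      ring
    · rw [if_neg h3, if_neg (fun h4 => h3 (fun n j hj => (h4 n j hj).symm))]
      ring
  rw [Finset.sum_congr rfl (fun x _ => hR2 x), Finset.sum_comm]
  refine Finset.sum_congr rfl (fun x' _ => ?_)
  rw [← Finset.mul_sum, ← qS_univ_eq]
  by_cases h0 : qS P Set.univ S x' = 0
  · have h1 : ∏ n, P (x' n) = 0 := by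
      refine le_antisymm ?_ (prod_nonneg' hP x')
      rw [← h0, qS_univ_eq]
      have h2 := Finset.single_le_sum
        (f := fun x : Fin N → ∀ i, α i =>
          if (∀ n, ∀ j ∈ S, x n j = x' n j) then ∏ n, P (x n) else 0)
        (fun x _ => by
          split_ifs
          · exact prod_nonneg' hP x
          · exact le_rfl) (Finset.mem_univ x')
      have h3 : (if (∀ n, ∀ j ∈ S, x' n j = x' n j) then ∏ n, P (x' n) else 0) =
          ∏ n, P (x' n) := if_pos (fun _ _ _ => rfl)
      exact h3.symm.le.trans h2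
    rw [h1, h0]
    ring
  · field_simp

end Pool.Agent.Lib.NetAlg
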