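import Pool.Agent.Lib.NetAlg.Defs

/-!
# Probabilities of sets of blocks: basic facts
-/

namespace Pool.Agent.Lib.NetAlg

open Finset

variable {Ω : Type} [Fintype Ω] {P : Ω → ℝ} {N : ℕ}

omit [Fintype Ω] in
theorem prod_nonneg' (hP : ∀ σ, 0 ≤ P σ) (x : Fin N → Ω) : 0 ≤ ∏ n, P (x n) :=
  Finset.prod_nonneg (fun n _ => hP (x n))

theorem pr_nonneg (hP : ∀ σ, 0 ≤ P σ) (A : Set (Fin N → Ω)) : 0 ≤ pr P A :=
  Finset.sum_nonneg (fun x _ => Set.indicator_nonneg (fun y _ => prod_nonneg' hP y) x)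

theorem pr_mono (hP : ∀ σ, 0 ≤ P σ) {A B : Set (Fin N → Ω)} (h : A ⊆ B) : pr P A ≤ pr P B :=
  Finset.sum_le_sum (fun x _ =>
    Set.indicator_le_indicator_of_subset h (fun y => prod_nonneg' hP y) x)

theorem sum_prod_eq_one (hP1 : ∑ σ, P σ = 1) : ∑ x : Fin N → Ω, ∏ n, P (x n) = 1 := by
  classical
  have h := Finset.prod_univ_sum (fun _ : Fin N => (univ : Finset Ω)) (fun _ σ => P σ)
  rw [Fintype.piFinset_univ] at h
  rw [← h, hP1, Finset.prod_const_one]

theorem pr_univ (hP1 : ∑ σ, P σ = 1) : pr P (Set.univ : Set (Fin N → Ω)) = 1 := by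
  unfold pr
  rw [Set.indicator_univ]
  exact sum_prod_eq_one hP1

theorem pr_le_one (hP : ∀ σ, 0 ≤ P σ) (hP1 : ∑ σ, P σ = 1) (A : Set (Fin N → Ω)) : pr P A ≤ 1 := by
  rw [← pr_univ (N := N) hP1]
  exact pr_mono hP (Set.subset_univ A)

theorem pr_union_le (hP : ∀ σ, 0 ≤ P σ) (A B : Set (Fin N → Ω)) :
    pr P (A ∪ B) ≤ pr P A + pr P B := by
  classical
  unfold pr
  rw [← Finset.sum_add_distrib]
  refine Finset.sum_le_sum (fun x _ => ?_)
  have h := prod_nonneg' hP x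
  by_cases hA : x ∈ A <;> by_cases hB : x ∈ B <;> simp [Set.indicator, hA, hB, h]

/-- the union bound -/
theorem pr_biUnion_le (hP : ∀ σ, 0 ≤ P σ) {ι : Type} (s : Finset ι) (A : ι → Set (Fin N → Ω)) :
    pr P {x | ∃ i ∈ s, x ∈ A i} ≤ ∑ i ∈ s, pr P (A i) := by
  classical
  induction s using Finset.induction_on with
  | empty =>
    have h : {x : Fin N → Ω | ∃ i ∈ (∅ : Finset ι), x ∈ A i} = ∅ := by
      ext x
      simp
    rw [h]
    unfold pr
    simp
  | insert a s ha ih =>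
    rw [Finset.sum_insert ha]
    refine le_trans (pr_mono hP (B := A a ∪ {x | ∃ i ∈ s, x ∈ A i}) ?_)
      (le_trans (pr_union_le hP _ _) (by linarith))
    rintro x ⟨i, hi, hx⟩
    rcases Finset.mem_insert.1 hi with h | h
    · rw [h] at hx
      exact Or.inl hx
    · exact Or.inr ⟨i, h, hx⟩

/-- the samples outside the support have probability 0 -/
theorem pr_inter_supp (hP : ∀ σ, 0 ≤ P σ) (A : Set (Fin N → Ω)) :
    pr P (A ∩ {x | ∀ n, 0 < P (x n)}) = pr P A := by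
  classical
  unfold pr
  refine Finset.sum_congr rfl (fun x _ => ?_)
  by_cases hA : x ∈ A
  · by_cases hx : ∀ n, 0 < P (x n)
    · rw [Set.indicator_of_mem hA, Set.indicator_of_mem
        (show x ∈ A ∩ {x : Fin N → Ω | ∀ n, 0 < P (x n)} from ⟨hA, hx⟩)]
    · rw [Set.indicator_of_mem hA, Set.indicator_of_notMem (fun h => hx h.2)]
      push Not at hx
      obtain ⟨n, hn⟩ := hx
      exact (Finset.prod_eq_zero (Finset.mem_univ n) (le_antisymm hn (hP _))).symm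
  · rw [Set.indicator_of_notMem hA, Set.indicator_of_notMem (fun h => hA h.1)]

/-- Markov's inequality -/
theorem pr_markov (hP : ∀ σ, 0 ≤ P σ) (f : (Fin N → Ω) → ℝ) (hf : ∀ x, 0 ≤ f x) {c : ℝ}
    (hc : 0 < c) (A : Set (Fin N → Ω)) (hA : ∀ x ∈ A, c ≤ f x) :
    pr P A ≤ (∑ x, (∏ n, P (x n)) * f x) / c := by
  classical
  rw [le_div_iff₀ hc]
  unfold pr
  rw [Finset.sum_mul]
  refine Finset.sum_le_sum (fun x _ => ?_)
  have h := prod_nonneg' hP x
  by_cases hx : x ∈ A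
  · rw [Set.indicator_of_mem hx]
    exact mul_le_mul_of_nonneg_left (hA x hx) h
  · rw [Set.indicator_of_notMem hx, zero_mul]
    exact mul_nonneg h (hf x)

end Pool.Agent.Lib.NetAlg
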