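import Pool.Agent.Lib.NetAlg.Step

/-!
# Motion into a set along a forest (paper, Proposition 2) (size about 200)

`sel`. `θ(L) = (L + 2 + L⁻¹)/4`, for `L = exp l`, `0 ≤ l ≤ Λ`: `θ = (1 + cosh l)/2 ≤ cosh Λ ≤ exp (Λ^2/2)` (`Real.cosh_le_exp_half_sq`,
`Real.cosh_eq`, `Real.cosh_le_cosh`), call `Θ = exp (Λ^2/2) ≥ 1`.
For `m : ℕ` prove by induction: there is `F` such that for all `i ∈ R` with `key i < m`:
(a) `∀ x x', (x = x' on T i) → F x n i = F x' n i`; (b) `∀ x, 0 < qS P A (T i) (F x)`;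
(c) `Σ_x ∏P(x) * (exp (Λ / 2^(T i).card))^(df (T i) x (F x)) / gS P A (T i) (F x) ≤ Θ^(N * (T i).card) / pr P A`.
`m = 0`: any `F` (identity). Step: if no `i ∈ R` has `key i = m` keep `F`. Otherwise `i` is unique (`hkey`); let `S = ∅` (if `T i = {i}`) or
`S = T j` (`T i = insert i (T j)`, `i ∉ T j`, so `key j < m`: `key j ≤ key i` by `h2` and `j ≠ i` since `j ∈ T j`). In both cases
`T i = insert i S`, `i ∉ S`, all elements `l` of `S` are in `R` with `T l ⊆ S` and `key l < m`, `F` satisfies the hypotheses of `step`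
for `S` (for `S = ∅`: `qS P A ∅ z = pr P A > 0`), and (c) holds for `S` (for `S = ∅`: `df = 0`, `gS = pr P A / 1`,
`Σ ∏ P = 1`). Apply `step` with `L = exp (Λ / 2^(T i).card)`, `L^2 = exp (Λ / 2^S.card)`, and put
`F' x n = if l = i then s x n else F x n l` (`upd (F x) i (s x)`). For the other processed `l ≠ i` we have `i ∉ T l` (`key i = m`), so nothing
changes (`qS_congr`, `df` only sees `T l`).
At the end (`m` larger than all keys): `F x n i` as wanted; (b) gives a point of `A` (`pr P (A ∩ ..) > 0` implies nonempty);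
(c): `pr_markov` with `f x = exp (Λ/2^card)^(df ..) / gS ..`, `gS ≤ 1`, `gS > 0`, `c = exp (Λ / 2^k * (η N))`
(if `η N < df` then `exp(Λ/2^k η N) ≤ exp(Λ/2^card)^df`, as `card ≤ k = Fintype.card I`), and `Θ^(N card) ≤ Θ^(N k)`.
-/

namespace Pool.Agent.Lib.NetAlg

open Finset

variable {I : Type} [Fintype I] [DecidableEq I] {α : I → Type} [∀ i, Fintype (α i)]
  [∀ i, DecidableEq (α i)] {N : ℕ}

private lemma gS_congr' (P : (∀ i, α i) → ℝ) (A : Set (Fin N → ∀ i, α i)) (S : Finset I)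
    (z z' : Fin N → ∀ i, α i) (h : ∀ n, ∀ j ∈ S, z n j = z' n j) : gS P A S z = gS P A S z' := by
  unfold gS
  rw [qS_congr A S z z' h, qS_congr Set.univ S z z' h]

omit [Fintype I] [DecidableEq I] [∀ i, Fintype (α i)] in
private lemma df_congr' (S : Finset I) (x x' y y' : Fin N → ∀ i, α i)
    (h : ∀ n, ∀ j ∈ S, x n j = x' n j) (h' : ∀ n, ∀ j ∈ S, y n j = y' n j) :
    df S x y = df S x' y' := by
  unfold df
  congr 1
  refine Finset.filter_congr (fun n _ => not_congr ?_)
  constructor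
  · intro hh j hj
    rw [← h n j hj, ← h' n j hj]
    exact hh j hj
  · intro hh j hj
    rw [h n j hj, h' n j hj]
    exact hh j hj

omit [Fintype I] [∀ i, Fintype (α i)] [∀ i, DecidableEq (α i)] in
private lemma upd_on' (S : Finset I) (i : I) (hi : i ∉ S) (z : Fin N → ∀ i, α i)
    (y : Fin N → α i) : ∀ n, ∀ j ∈ S, upd z i y n j = z n j := by
  intro n j hj
  have hji : j ≠ i := fun h => hi (h ▸ hj)
  unfold upd
  rw [Function.update_of_ne hji]

private lemma theta_le (Λ l : ℝ) (h0 : 0 ≤ l) (hl : l ≤ Λ) :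
    (Real.exp l + 2 + (Real.exp l)⁻¹) / 4 ≤ Real.exp (Λ ^ 2 / 2) := by
  have h1 : Real.cosh l ≤ Real.cosh Λ := by
    rw [Real.cosh_le_cosh, abs_of_nonneg h0, abs_of_nonneg (h0.trans hl)]
    exact hl
  have h2 := Real.cosh_le_exp_half_sq Λ
  have h3 := Real.one_le_cosh l
  have h4 : Real.exp l + (Real.exp l)⁻¹ = 2 * Real.cosh l := by
    rw [Real.cosh_eq, ← Real.exp_neg]
    ring
  have h5 : (Real.exp l + 2 + (Real.exp l)⁻¹) / 4 = (1 + Real.cosh l) / 2 := by
    rw [show Real.exp l + 2 + (Real.exp l)⁻¹ = (Real.exp l + (Real.exp l)⁻¹) + 2 by ring, h4]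
    ring
  rw [h5]
  linarith

/-- the invariants of the motion at the source `i` -/
private def Inv (P : (∀ i, α i) → ℝ) (A : Set (Fin N → ∀ i, α i)) (T : I → Finset I) (Λ : ℝ)
    (F : (Fin N → ∀ i, α i) → (Fin N → ∀ i, α i)) (i : I) : Prop :=
  (∀ x x', (∀ n, ∀ j ∈ T i, x n j = x' n j) → ∀ n, F x n i = F x' n i) ∧
  (∀ x, 0 < qS P A (T i) (F x)) ∧
  ∑ x, (∏ n, P (x n)) * (Real.exp (Λ / 2 ^ (T i).card) ^ (df (T i) x (F x)) /
    gS P A (T i) (F x)) ≤ Real.exp (Λ ^ 2 / 2) ^ (N * (T i).card) / pr P A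

private lemma extend (P : (∀ i, α i) → ℝ) (hP : ∀ σ, 0 ≤ P σ)
    (A : Set (Fin N → ∀ i, α i)) (hA : 0 < pr P A) (T : I → Finset I) (Λ : ℝ) (hΛ : 0 < Λ)
    (i : I) (S : Finset I) (hi : i ∉ S) (hT : T i = insert i S)
    (F : (Fin N → ∀ i, α i) → (Fin N → ∀ i, α i))
    (hF : ∀ x x', (∀ n, ∀ j ∈ S, x n j = x' n j) → ∀ n, ∀ j ∈ S, F x n j = F x' n j)
    (hpos : ∀ x, 0 < qS P A S (F x))
    (hc : ∑ x, (∏ n, P (x n)) * (Real.exp (Λ / 2 ^ S.card) ^ (df S x (F x)) /
      gS P A S (F x)) ≤ Real.exp (Λ ^ 2 / 2) ^ (N * S.card) / pr P A) :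
    ∃ s : (Fin N → ∀ i, α i) → (Fin N → α i), Inv P A T Λ (fun x => upd (F x) i (s x)) i := by
  have hcard : (T i).card = S.card + 1 := by
    rw [hT, Finset.card_insert_of_notMem hi]
  have h2 : (1 : ℝ) ≤ 2 ^ (T i).card := one_le_pow₀ (by norm_num)
  have hl0 : 0 ≤ Λ / 2 ^ (T i).card := div_nonneg hΛ.le (le_trans zero_le_one h2)
  have hl1 : Λ / 2 ^ (T i).card ≤ Λ := div_le_self hΛ.le h2
  obtain ⟨s, hs1, hs2, hs3⟩ := step P hP A S i hi F hF hpos (Real.exp (Λ / 2 ^ (T i).card))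
    (Real.one_le_exp hl0)
  refine ⟨s, ?_, ?_, ?_⟩
  · intro x x' h n
    have h3 : s x = s x' := hs1 x x' (fun n j hj => h n j (hT ▸ hj))
    simp only [upd, Function.update_self, h3]
  · intro x
    rw [hT]
    exact hs2 x
  · have h4 : Real.exp (Λ / 2 ^ (T i).card) ^ 2 = Real.exp (Λ / 2 ^ S.card) := by
      rw [← Real.exp_nat_mul, hcard, pow_succ]
      congr 1
      push_cast
      field_simp
    rw [h4] at hs3
    have h5 := theta_le Λ _ hl0 hl1
    have h6 : 0 ≤ (Real.exp (Λ / 2 ^ (T i).card) + 2 + (Real.exp (Λ / 2 ^ (T i).card))⁻¹) / 4 := by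
      positivity
    have h7 := pow_le_pow_left₀ h6 h5 N
    have h8 : (0 : ℝ) ≤ Real.exp (Λ ^ 2 / 2) ^ (N * S.card) / pr P A := by positivity
    have h9 : ((Real.exp (Λ / 2 ^ (T i).card) + 2 + (Real.exp (Λ / 2 ^ (T i).card))⁻¹) / 4) ^ N *
        ∑ x, (∏ n, P (x n)) * (Real.exp (Λ / 2 ^ S.card) ^ (df S x (F x)) / gS P A S (F x)) ≤
        Real.exp (Λ ^ 2 / 2) ^ (N * (T i).card) / pr P A := by
      refine le_trans (mul_le_mul_of_nonneg_left hc (pow_nonneg h6 N)) ?_
      refine le_trans (mul_le_mul_of_nonneg_right h7 h8) (le_of_eq ?_)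
      rw [hcard, Nat.mul_succ, pow_add]
      ring
    refine le_trans (le_of_eq ?_) (le_trans hs3 h9)
    rw [← hT]

theorem sel (P : (∀ i, α i) → ℝ) (hP : ∀ σ, 0 ≤ P σ) (hP1 : ∑ σ, P σ = 1)
    (A : Set (Fin N → ∀ i, α i)) (hA : 0 < pr P A)
    (R : Finset I) (T : I → Finset I) (key : I → ℕ) (hkey : Function.Injective key)
    (h1 : ∀ i ∈ R, i ∈ T i) (h2 : ∀ i ∈ R, ∀ j ∈ T i, j ∈ R ∧ T j ⊆ T i ∧ key j ≤ key i)
    (h3 : ∀ i ∈ R, T i = {i} ∨ ∃ j ∈ R, i ∉ T j ∧ T i = insert i (T j)) (Λ : ℝ) (hΛ : 0 < Λ) :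
    ∃ F : (Fin N → ∀ i, α i) → (Fin N → ∀ i, α i), ∀ i ∈ R,
      (∀ x x', (∀ n, ∀ j ∈ T i, x n j = x' n j) → ∀ n, F x n i = F x' n i) ∧
      (∀ x, ∃ a ∈ A, ∀ n, ∀ j ∈ T i, a n j = F x n j) ∧
      ∀ η : ℝ, 0 < η → pr P {x : Fin N → ∀ i, α i | η * N < (df (T i) x (F x) : ℝ)} ≤
        Real.exp (N * (-(Λ / 2 ^ Fintype.card I * η) + Fintype.card I * Λ ^ 2 / 2)) / pr P A := by
  classical
  have main : ∀ m : ℕ, ∃ F : (Fin N → ∀ i, α i) → (Fin N → ∀ i, α i),
      ∀ i ∈ R, key i < m → Inv P A T Λ F i := by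
    intro m
    induction m with
    | zero => exact ⟨id, fun i _ h => absurd h (Nat.not_lt_zero _)⟩
    | succ m ih =>
      obtain ⟨F, hF⟩ := ih
      by_cases hex : ∃ i ∈ R, key i = m
      · obtain ⟨i, hiR, him⟩ := hex
        obtain ⟨s, hs⟩ : ∃ s : (Fin N → ∀ i, α i) → (Fin N → α i),
            Inv P A T Λ (fun x => upd (F x) i (s x)) i := by
          rcases h3 i hiR with hT | ⟨j, hjR, hij, hT⟩
          · refine extend P hP A hA T Λ hΛ i ∅ (Finset.notMem_empty i) (by rw [hT]; rfl) F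
              (fun x x' _ n j hj => absurd hj (Finset.notMem_empty j))
              (fun x => by rw [qS_empty]; exact hA) ?_
            have hdf : ∀ x : Fin N → ∀ i, α i, df (∅ : Finset I) x (F x) = 0 := by
              intro x
              unfold df
              simp
            have hg : ∀ x : Fin N → ∀ i, α i, gS P A (∅ : Finset I) (F x) = pr P A := by
              intro x
              unfold gS
              rw [qS_empty, qS_empty, pr_univ hP1, div_one]
            simp only [hdf, hg, pow_zero]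
            rw [← Finset.sum_mul, sum_prod_eq_one hP1, one_mul]
            simp
          · have hjj := h1 j hjR
            have hne : j ≠ i := fun h => hij (h ▸ hjj)
            have hjT : j ∈ T i := by
              rw [hT]
              exact Finset.mem_insert_of_mem hjj
            have hjm : key j < m := by
              have h4 := (h2 i hiR j hjT).2.2
              rw [him] at h4
              exact lt_of_le_of_ne h4 (fun h => hne (hkey (h.trans him.symm)))
            refine extend P hP A hA T Λ hΛ i (T j) hij hT F ?_ (hF j hjR hjm).2.1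
              (hF j hjR hjm).2.2
            intro x x' h n l hl
            obtain ⟨hlR, hlT, hlk⟩ := h2 j hjR l hl
            exact (hF l hlR (lt_of_le_of_lt hlk hjm)).1 x x' (fun n j' hj' => h n j' (hlT hj')) n
        refine ⟨fun x => upd (F x) i (s x), fun l hlR hlm => ?_⟩
        by_cases hli : l = i
        · subst hli
          exact hs
        · have hlm' : key l < m :=
            lt_of_le_of_ne (Nat.lt_succ_iff.1 hlm) (fun h => hli (hkey (h.trans him.symm)))
          have hiT : i ∉ T l := by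
            intro h
            have h4 := (h2 l hlR i h).2.2
            omega
          obtain ⟨ha, hb, hc⟩ := hF l hlR hlm'
          have hon : ∀ x : Fin N → ∀ i, α i, ∀ n, ∀ j ∈ T l, F x n j = upd (F x) i (s x) n j :=
            fun x n j hj => (upd_on' (T l) i hiT (F x) (s x) n j hj).symm
          refine ⟨?_, ?_, ?_⟩
          · intro x x' h n
            exact ((hon x n l (h1 l hlR)).symm.trans (ha x x' h n)).trans (hon x' n l (h1 l hlR))
          · intro x
            rw [← qS_congr A (T l) _ _ (hon x)]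
            exact hb x
          · refine le_trans (le_of_eq ?_) hc
            refine Finset.sum_congr rfl (fun x _ => ?_)
            simp only []
            rw [← gS_congr' P A (T l) _ _ (hon x),
              ← df_congr' (T l) x x _ _ (fun _ _ _ => rfl) (hon x)]
      · refine ⟨F, fun l hlR hlm => hF l hlR ?_⟩
        exact lt_of_le_of_ne (Nat.lt_succ_iff.1 hlm) (fun h => hex ⟨l, hlR, h⟩)
  obtain ⟨F, hF⟩ := main (R.sup key + 1)
  refine ⟨F, fun i hiR => ?_⟩
  obtain ⟨ha, hb, hc⟩ := hF i hiR (Nat.lt_succ_of_le (Finset.le_sup hiR))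
  refine ⟨ha, ?_, ?_⟩
  · intro x
    have h4 := hb x
    by_contra hcon
    push Not at hcon
    have h5 : A ∩ {y : Fin N → ∀ i, α i | ∀ n, ∀ j ∈ T i, y n j = F x n j} = ∅ := by
      rw [Set.eq_empty_iff_forall_notMem]
      rintro a ⟨haA, hax⟩
      obtain ⟨n, j, hj, hne⟩ := hcon a haA
      exact hne (hax n j hj)
    have h6 : qS P A (T i) (F x) = 0 := by
      unfold qS
      rw [h5]
      unfold pr
      simp
    rw [h6] at h4
    exact lt_irrefl _ h4
  · intro η hη
    have hN : (0 : ℝ) ≤ N := Nat.cast_nonneg N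
    have hgp : ∀ x, 0 < gS P A (T i) (F x) := fun x =>
      div_pos (hb x) (lt_of_lt_of_le (hb x) (qS_le hP A _ _))
    have hg1 : ∀ x, gS P A (T i) (F x) ≤ 1 := fun x =>
      (div_le_one (lt_of_lt_of_le (hb x) (qS_le hP A _ _))).2 (qS_le hP A _ _)
    have hk : (T i).card ≤ Fintype.card I := Finset.card_le_univ _
    have h4 := pr_markov hP (fun x : Fin N → ∀ i, α i =>
        Real.exp (Λ / 2 ^ (T i).card) ^ (df (T i) x (F x)) / gS P A (T i) (F x))
      (fun x => div_nonneg (by positivity) (hgp x).le)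
      (Real.exp_pos (Λ / 2 ^ Fintype.card I * (η * N)))
      {x : Fin N → ∀ i, α i | η * N < (df (T i) x (F x) : ℝ)} (by
        intro x hx
        have hx' : η * N < (df (T i) x (F x) : ℝ) := hx
        have h5 : Real.exp (Λ / 2 ^ Fintype.card I * (η * N)) ≤
            Real.exp (Λ / 2 ^ (T i).card) ^ (df (T i) x (F x)) := by
          rw [← Real.exp_nat_mul, Real.exp_le_exp, mul_comm ((df (T i) x (F x) : ℕ) : ℝ)]
          have h6 : Λ / 2 ^ Fintype.card I ≤ Λ / 2 ^ (T i).card :=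
            div_le_div_of_nonneg_left hΛ.le (by positivity)
              (pow_le_pow_right₀ (by norm_num) hk)
          exact mul_le_mul h6 hx'.le (mul_nonneg hη.le hN) (by positivity)
        refine le_trans h5 ?_
        rw [le_div_iff₀ (hgp x)]
        exact mul_le_of_le_one_right (by positivity) (hg1 x))
    refine le_trans h4 ?_
    rw [div_le_iff₀ (Real.exp_pos _)]
    refine le_trans hc ?_
    rw [div_mul_eq_mul_div, ← Real.exp_add]
    refine div_le_div_of_nonneg_right ?_ hA.le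
    rw [← Real.exp_nat_mul, Real.exp_le_exp]
    push_cast
    have h7 : ((T i).card : ℝ) ≤ Fintype.card I := by exact_mod_cast hk
    have h8 : (N : ℝ) * (T i).card * (Λ ^ 2 / 2) ≤ N * Fintype.card I * (Λ ^ 2 / 2) :=
      mul_le_mul_of_nonneg_right (mul_le_mul_of_nonneg_left h7 hN) (by positivity)
    refine le_trans h8 (le_of_eq ?_)
    ring

end Pool.Agent.Lib.NetAlg
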