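import Pool.Agent.Lib.NetAlg.Defs

/-!
# Blowing up for densities (paper, section 1) (size about 150)

`tal0` (Lemma 0): `(L - h)(1 - v) ≥ 0` gives `h + L v ≤ L + h v ≤ L + 1`; with `X = Σ w h`, `Y = Σ w L v`:
`X Y ≤ ((X + Y)/2)^2 ≤ ((L+1)/2)^2` (as `0 ≤ X + Y = Σ w (h + L v) ≤ (L + 1) Σ w ≤ L + 1`); divide by `L`.

`tal` (Lemma 1): induction on `N`. `N = 0`: `s = id`, all sums have one term, `hammingDist = 0`, `D = ∅`.
Step `N + 1`: write `y = Fin.cons b z` (`Fin.consEquiv`, `Fin.prod_univ_succ`; sum over `Fin (N+1) → β` = sum over `b` of sum over `z`,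
for instance `Fintype.sum_equiv (Fin.consEquiv ..)` and `Fintype.sum_prod_type`), `g_b z = g (cons b z)`,
`G b = Σ_z (∏ w' ) g_b z` where `w' n = w n.succ`, `b'` with `G b'` maximal (`Finset.exists_max_image`), `G b' > 0`,
`D' = univ.filter (fun n => n.succ ∈ D)`, `T = θ^N L^|D'| > 0`, `θ = (L + 2 + L⁻¹)/4 ≥ 1`.
For `b` with `G b > 0` the induction hypothesis gives `s_b` and `A_b = Σ_z (∏ u') L^(hammingDist z (s_b z)) / g_b (s_b z)` with
`A_b * G b ≤ T` (choose `s_b`, `A_b` for all `b` with `choose` from a statement with an implication).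
`s (cons b z) = cons b (s_b z)` if `G b > 0 ∧ A_b ≤ L * A_b'`, otherwise `cons b' (s_b' z)`. Put `h b = A_b` resp. `L * A_b'`. Then the
first factor is `≤ Σ_b u 0 b * h b` (in the second case `hammingDist (cons b z) (cons b' z') ≤ 1 + hammingDist z z'`, `L ≥ 1`),
`h b ≤ L * A_b' ≤ L * T / G b'`, and `h b * G b ≤ T` (second case: `G b = 0`, or `L A_b' < A_b` and `A_b G b ≤ T`).
If `0 ∈ D`: `(Σ u h)(Σ w G) ≤ (L T / G b') * G b' = L T ≤ θ L T` and `|D| = |D'| + 1`.
If `0 ∉ D`: `u 0 = w 0`, `tal0` with `h b * G b' / T` and `v b = G b / G b'` gives `≤ θ T`, and `|D| = |D'|`.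
-/

namespace Pool.Agent.Lib.NetAlg

open Finset

theorem tal0 {β : Type} [Fintype β] (L : ℝ) (hL : 1 ≤ L) (w h v : β → ℝ) (hw : ∀ b, 0 ≤ w b)
    (hw1 : ∑ b, w b ≤ 1) (hh : ∀ b, 0 ≤ h b) (hhL : ∀ b, h b ≤ L) (hv : ∀ b, 0 ≤ v b)
    (hv1 : ∀ b, v b ≤ 1) (hhv : ∀ b, h b * v b ≤ 1) :
    (∑ b, w b * h b) * (∑ b, w b * v b) ≤ (L + 2 + L⁻¹) / 4 := by
  have hL0 : 0 < L := by linarith
  set X := ∑ b, w b * h b with hX
  set Y := ∑ b, w b * v b with hY
  have hX0 : 0 ≤ X := Finset.sum_nonneg fun b _ => mul_nonneg (hw b) (hh b)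
  have hY0 : 0 ≤ Y := Finset.sum_nonneg fun b _ => mul_nonneg (hw b) (hv b)
  have hs : X + L * Y ≤ L + 1 := by
    have h1 : X + L * Y = ∑ b, w b * (h b + L * v b) := by
      rw [hX, hY, Finset.mul_sum, ← Finset.sum_add_distrib]
      refine Finset.sum_congr rfl fun b _ => ?_
      ring
    rw [h1]
    have h2 : ∑ b, w b * (h b + L * v b) ≤ ∑ b, w b * (L + 1) := by
      refine Finset.sum_le_sum fun b _ => mul_le_mul_of_nonneg_left ?_ (hw b)
      nlinarith [mul_nonneg (sub_nonneg.2 (hhL b)) (sub_nonneg.2 (hv1 b)), hhv b]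
    rw [← Finset.sum_mul] at h2
    have h3 : (∑ b, w b) * (L + 1) ≤ 1 * (L + 1) :=
      mul_le_mul_of_nonneg_right hw1 (by linarith)
    linarith
  have h4 : X * (L * Y) ≤ ((L + 1) / 2) ^ 2 := by
    have h5 : 0 ≤ X + L * Y := by positivity
    have h6 : (X + L * Y) ^ 2 ≤ (L + 1) ^ 2 := pow_le_pow_left₀ h5 hs 2
    nlinarith [sq_nonneg (X - L * Y)]
  have h7 : X * Y = (X * (L * Y)) * L⁻¹ := by
    field_simp
  rw [h7]
  have h8 : (L + 2 + L⁻¹) / 4 = ((L + 1) / 2) ^ 2 * L⁻¹ := by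
    field_simp
    ring
  rw [h8]
  exact mul_le_mul_of_nonneg_right h4 (by positivity)

private theorem tal_sum_cons {β : Type} [Fintype β] {N : ℕ} (F : (Fin (N + 1) → β) → ℝ) :
    ∑ y, F y = ∑ b : β, ∑ z : Fin N → β, F (Fin.cons b z : Fin (N + 1) → β) := by
  rw [← Fintype.sum_prod_type' (f := fun (b : β) (z : Fin N → β) =>
    F (Fin.cons b z : Fin (N + 1) → β))]
  exact (Fintype.sum_equiv (Fin.consEquiv (fun _ : Fin (N + 1) => β)) _ _
    (fun p => rfl)).symm

private theorem tal_prod_cons {β : Type} {N : ℕ} (w : Fin (N + 1) → β → ℝ) (b : β)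
    (z : Fin N → β) :
    ∏ n, w n ((Fin.cons b z : Fin (N + 1) → β) n) = w 0 b * ∏ n, w (Fin.succ n) (z n) := by
  rw [Fin.prod_univ_succ]
  rfl

private theorem tal_hd_cons {β : Type} [DecidableEq β] {N : ℕ} (a b : β) (x y : Fin N → β) :
    hammingDist (Fin.cons a x : Fin (N + 1) → β) (Fin.cons b y : Fin (N + 1) → β)
      = (if a ≠ b then 1 else 0) + hammingDist x y := by
  unfold hammingDist
  rw [Finset.card_filter, Finset.card_filter, Fin.sum_univ_succ]
  rfl

private theorem tal_card {N : ℕ} (D : Finset (Fin (N + 1))) :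
    D.card = (if (0 : Fin (N + 1)) ∈ D then 1 else 0)
      + (univ.filter (fun n : Fin N => n.succ ∈ D)).card := by
  have h1 : D.card = (univ.filter (fun n : Fin (N + 1) => n ∈ D)).card := by
    congr 1
    ext n
    simp
  rw [h1, Finset.card_filter, Finset.card_filter, Fin.sum_univ_succ]

private theorem tal_step {β : Type} [Fintype β] [DecidableEq β] (L : ℝ) (hL : 1 ≤ L) (N : ℕ)
    (ih : ∀ (u w : Fin N → β → ℝ), (∀ n b, 0 ≤ u n b) → (∀ n b, 0 ≤ w n b) →
      (∀ n, ∑ b, u n b ≤ 1) → (∀ n, ∑ b, w n b ≤ 1) → ∀ (D : Finset (Fin N)),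
      (∀ n, n ∉ D → u n = w n) → ∀ (g : (Fin N → β) → ℝ), (∀ y, 0 ≤ g y) →
      (0 < ∑ y, (∏ n, w n (y n)) * g y) →
      ∃ s : (Fin N → β) → (Fin N → β), (∀ y, 0 < g (s y)) ∧
        (∑ y, (∏ n, u n (y n)) * (L ^ (hammingDist y (s y)) / g (s y))) *
          (∑ y, (∏ n, w n (y n)) * g y) ≤ ((L + 2 + L⁻¹) / 4) ^ N * L ^ D.card)
    (u w : Fin (N + 1) → β → ℝ) (hu : ∀ n b, 0 ≤ u n b) (hw : ∀ n b, 0 ≤ w n b)
    (hu1 : ∀ n, ∑ b, u n b ≤ 1) (hw1 : ∀ n, ∑ b, w n b ≤ 1) (D : Finset (Fin (N + 1)))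
    (hD : ∀ n, n ∉ D → u n = w n) (g : (Fin (N + 1) → β) → ℝ) (hg : ∀ y, 0 ≤ g y)
    (hpos : 0 < ∑ y, (∏ n, w n (y n)) * g y) :
    ∃ s : (Fin (N + 1) → β) → (Fin (N + 1) → β), (∀ y, 0 < g (s y)) ∧
      (∑ y, (∏ n, u n (y n)) * (L ^ (hammingDist y (s y)) / g (s y))) *
        (∑ y, (∏ n, w n (y n)) * g y) ≤ ((L + 2 + L⁻¹) / 4) ^ (N + 1) * L ^ D.card := by
  have hL0 : 0 < L := by linarith
  set θ : ℝ := (L + 2 + L⁻¹) / 4 with hθ
  have hθ1 : 1 ≤ θ := by
    have h1 : θ = ((L + 1) ^ 2) / (4 * L) := by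
      rw [hθ]
      field_simp
      ring
    rw [h1, le_div_iff₀ (by positivity)]
    nlinarith [sq_nonneg (L - 1)]
  set D' : Finset (Fin N) := univ.filter (fun n : Fin N => n.succ ∈ D) with hD'
  set T : ℝ := θ ^ N * L ^ D'.card with hT
  have hT0 : 0 < T := by positivity
  set G : β → ℝ := fun b => ∑ z : Fin N → β, (∏ n, w (Fin.succ n) (z n)) *
    g (Fin.cons b z : Fin (N + 1) → β) with hG
  have hG0 : ∀ b, 0 ≤ G b := fun b => Finset.sum_nonneg fun z _ =>
    mul_nonneg (Finset.prod_nonneg fun n _ => hw _ _) (hg _)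
  have hsumw : ∑ y, (∏ n, w n (y n)) * g y = ∑ b, w 0 b * G b := by
    rw [tal_sum_cons]
    refine Finset.sum_congr rfl fun b _ => ?_
    rw [hG, Finset.mul_sum]
    refine Finset.sum_congr rfl fun z _ => ?_
    rw [tal_prod_cons]
    ring
  rw [hsumw] at hpos
  obtain ⟨b₀, -, hb₀⟩ : ∃ b ∈ (univ : Finset β), 0 < w 0 b * G b := by
    by_contra hcon
    push Not at hcon
    exact absurd hpos (not_lt.2 (Finset.sum_nonpos hcon))
  have hb₀G : 0 < G b₀ := by
    rcases (hG0 b₀).lt_or_eq with h | h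
    · exact h
    · rw [← h, mul_zero] at hb₀
      exact absurd hb₀ (lt_irrefl _)
  obtain ⟨b', -, hb'⟩ := Finset.exists_max_image (univ : Finset β) G ⟨b₀, mem_univ _⟩
  have hb'G : 0 < G b' := lt_of_lt_of_le hb₀G (hb' b₀ (mem_univ _))
  have key : ∀ b, ∃ s : (Fin N → β) → (Fin N → β), 0 < G b →
      ((∀ y, 0 < g (Fin.cons b (s y) : Fin (N + 1) → β)) ∧
      (∑ y, (∏ n, u (Fin.succ n) (y n)) * (L ^ (hammingDist y (s y)) /
        g (Fin.cons b (s y) : Fin (N + 1) → β))) * G b ≤ T) := by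
    intro b
    by_cases hb : 0 < G b
    · obtain ⟨s, hs1, hs2⟩ := ih (fun n => u n.succ) (fun n => w n.succ) (fun n b => hu _ _)
        (fun n b => hw _ _) (fun n => hu1 _) (fun n => hw1 _) D'
        (fun n hn => hD _ (by simpa [hD'] using hn)) (fun z => g (Fin.cons b z : Fin (N + 1) → β))
        (fun z => hg _) hb
      exact ⟨s, fun _ => ⟨hs1, hs2⟩⟩
    · exact ⟨id, fun h => absurd h hb⟩
  choose S hS using key
  set A : β → ℝ := fun b => ∑ z : Fin N → β, (∏ n, u (Fin.succ n) (z n)) *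
    (L ^ (hammingDist z (S b z)) / g (Fin.cons b (S b z) : Fin (N + 1) → β)) with hA
  have hA0 : ∀ b, 0 ≤ A b := fun b => Finset.sum_nonneg fun z _ =>
    mul_nonneg (Finset.prod_nonneg fun n _ => hu _ _) (div_nonneg (by positivity) (hg _))
  have hAT : ∀ b, 0 < G b → A b * G b ≤ T := fun b hb => (hS b hb).2
  set h : β → ℝ := fun b => if 0 < G b ∧ A b ≤ L * A b' then A b else L * A b' with hh
  have hh0 : ∀ b, 0 ≤ h b := by
    intro b
    rw [hh]
    dsimp only
    split_ifs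
    · exact hA0 b
    · exact mul_nonneg hL0.le (hA0 b')
  have hhle : ∀ b, h b ≤ L * A b' := by
    intro b
    rw [hh]
    dsimp only
    split_ifs with hc
    · exact hc.2
    · exact le_refl _
  have hhG : ∀ b, h b * G b ≤ T := by
    intro b
    rw [hh]
    dsimp only
    split_ifs with hc
    · exact hAT b hc.1
    · rcases (hG0 b).lt_or_eq with hb | hb
      · have h1 : L * A b' ≤ A b := by
          by_contra hcon
          exact hc ⟨hb, (not_le.1 hcon).le⟩
        exact le_trans (mul_le_mul_of_nonneg_right h1 (hG0 b)) (hAT b hb)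
      · rw [← hb, mul_zero]
        exact hT0.le
  refine ⟨fun y => if 0 < G (y 0) ∧ A (y 0) ≤ L * A b' then
    (Fin.cons (y 0) (S (y 0) (Fin.tail y)) : Fin (N + 1) → β) else
    (Fin.cons b' (S b' (Fin.tail y)) : Fin (N + 1) → β), ?_, ?_⟩
  · intro y
    dsimp only
    split_ifs with hc
    · exact (hS _ hc.1).1 _
    · exact (hS _ hb'G).1 _
  have hsumu : ∑ y : Fin (N + 1) → β, (∏ n, u n (y n)) *
      (L ^ (hammingDist y (if 0 < G (y 0) ∧ A (y 0) ≤ L * A b' then
        (Fin.cons (y 0) (S (y 0) (Fin.tail y)) : Fin (N + 1) → β) else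
        (Fin.cons b' (S b' (Fin.tail y)) : Fin (N + 1) → β))) /
        g (if 0 < G (y 0) ∧ A (y 0) ≤ L * A b' then
        (Fin.cons (y 0) (S (y 0) (Fin.tail y)) : Fin (N + 1) → β) else
        (Fin.cons b' (S b' (Fin.tail y)) : Fin (N + 1) → β))) ≤ ∑ b, u 0 b * h b := by
    rw [tal_sum_cons]
    refine Finset.sum_le_sum fun b _ => ?_
    have hz : ∀ z : Fin N → β, (Fin.cons b z : Fin (N + 1) → β) 0 = b := fun z => rfl
    have ht : ∀ z : Fin N → β, Fin.tail (Fin.cons b z : Fin (N + 1) → β) = z := fun z =>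
      Fin.tail_cons _ _
    simp only [hz, ht, tal_prod_cons]
    rw [hh]
    dsimp only
    by_cases hc : 0 < G b ∧ A b ≤ L * A b'
    · simp only [if_pos hc]
      rw [hA]
      dsimp only
      rw [Finset.mul_sum]
      refine Finset.sum_le_sum fun z _ => ?_
      rw [tal_hd_cons, if_neg (by simp), zero_add]
      exact le_of_eq (by ring)
    · simp only [if_neg hc]
      rw [hA]
      dsimp only
      rw [Finset.mul_sum, Finset.mul_sum]
      refine Finset.sum_le_sum fun z _ => ?_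
      have hgpos : 0 < g (Fin.cons b' (S b' z) : Fin (N + 1) → β) := (hS _ hb'G).1 _
      have h1 : L ^ (hammingDist (Fin.cons b z : Fin (N + 1) → β)
          (Fin.cons b' (S b' z) : Fin (N + 1) → β)) ≤ L * L ^ (hammingDist z (S b' z)) := by
        rw [tal_hd_cons, ← pow_succ']
        refine pow_le_pow_right₀ hL ?_
        split_ifs <;> omega
      have h2 : L ^ (hammingDist (Fin.cons b z : Fin (N + 1) → β)
          (Fin.cons b' (S b' z) : Fin (N + 1) → β)) /
            g (Fin.cons b' (S b' z) : Fin (N + 1) → β) ≤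
          L * (L ^ (hammingDist z (S b' z)) /
            g (Fin.cons b' (S b' z) : Fin (N + 1) → β)) := by
        rw [← mul_div_assoc]
        exact div_le_div_of_nonneg_right h1 hgpos.le
      have h3 : 0 ≤ u 0 b * ∏ n, u (Fin.succ n) (z n) :=
        mul_nonneg (hu _ _) (Finset.prod_nonneg fun n _ => hu _ _)
      refine le_trans (mul_le_mul_of_nonneg_left h2 h3) (le_of_eq ?_)
      ring
  have hWG0 : 0 ≤ ∑ b, w 0 b * G b := hpos.le
  rw [hsumw]
  refine le_trans (mul_le_mul_of_nonneg_right hsumu hWG0) ?_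
  by_cases h0 : (0 : Fin (N + 1)) ∈ D
  · have hcard : D.card = D'.card + 1 := by
      rw [tal_card D, if_pos h0, ← hD', add_comm]
    have h1 : ∑ b, u 0 b * h b ≤ L * A b' := by
      have h2 : ∑ b, u 0 b * h b ≤ ∑ b, u 0 b * (L * A b') :=
        Finset.sum_le_sum fun b _ => mul_le_mul_of_nonneg_left (hhle b) (hu _ _)
      rw [← Finset.sum_mul] at h2
      have h3 : (∑ b, u 0 b) * (L * A b') ≤ 1 * (L * A b') :=
        mul_le_mul_of_nonneg_right (hu1 0) (mul_nonneg hL0.le (hA0 b'))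
      linarith
    have h4 : ∑ b, w 0 b * G b ≤ G b' := by
      have h2 : ∑ b, w 0 b * G b ≤ ∑ b, w 0 b * G b' :=
        Finset.sum_le_sum fun b _ => mul_le_mul_of_nonneg_left (hb' b (mem_univ _)) (hw _ _)
      rw [← Finset.sum_mul] at h2
      have h3 : (∑ b, w 0 b) * G b' ≤ 1 * G b' :=
        mul_le_mul_of_nonneg_right (hw1 0) hb'G.le
      linarith
    have h5 : (∑ b, u 0 b * h b) * (∑ b, w 0 b * G b) ≤ (L * A b') * G b' :=
      mul_le_mul h1 h4 hWG0 (mul_nonneg hL0.le (hA0 b'))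
    have h6 : (L * A b') * G b' ≤ L * T := by
      have := hAT b' hb'G
      nlinarith
    have h7 : θ ^ (N + 1) * L ^ D.card = θ * (L * T) := by
      rw [hcard, hT]
      ring
    rw [h7]
    have h8 : 0 ≤ L * T := by positivity
    nlinarith
  · have hcard : D.card = D'.card := by
      rw [tal_card D, if_neg h0, ← hD', zero_add]
    have hu0 : u 0 = w 0 := hD 0 h0
    rw [hu0]
    have hB := tal0 L hL (w 0) (fun b => h b * G b' / T) (fun b => G b / G b') (hw 0) (hw1 0)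
      (fun b => div_nonneg (mul_nonneg (hh0 b) hb'G.le) hT0.le)
      (fun b => by
        rw [div_le_iff₀ hT0]
        have h1 := hAT b' hb'G
        have h2 : h b * G b' ≤ (L * A b') * G b' :=
          mul_le_mul_of_nonneg_right (hhle b) hb'G.le
        nlinarith)
      (fun b => div_nonneg (hG0 b) hb'G.le)
      (fun b => by
        rw [div_le_one hb'G]
        exact hb' b (mem_univ _))
      (fun b => by
        have h1 : h b * G b' / T * (G b / G b') = (h b * G b) / T := by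
          field_simp
        rw [h1, div_le_one hT0]
        exact hhG b)
    have h2 : (∑ b, w 0 b * (h b * G b' / T)) * (∑ b, w 0 b * (G b / G b'))
        = ((∑ b, w 0 b * h b) * (∑ b, w 0 b * G b)) / T := by
      have e1 : ∑ b, w 0 b * (h b * G b' / T) = (∑ b, w 0 b * h b) * (G b' / T) := by
        rw [Finset.sum_mul]
        refine Finset.sum_congr rfl fun b _ => ?_
        ring
      have e2 : ∑ b, w 0 b * (G b / G b') = (∑ b, w 0 b * G b) * (G b')⁻¹ := by
        rw [Finset.sum_mul]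
        refine Finset.sum_congr rfl fun b _ => ?_
        rw [div_eq_mul_inv]
        ring
      rw [e1, e2]
      field_simp
    rw [h2, div_le_iff₀ hT0] at hB
    have h7 : θ ^ (N + 1) * L ^ D.card = θ * T := by
      rw [hcard, hT]
      ring
    rw [h7]
    exact hB

theorem tal {β : Type} [Fintype β] [DecidableEq β] (L : ℝ) (hL : 1 ≤ L) (N : ℕ)
    (u w : Fin N → β → ℝ) (hu : ∀ n b, 0 ≤ u n b) (hw : ∀ n b, 0 ≤ w n b)
    (hu1 : ∀ n, ∑ b, u n b ≤ 1) (hw1 : ∀ n, ∑ b, w n b ≤ 1) (D : Finset (Fin N))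
    (hD : ∀ n, n ∉ D → u n = w n) (g : (Fin N → β) → ℝ) (hg : ∀ y, 0 ≤ g y)
    (hpos : 0 < ∑ y, (∏ n, w n (y n)) * g y) :
    ∃ s : (Fin N → β) → (Fin N → β), (∀ y, 0 < g (s y)) ∧
      (∑ y, (∏ n, u n (y n)) * (L ^ (hammingDist y (s y)) / g (s y))) *
        (∑ y, (∏ n, w n (y n)) * g y) ≤ ((L + 2 + L⁻¹) / 4) ^ N * L ^ D.card := by
  induction N with
  | zero =>
    rw [Fintype.sum_unique] at hpos
    simp only [Finset.univ_eq_empty, Finset.prod_empty, one_mul] at hpos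
    have hpos' : ∀ y : Fin 0 → β, 0 < g y := fun y => by
      rw [Subsingleton.elim y default]
      exact hpos
    refine ⟨id, fun y => hpos' _, ?_⟩
    rw [Fintype.sum_unique, Fintype.sum_unique]
    simp only [Finset.univ_eq_empty, Finset.prod_empty, one_mul, id, hammingDist_self, pow_zero]
    rw [one_div, inv_mul_cancel₀ (hpos' _).ne']
    exact one_le_pow₀ hL
  | succ N ih =>
    exact tal_step L hL N (fun u w hu hw hu1 hw1 D hD g hg hpos =>
      ih u w hu hw hu1 hw1 D hD g hg hpos) u w hu hw hu1 hw1 D hD g hg hpos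

end Pool.Agent.Lib.NetAlg
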