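import Pool.Agent.Lib.NetAlg.Mar
import Pool.Agent.Lib.NetAlg.Tal

/-!
# One step of the motion along the forest (paper, section 2) (size about 200)

`gS P A S z = qS P A S z / qS P univ S z`.
Fix a default block `z0` (if there is none everything is trivial: use `F x`/`x` itself) and let `rep x = ` the block equal to `x` on `S` and to
`z0` elsewhere; `rep x = rep x'` if `x = x'` on `S`. For every block `r` apply `tal` with `β = α i`,
`u n b = mS (insert i S) (update (r n) i b) / mS S (r n)`, `w n b` = the same with `F r n`, `D = {n | r n, F r n differ on S}`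
(for `n ∉ D` they agree on `S`, so `u n = w n` by `mS_congr`: the updated samples agree on `insert i S`),
`g y = gS P A (insert i S) (upd (F r) i y)`. `sum_mS` gives `Σ_b u n b = 1` or `0`, so `≤ 1` (`div_self_le_one`).
`Σ_y w(y) g(y) = gS P A S (F r) > 0`: `w(y) = qS univ (insert i S) (upd (F r) i y) / qS univ S (F r)` by `qS_univ`
(`Finset.prod_div_distrib`), the product with `g(y)` is `qS A (insert i S) (upd ..) / qS univ S (F r)` (if the denominator
`qS univ (insert i S) (upd ..)` is 0 then `qS A .. = 0` by `qS_le`), and `sum_qS`. Choose `s_r` and put `s x = s_(rep x) (fun n => x n i)`.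
(1) clear. (2) `gS > 0` implies `qS > 0`. (3) the summand on the left is a function of the coordinates of `insert i S` only; `tower`;
`df (insert i S) (upd x i y) (upd (F x) i (s_x y)) ≤ df S x (F x) + hammingDist y (s_x y)`; then `tal` for `r = rep x`
(`u`, `w`, `D`, `g` for `rep x` and for `x` are the same, since `F (rep x) = F x` on `S`):
`Σ_y u(y) L^(hammingDist y (s y)) / g(s y) ≤ θ^N L^(df S x (F x)) / gS P A S (F x)`.
-/

namespace Pool.Agent.Lib.NetAlg

open Finset

variable {I : Type} [Fintype I] [DecidableEq I] {α : I → Type} [∀ i, Fintype (α i)]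
  [∀ i, DecidableEq (α i)] {N : ℕ}

/-- conditional probability of `A` given that the block agrees with `z` on `S` -/
noncomputable def gS (P : (∀ i, α i) → ℝ) (A : Set (Fin N → ∀ i, α i)) (S : Finset I)
    (z : Fin N → ∀ i, α i) : ℝ :=
  qS P A S z / qS P Set.univ S z

private lemma gS_congr (P : (∀ i, α i) → ℝ) (A : Set (Fin N → ∀ i, α i)) (S : Finset I)
    (z z' : Fin N → ∀ i, α i) (h : ∀ n, ∀ j ∈ S, z n j = z' n j) : gS P A S z = gS P A S z' := by
  unfold gS
  rw [qS_congr A S z z' h, qS_congr Set.univ S z z' h]

omit [Fintype I] [DecidableEq I] [∀ i, Fintype (α i)] in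
private lemma df_congr (S : Finset I) (x x' y y' : Fin N → ∀ i, α i)
    (h : ∀ n, ∀ j ∈ S, x n j = x' n j) (h' : ∀ n, ∀ j ∈ S, y n j = y' n j) :
    df S x y = df S x' y' := by
  unfold df
  congr 1
  refine Finset.filter_congr (fun n _ => not_congr ?_)
  constructor
  · intro hh j hj
    rw [← h n j hj, ← h' n j hj]
    exact hh j hj
  · intro hh j hj
    rw [h n j hj, h' n j hj]
    exact hh j hj

omit [Fintype I] [∀ i, Fintype (α i)] [∀ i, DecidableEq (α i)] in
private lemma upd_congr (S : Finset I) (i : I) (z z' : Fin N → ∀ i, α i)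
    (h : ∀ n, ∀ j ∈ S, z n j = z' n j) (y : Fin N → α i) :
    ∀ n, ∀ j ∈ insert i S, upd z i y n j = upd z' i y n j := by
  intro n j hj
  unfold upd
  by_cases hji : j = i
  · subst hji
    simp
  · rw [Function.update_of_ne hji, Function.update_of_ne hji]
    exact h n j (Finset.mem_of_mem_insert_of_ne hj hji)

omit [Fintype I] [∀ i, Fintype (α i)] [∀ i, DecidableEq (α i)] in
private lemma upd_on (S : Finset I) (i : I) (hi : i ∉ S) (z : Fin N → ∀ i, α i) (y : Fin N → α i) :
    ∀ n, ∀ j ∈ S, upd z i y n j = z n j := by
  intro n j hj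
  have hji : j ≠ i := fun h => hi (h ▸ hj)
  unfold upd
  rw [Function.update_of_ne hji]

omit [Fintype I] [∀ i, Fintype (α i)] in
private lemma df_upd_le (S : Finset I) (i : I) (x z : Fin N → ∀ i, α i)
    (y y' : Fin N → α i) :
    df (insert i S) (upd x i y) (upd z i y') ≤ df S x z + hammingDist y y' := by
  unfold df hammingDist
  refine le_trans (Finset.card_le_card ?_) (Finset.card_union_le _ _)
  intro n hn
  rw [Finset.mem_filter] at hn
  rw [Finset.mem_union, Finset.mem_filter, Finset.mem_filter]
  by_contra hcon
  push Not at hcon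
  apply hn.2
  intro j hj
  have h1 := hcon.1 (Finset.mem_univ n)
  have h2 := hcon.2 (Finset.mem_univ n)
  unfold upd
  by_cases hji : j = i
  · subst hji
    simpa using h2
  · rw [Function.update_of_ne hji, Function.update_of_ne hji]
    exact h1 j (Finset.mem_of_mem_insert_of_ne hj hji)

private lemma gS_nonneg {P : (∀ i, α i) → ℝ} (hP : ∀ σ, 0 ≤ P σ) (A : Set (Fin N → ∀ i, α i))
    (S : Finset I) (z : Fin N → ∀ i, α i) : 0 ≤ gS P A S z :=
  div_nonneg (qS_nonneg hP _ _ _) (qS_nonneg hP _ _ _)

private lemma gS_pos {P : (∀ i, α i) → ℝ} (hP : ∀ σ, 0 ≤ P σ) (A : Set (Fin N → ∀ i, α i))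
    (S : Finset I) (z : Fin N → ∀ i, α i) : 0 < gS P A S z ↔ 0 < qS P A S z := by
  unfold gS
  constructor
  · intro h
    by_contra hcon
    have h0 : qS P A S z = 0 := le_antisymm (not_lt.1 hcon) (qS_nonneg hP _ _ _)
    rw [h0, zero_div] at h
    exact lt_irrefl _ h
  · intro h
    exact div_pos h (lt_of_lt_of_le h (qS_le hP A S z))

private lemma avg {P : (∀ i, α i) → ℝ} (hP : ∀ σ, 0 ≤ P σ) (A : Set (Fin N → ∀ i, α i))
    (S : Finset I) (i : I) (hi : i ∉ S) (z : Fin N → ∀ i, α i) :
    ∑ y : Fin N → α i, (∏ n, mS P (insert i S) (Function.update (z n) i (y n)) / mS P S (z n)) *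
      gS P A (insert i S) (upd z i y) = gS P A S z := by
  have h1 : ∀ y : Fin N → α i,
      (∏ n, mS P (insert i S) (Function.update (z n) i (y n)) / mS P S (z n)) *
        gS P A (insert i S) (upd z i y) =
      qS P A (insert i S) (upd z i y) / qS P Set.univ S z := by
    intro y
    rw [Finset.prod_div_distrib, ← qS_univ S z]
    have h2 : ∏ n, mS P (insert i S) (Function.update (z n) i (y n)) =
        qS P Set.univ (insert i S) (upd z i y) := (qS_univ (insert i S) (upd z i y)).symm
    rw [h2]
    unfold gS
    by_cases h0 : qS P Set.univ (insert i S) (upd z i y) = 0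
    · have h3 : qS P A (insert i S) (upd z i y) = 0 :=
        le_antisymm (h0 ▸ qS_le hP A _ _) (qS_nonneg hP _ _ _)
      rw [h0, h3]
      simp
    · field_simp
  rw [Finset.sum_congr rfl (fun y _ => h1 y), ← Finset.sum_div, sum_qS A S i hi z]
  rfl

theorem step (P : (∀ i, α i) → ℝ) (hP : ∀ σ, 0 ≤ P σ) (A : Set (Fin N → ∀ i, α i))
    (S : Finset I) (i : I) (hi : i ∉ S) (F : (Fin N → ∀ i, α i) → (Fin N → ∀ i, α i))
    (hF : ∀ x x', (∀ n, ∀ j ∈ S, x n j = x' n j) → ∀ n, ∀ j ∈ S, F x n j = F x' n j)
    (hpos : ∀ x, 0 < qS P A S (F x)) (L : ℝ) (hL : 1 ≤ L) :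
    ∃ s : (Fin N → ∀ i, α i) → (Fin N → α i),
      (∀ x x', (∀ n, ∀ j ∈ insert i S, x n j = x' n j) → s x = s x') ∧
      (∀ x, 0 < qS P A (insert i S) (upd (F x) i (s x))) ∧
      ∑ x, (∏ n, P (x n)) * (L ^ (df (insert i S) x (upd (F x) i (s x))) /
          gS P A (insert i S) (upd (F x) i (s x))) ≤
        ((L + 2 + L⁻¹) / 4) ^ N * ∑ x, (∏ n, P (x n)) *
          ((L ^ 2) ^ (df S x (F x)) / gS P A S (F x)) := by
  classical
  have hL0 : 0 < L := lt_of_lt_of_le one_pos hL
  rcases isEmpty_or_nonempty (Fin N → ∀ i, α i) with hem | ⟨⟨z0⟩⟩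
  · refine ⟨fun x => (hem.false x).elim, fun x => (hem.false x).elim,
      fun x => (hem.false x).elim, ?_⟩
    simp
  set rep : (Fin N → ∀ i, α i) → (Fin N → ∀ i, α i) :=
    fun x n j => if j ∈ S then x n j else z0 n j with hrep
  have hrep1 : ∀ x, ∀ n, ∀ j ∈ S, rep x n j = x n j := by
    intro x n j hj
    simp [hrep, hj]
  have hrep2 : ∀ x x', (∀ n, ∀ j ∈ S, x n j = x' n j) → rep x = rep x' := by
    intro x x' h
    funext n j
    by_cases hj : j ∈ S
    · simp [hrep, hj, h n j hj]
    · simp [hrep, hj]
  have hgpos : ∀ x, 0 < gS P A S (F x) := fun x => (gS_pos hP _ _ _).2 (hpos x)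
  have hta : ∀ r : Fin N → ∀ i, α i, ∃ s : (Fin N → α i) → (Fin N → α i),
      (∀ y, 0 < gS P A (insert i S) (upd (F r) i (s y))) ∧
      (∑ y : Fin N → α i,
        (∏ n, mS P (insert i S) (Function.update (r n) i (y n)) / mS P S (r n)) *
          (L ^ (hammingDist y (s y)) / gS P A (insert i S) (upd (F r) i (s y)))) *
        gS P A S (F r) ≤ ((L + 2 + L⁻¹) / 4) ^ N * L ^ (df S r (F r)) := by
    intro r
    have hsum : ∀ z : Fin N → ∀ i, α i, ∀ n,
        ∑ b, mS P (insert i S) (Function.update (z n) i b) / mS P S (z n) ≤ 1 := by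
      intro z n
      rw [← Finset.sum_div, sum_mS S i hi]
      exact div_self_le_one _
    have hnn : ∀ z : Fin N → ∀ i, α i, ∀ n b,
        0 ≤ mS P (insert i S) (Function.update (z n) i b) / mS P S (z n) :=
      fun z n b => div_nonneg (mS_nonneg hP _ _) (mS_nonneg hP _ _)
    have h := tal L hL N
      (fun n b => mS P (insert i S) (Function.update (r n) i b) / mS P S (r n))
      (fun n b => mS P (insert i S) (Function.update (F r n) i b) / mS P S (F r n))
      (hnn r) (hnn (F r)) (hsum r) (hsum (F r))
      (univ.filter (fun n => ¬ ∀ j ∈ S, r n j = F r n j)) ?_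
      (fun y => gS P A (insert i S) (upd (F r) i y)) (fun y => gS_nonneg hP _ _ _) ?_
    · obtain ⟨s, hs1, hs2⟩ := h
      refine ⟨s, hs1, ?_⟩
      rw [avg hP A S i hi (F r)] at hs2
      have hdf : df S r (F r) = (univ.filter (fun n => ¬ ∀ j ∈ S, r n j = F r n j)).card := by
        unfold df
        congr
      rw [hdf]
      exact hs2
    · intro n hn
      have hn' : ∀ j ∈ S, r n j = F r n j := by
        by_contra hcon
        exact hn (Finset.mem_filter.2 ⟨Finset.mem_univ n, hcon⟩)
      funext b
      congr 1
      · apply mS_congr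
        intro j hj
        by_cases hji : j = i
        · subst hji
          simp
        · rw [Function.update_of_ne hji, Function.update_of_ne hji]
          exact hn' j (Finset.mem_of_mem_insert_of_ne hj hji)
      · exact mS_congr _ _ _ hn'
    · change 0 < ∑ y : Fin N → α i,
        (∏ n, mS P (insert i S) (Function.update (F r n) i (y n)) / mS P S (F r n)) *
          gS P A (insert i S) (upd (F r) i y)
      rw [avg hP A S i hi (F r)]
      exact hgpos r
  choose sr hsr1 hsr2 using hta
  have hFrep : ∀ x, ∀ n, ∀ j ∈ S, F (rep x) n j = F x n j := fun x => hF _ _ (hrep1 x)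
  refine ⟨fun x => sr (rep x) (fun n => x n i), ?_, ?_, ?_⟩
  · intro x x' h
    have h1 : rep x = rep x' := hrep2 x x' (fun n j hj => h n j (Finset.mem_insert_of_mem hj))
    have h2 : (fun n => x n i) = (fun n => x' n i) :=
      funext (fun n => h n i (Finset.mem_insert_self i S))
    simp only [h1, h2]
  · intro x
    rw [← gS_pos hP]
    rw [← gS_congr P A (insert i S) _ _ (upd_congr S i _ _ (hFrep x) _)]
    exact hsr1 (rep x) _
  · rw [tower hP S i hi]
    · rw [Finset.mul_sum]
      refine Finset.sum_le_sum (fun x _ => ?_)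
      have hPx : 0 ≤ ∏ n, P (x n) := prod_nonneg' hP x
      have key : ∑ y : Fin N → α i,
          (∏ n, mS P (insert i S) (Function.update (x n) i (y n)) / mS P S (x n)) *
          (L ^ (df (insert i S) (upd x i y) (upd (F (upd x i y)) i
              (sr (rep (upd x i y)) (fun n => upd x i y n i)))) /
            gS P A (insert i S) (upd (F (upd x i y)) i
              (sr (rep (upd x i y)) (fun n => upd x i y n i)))) ≤
          ((L + 2 + L⁻¹) / 4) ^ N * ((L ^ 2) ^ (df S x (F x)) / gS P A S (F x)) := by
        have hr : ∀ y : Fin N → α i, rep (upd x i y) = rep x := fun y =>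
          hrep2 _ _ (upd_on S i hi x y)
        have hyi : ∀ y : Fin N → α i, (fun n => upd x i y n i) = y := by
          intro y
          funext n
          simp [upd]
        have hFx : ∀ y : Fin N → α i, ∀ n, ∀ j ∈ S, F (upd x i y) n j = F (rep x) n j := by
          intro y n j hj
          rw [hFrep x n j hj]
          exact hF _ _ (upd_on S i hi x y) n j hj
        have hd : df S (rep x) (F (rep x)) = df S x (F x) :=
          df_congr S _ _ _ _ (hrep1 x) (hFrep x)
        have hg : gS P A S (F (rep x)) = gS P A S (F x) := gS_congr P A S _ _ (hFrep x)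
        have hu : ∀ (y : Fin N → α i),
            (∏ n, mS P (insert i S) (Function.update (x n) i (y n)) / mS P S (x n)) =
            (∏ n, mS P (insert i S) (Function.update (rep x n) i (y n)) / mS P S (rep x n)) := by
          intro y
          refine Finset.prod_congr rfl (fun n _ => ?_)
          congr 1
          · apply mS_congr
            intro j hj
            by_cases hji : j = i
            · subst hji
              simp
            · rw [Function.update_of_ne hji, Function.update_of_ne hji]
              exact (hrep1 x n j (Finset.mem_of_mem_insert_of_ne hj hji)).symm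
          · exact mS_congr _ _ _ (fun j hj => (hrep1 x n j hj).symm)
        have h1 : ∀ y : Fin N → α i,
            (∏ n, mS P (insert i S) (Function.update (x n) i (y n)) / mS P S (x n)) *
            (L ^ (df (insert i S) (upd x i y) (upd (F (upd x i y)) i
                (sr (rep (upd x i y)) (fun n => upd x i y n i)))) /
              gS P A (insert i S) (upd (F (upd x i y)) i
                (sr (rep (upd x i y)) (fun n => upd x i y n i)))) ≤
            L ^ (df S x (F x)) *
            ((∏ n, mS P (insert i S) (Function.update (rep x n) i (y n)) / mS P S (rep x n)) *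
              (L ^ (hammingDist y (sr (rep x) y)) /
                gS P A (insert i S) (upd (F (rep x)) i (sr (rep x) y)))) := by
          intro y
          rw [hu y, hr y, hyi y,
            gS_congr P A (insert i S) _ _ (upd_congr S i _ _ (hFx y) (sr (rep x) y))]
          have h2 : df (insert i S) (upd x i y) (upd (F (upd x i y)) i (sr (rep x) y)) ≤
              df S x (F x) + hammingDist y (sr (rep x) y) := by
            refine le_trans (df_upd_le S i x (F (upd x i y)) y _) (le_of_eq ?_)
            congr 1
            exact df_congr S _ _ _ _ (fun _ _ _ => rfl)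
              (fun n j hj => (hFx y n j hj).trans (hFrep x n j hj))
          have h3 : L ^ (df (insert i S) (upd x i y) (upd (F (upd x i y)) i (sr (rep x) y))) ≤
              L ^ (df S x (F x)) * L ^ (hammingDist y (sr (rep x) y)) := by
            rw [← pow_add]
            exact pow_le_pow_right₀ hL h2
          have h4 : 0 ≤ ∏ n, mS P (insert i S) (Function.update (rep x n) i (y n)) /
              mS P S (rep x n) :=
            Finset.prod_nonneg (fun n _ => div_nonneg (mS_nonneg hP _ _) (mS_nonneg hP _ _))
          have h5 := gS_nonneg hP A (insert i S) (upd (F (rep x)) i (sr (rep x) y))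
          calc _ ≤ (∏ n, mS P (insert i S) (Function.update (rep x n) i (y n)) /
                  mS P S (rep x n)) * ((L ^ (df S x (F x)) * L ^ (hammingDist y (sr (rep x) y))) /
                gS P A (insert i S) (upd (F (rep x)) i (sr (rep x) y))) :=
                mul_le_mul_of_nonneg_left (div_le_div_of_nonneg_right h3 h5) h4
            _ = _ := by ring
        refine le_trans (Finset.sum_le_sum (fun y _ => h1 y)) ?_
        rw [← Finset.mul_sum]
        have h6 := hsr2 (rep x)
        rw [hd, hg] at h6
        rw [← le_div_iff₀ (hgpos x)] at h6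
        refine le_trans (mul_le_mul_of_nonneg_left h6 (pow_nonneg hL0.le _)) (le_of_eq ?_)
        rw [← pow_mul, mul_comm 2, pow_mul, pow_two]
        ring
      calc _ ≤ (∏ n, P (x n)) * (((L + 2 + L⁻¹) / 4) ^ N *
            ((L ^ 2) ^ (df S x (F x)) / gS P A S (F x))) :=
            mul_le_mul_of_nonneg_left key hPx
        _ = _ := by ring
    · intro x x' h
      have hS : ∀ n, ∀ j ∈ S, x n j = x' n j :=
        fun n j hj => h n j (Finset.mem_insert_of_mem hj)
      have h1 : rep x = rep x' := hrep2 x x' hS
      have h2 : (fun n => x n i) = (fun n => x' n i) :=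
        funext (fun n => h n i (Finset.mem_insert_self i S))
      have h3 := upd_congr S i _ _ (hF x x' hS) (sr (rep x') (fun n => x' n i))
      simp only [h1, h2]
      rw [gS_congr P A (insert i S) _ _ h3, df_congr (insert i S) _ _ _ _ h h3]

end Pool.Agent.Lib.NetAlg
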